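import Pool.Agent.Q145.NC.Core

/-!
# Holomorphic forms on products of curves and natural maps
-/

set_option autoImplicit false
set_option linter.unusedSectionVars false

namespace Pool.Agent.Q145.NC

open Finset

variable {k : Type} [Field k] [CharZero k] {J : Type} (g : J → ℕ)

/-- The tangent space of the product of the Jacobians, with `g j` coordinates for each factor
`C_j` of the product of the powers `C_j ^ (N j)`. -/
abbrev TS (k : Type) [Field k] {J : Type} (g : J → ℕ) (N : J → Type) : Type :=
  ∀ j, N j → Fin (g j) → k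

variable {g}

/-- the tangent vector `v` belongs to the factor `q` -/
def At {N : J → Type} (q : Σ j, N j) (v : TS k g N) : Prop :=
  ∀ (j : J) (m : N j), (⟨j, m⟩ : Σ j, N j) ≠ q → v j m = 0

/-- an alternating form which vanishes if two arguments belong to the same factor -/
def IsForm {N : J → Type} {i : ℕ} (φ : TS k g N [⋀^Fin i]→ₗ[k] k) : Prop :=
  ∀ v : Fin i → TS k g N, ∀ l l', l ≠ l' → ∀ q, At q (v l) → At q (v l') → φ v = 0

/-- the action on tangent vectors of the natural map with the data `f`, `s` -/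
def linN {N M : J → Type} (f : ∀ j, M j → N j) (s : ∀ j, M j → ℤ) : TS k g N →ₗ[k] TS k g M where
  toFun v j m := (s j m : k) • v j (f j m)
  map_add' v w := by ext j m c; simp [mul_add]
  map_smul' r v := by ext j m c; simp [mul_left_comm]

section

variable {N M : J → Type} {i : ℕ}

/-- the linear functionals at the positions `b` with the colours `c` -/
def lamb (b : Fin i → Σ j, M j) (c : ∀ l, Fin (g (b l).1)) : TS k g M →ₗ[k] (Fin i → k) where
  toFun v l := v (b l).1 (b l).2 (c l)
  map_add' v w := by ext l; simp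
  map_smul' r v := by ext l; simp

/-- the determinant form -/
noncomputable def detF (b : Fin i → Σ j, M j) (c : ∀ l, Fin (g (b l).1)) :
    TS k g M [⋀^Fin i]→ₗ[k] k :=
  (Matrix.detRowAlternating (R := k) (n := Fin i)).compLinearMap (lamb b c)

lemma detF_apply (b : Fin i → Σ j, M j) (c : ∀ l, Fin (g (b l).1)) (v : Fin i → TS k g M) :
    detF b c v = ∑ σ : Equiv.Perm (Fin i), ((Equiv.Perm.sign σ : ℤ) : k) *
      ∏ m, v (σ m) (b m).1 (b m).2 (c m) := by
  unfold detF
  rw [AlternatingMap.compLinearMap_apply]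
  change Matrix.det (Matrix.of fun l => lamb b c (v l)) = _
  rw [Matrix.det_apply']
  rfl

lemma isForm_detF (b : Fin i → Σ j, M j) (hb : Function.Injective b)
    (c : ∀ l, Fin (g (b l).1)) : IsForm (detF (k := k) b c) := by
  intro v l l' hll q hl hl'
  rw [detF_apply]
  apply Finset.sum_eq_zero
  intro σ _
  rw [mul_eq_zero]
  right
  have hne : σ.symm l ≠ σ.symm l' := fun h => hll (σ.symm.injective h)
  have key : ∀ l'' , At q (v l'') → b (σ.symm l'') ≠ q →
      ∏ m, v (σ m) (b m).1 (b m).2 (c m) = 0 := by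
    intro l'' h h1
    apply Finset.prod_eq_zero (Finset.mem_univ (σ.symm l''))
    rw [Equiv.apply_symm_apply]
    rw [h _ _ (by exact h1)]
    rfl
  by_cases h1 : b (σ.symm l) = q
  · have h2 : b (σ.symm l') ≠ q := by
      intro h2
      exact hne (hb (h1.trans h2.symm))
    exact key l' hl' h2
  · exact key l hl h1

/-- the tangent vector with one coordinate -/
noncomputable def vec (q : Σ j, N j) (d : ℕ) : TS k g N := by
  classical
  exact fun j m c => if (⟨j, m⟩ : Σ j, N j) = q ∧ (c : ℕ) = d then 1 else 0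

lemma at_vec (q : Σ j, N j) (d : ℕ) : At q (vec (k := k) (g := g) q d) := by
  classical
  intro j m h
  ext c
  unfold vec
  rw [if_neg (fun h' => h h'.1)]
  rfl

/-- The combinatorial form of the vanishing of the action on forms. -/
lemma forms_comb {R : Type} [Fintype R] [DecidableEq (Σ j, N j)] (c : R → ℚ)
    (f : R → ∀ j, M j → N j) (s : R → ∀ j, M j → ℤ)
    (h : ∀ φ : TS k g M [⋀^Fin i]→ₗ[k] k, IsForm φ → ∀ (p : Fin i ↪ Σ j, N j)
      (v : Fin i → TS k g N), (∀ l, At (p l) (v l)) →
      ∑ r, (c r : k) * φ (fun l => linN (f r) (s r) (v l)) = 0)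
    (p : Fin i ↪ Σ j, N j) (b : Fin i ↪ Σ j, M j) (hbp : ∀ l, (b l).1 = (p l).1)
    (c' d : Fin i → ℕ) (hc' : ∀ l, c' l < g (p l).1) (hd : ∀ l, d l < g (p l).1) :
    (∑ σ : Equiv.Perm (Fin i), if (fun l => d (σ l)) = c' then
        ((Equiv.Perm.sign σ : ℤ) : ℚ) * ∑ r, c r * cf (fun q => (⟨q.1, f r q.1 q.2⟩ : Σ j, N j))
          (fun q => s r q.1 q.2) p b σ else 0) = 0 := by
  classical
  have h1 := h (detF b (fun l => ⟨c' l, by rw [hbp]; exact hc' l⟩)) (isForm_detF _ b.injective _)
    p (fun l => vec (p l) (d l)) (fun l => at_vec _ _)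
  simp only [detF_apply] at h1
  have h2 : ∀ r (σ : Equiv.Perm (Fin i)), (∏ m, linN (k := k) (g := g) (f r) (s r)
      (vec (p (σ m)) (d (σ m))) (b m).1 (b m).2 ⟨c' m, by rw [hbp]; exact hc' m⟩) =
      if (fun l => d (σ l)) = c' then ((cf (fun q => (⟨q.1, f r q.1 q.2⟩ : Σ j, N j))
          (fun q => s r q.1 q.2) p b σ : ℚ) : k) else 0 := by
    intro r σ
    by_cases hdc : (fun l => d (σ l)) = c'
    · rw [if_pos hdc]
      unfold cf
      rw [Rat.cast_prod]
      apply Finset.prod_congr rfl
      intro m _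
      change ((s r (b m).1 (b m).2 : ℤ) : k) •
        vec (k := k) (g := g) (p (σ m)) (d (σ m)) (b m).1 (f r (b m).1 (b m).2) _ = _
      unfold vec
      have hdm : c' m = d (σ m) := (congrFun hdc m).symm
      by_cases hp : (⟨(b m).1, f r (b m).1 (b m).2⟩ : Σ j, N j) = p (σ m)
      · rw [if_pos ⟨hp, hdm⟩, if_pos hp]
        simp
      · rw [if_neg (fun h' => hp h'.1), if_neg hp]
        simp
    · rw [if_neg hdc]
      have : ∃ m, d (σ m) ≠ c' m := by
        by_contra hc
        push Not at hc
        exact hdc (funext hc)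
      obtain ⟨m, hm⟩ := this
      apply Finset.prod_eq_zero (Finset.mem_univ m)
      change ((s r (b m).1 (b m).2 : ℤ) : k) •
        vec (k := k) (g := g) (p (σ m)) (d (σ m)) (b m).1 (f r (b m).1 (b m).2) _ = _
      unfold vec
      rw [if_neg (fun h' => hm h'.2.symm)]
      simp
  simp only [h2] at h1
  have h3 : (((∑ σ : Equiv.Perm (Fin i), if (fun l => d (σ l)) = c' then
        ((Equiv.Perm.sign σ : ℤ) : ℚ) * ∑ r, c r * cf (fun q => (⟨q.1, f r q.1 q.2⟩ : Σ j, N j))
          (fun q => s r q.1 q.2) p b σ else 0 : ℚ)) : k) = 0 := by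
    rw [← h1]
    simp only [Finset.mul_sum, mul_ite, mul_zero]
    rw [Finset.sum_comm, Rat.cast_sum]
    apply Finset.sum_congr rfl
    intro σ _
    split_ifs with h4
    · push_cast
      apply Finset.sum_congr rfl
      intro r _
      ring
    · simp
  exact_mod_cast h3

end

end Pool.Agent.Q145.NC
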