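import Pool.Agent.Q145.NC.Ker

/-!
# Differences of functions of several variables
-/

set_option autoImplicit false

namespace Pool.Agent.Q145.NC

open Equiv Finset Pool.Agent.Q70.CH

section diff

variable {𝔸 ι : Type} [DecidableEq ι] {W : Type*} [AddCommGroup W] [Module ℚ W]

/-- `y` on `B`, and `x` elsewhere -/
def mix (B : Finset ι) (x y : ι → 𝔸) : ι → 𝔸 := fun q => if q ∈ B then y q else x q

lemma mix_mem {B : Finset ι} {x y : ι → 𝔸} {q : ι} (h : q ∈ B) : mix B x y q = y q := if_pos h

lemma mix_notMem {B : Finset ι} {x y : ι → 𝔸} {q : ι} (h : q ∉ B) : mix B x y q = x q := if_neg h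

lemma mix_empty (x y : ι → 𝔸) : mix ∅ x y = x := by
  ext q; exact mix_notMem (by simp)

lemma mix_insert (a : ι) (B : Finset ι) (x y : ι → 𝔸) :
    mix (insert a B) x y = mix B (Function.update x a (y a)) y := by
  ext q
  by_cases hq : q ∈ B
  · rw [mix_mem hq, mix_mem (Finset.mem_insert_of_mem hq)]
  · rw [mix_notMem hq]
    by_cases h : q = a
    · subst h
      rw [mix_mem (Finset.mem_insert_self _ _), Function.update_self]
    · rw [mix_notMem (by simp [h, hq]), Function.update_of_ne h]

lemma mix_insert' (a : ι) (B : Finset ι) (x y : ι → 𝔸) :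
    mix (insert a B) x y = Function.update (mix B x y) a (y a) := by
  ext q
  by_cases h : q = a
  · subst h
    rw [mix_mem (Finset.mem_insert_self _ _), Function.update_self]
  · rw [Function.update_of_ne h]
    by_cases hq : q ∈ B
    · rw [mix_mem hq, mix_mem (Finset.mem_insert_of_mem hq)]
    · rw [mix_notMem hq, mix_notMem (by simp [h, hq])]

/-- The iterated difference `∑_{B ⊆ S} (-1)^|B| Φ(y on B, x elsewhere)`. -/
def D (Φ : (ι → 𝔸) → W) (S : Finset ι) (x y : ι → 𝔸) : W :=
  ∑ B ∈ S.powerset, ((-1 : ℚ) ^ B.card) • Φ (mix B x y)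

lemma D_empty (Φ : (ι → 𝔸) → W) (x y : ι → 𝔸) : D Φ ∅ x y = Φ x := by
  simp [D, mix_empty]

lemma D_insert (Φ : (ι → 𝔸) → W) {a : ι} {S : Finset ι} (ha : a ∉ S) (x y : ι → 𝔸) :
    D Φ (insert a S) x y = D Φ S x y - D Φ S (Function.update x a (y a)) y := by
  unfold D
  rw [Finset.sum_powerset_insert ha, sub_eq_add_neg, ← Finset.sum_neg_distrib]
  congr 1
  apply Finset.sum_congr rfl
  intro B hB
  have haB : a ∉ B := fun h => ha (Finset.mem_powerset.1 hB h)
  rw [Finset.card_insert_of_notMem haB, pow_succ, mul_neg_one, neg_smul, mix_insert]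

lemma D_erase (Φ : (ι → 𝔸) → W) {a : ι} {S : Finset ι} (ha : a ∈ S) (x y : ι → 𝔸) :
    D Φ S x y = ∑ B ∈ (S.erase a).powerset, ((-1 : ℚ) ^ B.card) •
      (Φ (Function.update (mix B x y) a (x a)) - Φ (Function.update (mix B x y) a (y a))) := by
  conv_lhs => rw [← Finset.insert_erase ha]
  unfold D
  rw [Finset.sum_powerset_insert (Finset.notMem_erase a S), ← Finset.sum_add_distrib]
  apply Finset.sum_congr rfl
  intro B hB
  have haB : a ∉ B := fun h => Finset.notMem_erase a S (Finset.mem_powerset.1 hB h)
  rw [Finset.card_insert_of_notMem haB, pow_succ, mul_neg_one, neg_smul, mix_insert', smul_sub,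
    sub_eq_add_neg]
  congr 3
  ext q
  by_cases h : q = a
  · subst h
    rw [Function.update_self, mix_notMem haB]
  · rw [Function.update_of_ne h]

/-- a function which does not depend on one of the variables -/
lemma D_indep (Φ : (ι → 𝔸) → W) {a : ι} {S : Finset ι} (ha : a ∈ S)
    (x y : ι → 𝔸) (h : ∀ B, Φ (Function.update (mix B x y) a (x a)) =
      Φ (Function.update (mix B x y) a (y a))) : D Φ S x y = 0 := by
  rw [D_erase Φ ha]
  apply Finset.sum_eq_zero
  intro B _
  rw [h B, sub_self, smul_zero]

lemma D_union (Φ : (ι → 𝔸) → W) (S₁ S₂ : Finset ι) (h : Disjoint S₁ S₂) (x y : ι → 𝔸) :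
    D Φ (S₁ ∪ S₂) x y =
      ∑ A ∈ S₁.powerset, ((-1 : ℚ) ^ A.card) • D Φ S₂ (mix A x y) y := by
  induction S₁ using Finset.induction_on generalizing x with
  | empty => simp [mix_empty]
  | insert a S ha ih =>
    rw [Finset.disjoint_insert_left] at h
    rw [Finset.insert_union, D_insert Φ (by simp [ha, h.1]), ih h.2, ih h.2,
      Finset.sum_powerset_insert ha, sub_eq_add_neg, ← Finset.sum_neg_distrib]
    congr 1
    apply Finset.sum_congr rfl
    intro B hB
    have haB : a ∉ B := fun h => ha (Finset.mem_powerset.1 hB h)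
    rw [Finset.card_insert_of_notMem haB, pow_succ, mul_neg_one, neg_smul, mix_insert]

/-- Möbius inversion -/
lemma moebius (F : Finset ι → W) (U : Finset ι) :
    ∑ T ∈ U.powerset, ((-1 : ℚ) ^ T.card) • ∑ A ∈ T.powerset, ((-1 : ℚ) ^ A.card) • F A = F U := by
  induction U using Finset.induction_on generalizing F with
  | empty => simp
  | insert a U ha ih =>
    rw [Finset.sum_powerset_insert ha, ← Finset.sum_add_distrib, ← ih (fun A => F (insert a A))]
    apply Finset.sum_congr rfl
    intro T hT
    have haT : a ∉ T := fun h => ha (Finset.mem_powerset.1 hT h)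
    rw [Finset.card_insert_of_notMem haT, Finset.sum_powerset_insert haT, pow_succ, mul_neg_one,
      neg_smul, smul_add, neg_add, ← add_assoc, add_neg_cancel, zero_add, ← smul_neg,
      ← Finset.sum_neg_distrib]
    congr 1
    apply Finset.sum_congr rfl
    intro A hA
    have haA : a ∉ A := fun h => haT (Finset.mem_powerset.1 hA h)
    rw [Finset.card_insert_of_notMem haA, pow_succ, mul_neg_one, neg_smul, neg_neg]

lemma mix_univ [Fintype ι] (x y : ι → 𝔸) : mix univ x y = y := by
  ext q; exact mix_mem (Finset.mem_univ q)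

/-- the components of a function -/
lemma sum_comp [Fintype ι] (Φ : (ι → 𝔸) → W) (o y : ι → 𝔸) :
    ∑ T ∈ (univ : Finset ι).powerset, ((-1 : ℚ) ^ T.card) • D Φ T o y = Φ y := by
  have := moebius (fun A => Φ (mix A o y)) univ
  rw [mix_univ] at this
  exact this

lemma mix_compl [Fintype ι] (B : Finset ι) (x y : ι → 𝔸) : mix Bᶜ x y = mix B y x := by
  ext q
  by_cases h : q ∈ B
  · rw [mix_mem h, mix_notMem (by simp [h])]
  · rw [mix_notMem h, mix_mem (by simp [h])]

lemma D_swap [Fintype ι] (Φ : (ι → 𝔸) → W) (x y : ι → 𝔸) :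
    ((-1 : ℚ) ^ (univ : Finset ι).card) • D Φ univ x y = D Φ univ y x := by
  unfold D
  rw [Finset.smul_sum]
  simp only [Finset.powerset_univ]
  refine Fintype.sum_equiv (Equiv.mk (fun B : Finset ι => Bᶜ) (fun B => Bᶜ) (fun B => compl_compl B)
    (fun B => compl_compl B)) _ _ ?_
  intro B
  simp only [Equiv.coe_fn_mk]
  rw [smul_smul, mix_compl]
  congr 1
  have h1 : (univ : Finset ι).card = Bᶜ.card + B.card := by
    rw [Finset.card_compl_add_card]; rfl
  rw [h1, pow_add, mul_assoc, ← pow_add, ← two_mul, pow_mul, neg_one_sq, one_pow, mul_one]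

/-- differences transform well under scalar maps of the variables -/
lemma D_scalar [Fintype ι] (Θ : (ι → 𝔸) → W) (Tp : ι → 𝔸 → Prop) (α : ι → 𝔸 → 𝔸) (s : ι → ℚ)
    (hα : ∀ l a, Tp l a → Tp l (α l a))
    (hΘ : ∀ (w : ι → 𝔸) (l : ι) (a b : 𝔸), (∀ m, Tp m (w m)) → Tp l a → Tp l b →
      Θ (Function.update w l (α l a)) - Θ (Function.update w l (α l b)) =
        s l • (Θ (Function.update w l a) - Θ (Function.update w l b)))
    (u v : ι → 𝔸) (hu : ∀ m, Tp m (u m)) (hv : ∀ m, Tp m (v m)) :
    D Θ univ (fun l => α l (u l)) (fun l => α l (v l)) = (∏ l, s l) • D Θ univ u v := by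
  have key : ∀ R : Finset ι, D Θ univ (mix R u fun l => α l (u l)) (mix R v fun l => α l (v l)) =
      (∏ l ∈ R, s l) • D Θ univ u v := by
    intro R
    induction R using Finset.induction_on with
    | empty => simp [mix_empty]
    | insert a R ha ih =>
      rw [Finset.prod_insert ha, ← smul_smul, ← ih, D_erase Θ (Finset.mem_univ a),
        D_erase Θ (Finset.mem_univ a), Finset.smul_sum]
      apply Finset.sum_congr rfl
      intro B hB
      have haB : a ∉ B := fun h => Finset.notMem_erase a _ (Finset.mem_powerset.1 hB h)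
      rw [smul_comm]
      congr 1
      have e1 : mix (insert a R) u (fun l => α l (u l)) a = α a (u a) :=
        mix_mem (Finset.mem_insert_self _ _)
      have e2 : mix (insert a R) v (fun l => α l (v l)) a = α a (v a) :=
        mix_mem (Finset.mem_insert_self _ _)
      have e3 : mix R u (fun l => α l (u l)) a = u a := mix_notMem ha
      have e4 : mix R v (fun l => α l (v l)) a = v a := mix_notMem ha
      rw [e1, e2, e3, e4]
      set z := mix B (mix R u fun l => α l (u l)) (mix R v fun l => α l (v l)) with hz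
      have e5 : ∀ c, Function.update (mix B (mix (insert a R) u fun l => α l (u l))
          (mix (insert a R) v fun l => α l (v l))) a c = Function.update z a c := by
        intro c
        ext q
        by_cases h : q = a
        · subst h; simp
        · rw [Function.update_of_ne h, Function.update_of_ne h, hz]
          unfold mix
          simp [h]
      rw [e5, e5]
      refine hΘ z a (u a) (v a) ?_ (hu a) (hv a)
      intro m
      rw [hz]
      unfold mix
      split_ifs
      · exact hα _ _ (hv m)
      · exact hv m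
      · exact hα _ _ (hu m)
      · exact hu m
  have h1 := key univ
  simp only [mix_univ] at h1
  exact h1

end diff

end Pool.Agent.Q145.NC
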