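import Pool.Agent.Q70.CH.Comb

/-!
# The vanishing lemma for functions on typed permutations

`t : Fin n → J` is a labelling of the positions.  If `G : Perm (Fin n) → W` is killed, at the
permutations which respect the labels, by all symmetrizers on `g j + 1` positions with the label
`j`, then every linear combination of such permutations which acts as zero on
`⨂_i ℚ^(g (t i)) ⊗ sign` kills `G`.
-/

set_option autoImplicit false

namespace Pool.Agent.Q145.NC

open Equiv Finset Pool.Agent.Q70.CH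

variable {n : ℕ} {J : Type}

/-- permutations which respect the labels -/
def Ty (t : Fin n → J) (σ : Perm (Fin n)) : Prop := ∀ i, t (σ i) = t i

lemma Ty.mul {t : Fin n → J} {σ τ : Perm (Fin n)} (hσ : Ty t σ) (hτ : Ty t τ) : Ty t (σ * τ) :=
  fun i => (hσ (τ i)).trans (hτ i)

lemma Ty.inv {t : Fin n → J} {σ : Perm (Fin n)} (hσ : Ty t σ) : Ty t σ⁻¹ := by
  intro i
  have := hσ (σ⁻¹ i)
  have h1 : σ (σ⁻¹ i) = i := by simp
  rw [h1] at this
  exact this.symm

lemma ty_of_permsOn {t : Fin n → J} {P : Finset (Fin n)} {j : J} (hP : ∀ i ∈ P, t i = j)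
    {π : Perm (Fin n)} (hπ : π ∈ permsOn P) : Ty t π := by
  intro i
  by_cases hi : i ∈ P
  · rw [hP i hi, hP _ (permsOn_map hπ hi)]
  · rw [mem_permsOn.1 hπ i hi]

/-- `σ` is decreasing on `P`, and all elements of `P` have the same label. -/
def MDec (t : Fin n → J) (σ : Perm (Fin n)) (P : Finset (Fin n)) : Prop :=
  DecOn σ P ∧ ∀ i ∈ P, ∀ j ∈ P, t i = t j

/-- there is no decreasing sequence of length `g j + 1` in the positions with the label `j` -/
def TAvoids (t : Fin n → J) (g : J → ℕ) (σ : Perm (Fin n)) : Prop :=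
  ∀ P : Finset (Fin n), MDec t σ P → ∀ i ∈ P, P.card ≤ g (t i)

/-- length of the longest decreasing sequence of one label ending at `i` -/
noncomputable def tcol (t : Fin n → J) (σ : Perm (Fin n)) (i : Fin n) : ℕ := by
  classical
  exact (univ.filter fun P : Finset (Fin n) => MDec t σ P ∧ i ∈ P ∧ ∀ j ∈ P, j ≤ i).sup
    Finset.card

variable {t : Fin n → J} {g : J → ℕ}

lemma le_tcol {σ : Perm (Fin n)} {i : Fin n} {P : Finset (Fin n)} (h : MDec t σ P) (hi : i ∈ P)
    (hj : ∀ j ∈ P, j ≤ i) : P.card ≤ tcol t σ i := by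
  classical
  unfold tcol
  exact Finset.le_sup (f := Finset.card)
    (by simp only [Finset.mem_filter, Finset.mem_univ, true_and]; exact ⟨h, hi, hj⟩)

lemma mdec_singleton (σ : Perm (Fin n)) (i : Fin n) : MDec t σ {i} := by
  refine ⟨decOn_singleton σ i, ?_⟩
  intro a ha b hb
  rw [Finset.mem_singleton] at ha hb
  rw [ha, hb]

lemma one_le_tcol (σ : Perm (Fin n)) (i : Fin n) : 1 ≤ tcol t σ i := by
  have := le_tcol (t := t) (mdec_singleton σ i) (Finset.mem_singleton_self i) (by simp)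
  simpa using this

lemma exists_tcol (t : Fin n → J) (σ : Perm (Fin n)) (i : Fin n) :
    ∃ P : Finset (Fin n), MDec t σ P ∧ i ∈ P ∧ (∀ j ∈ P, j ≤ i) ∧ P.card = tcol t σ i := by
  classical
  have hne : (univ.filter fun P : Finset (Fin n) => MDec t σ P ∧ i ∈ P ∧ ∀ j ∈ P, j ≤ i).Nonempty :=
    ⟨{i}, by
      simp only [Finset.mem_filter, Finset.mem_univ, true_and]
      exact ⟨mdec_singleton σ i, by simp, by simp⟩⟩
  obtain ⟨P, hP, hP'⟩ := Finset.exists_mem_eq_sup _ hne Finset.card
  simp only [Finset.mem_filter, Finset.mem_univ, true_and] at hP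
  refine ⟨P, hP.1, hP.2.1, hP.2.2, ?_⟩
  rw [← hP']
  unfold tcol
  congr

lemma tcol_lt {σ : Perm (Fin n)} {i j : Fin n} (hij : i < j) (ht : t i = t j) (h : σ j < σ i) :
    tcol t σ i < tcol t σ j := by
  classical
  obtain ⟨P, hP, hiP, hle, hc⟩ := exists_tcol t σ i
  have hj : j ∉ P := fun hj => absurd (hle j hj) (not_le.2 hij)
  have h1 : MDec t σ (insert j P) := by
    constructor
    · intro a ha b hb hab
      rcases Finset.mem_insert.1 ha with rfl | ha'
      · rcases Finset.mem_insert.1 hb with rfl | hb'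
        · exact absurd hab (lt_irrefl _)
        · exact absurd (hab.trans_le (hle b hb')) (not_lt.2 hij.le)
      · rcases Finset.mem_insert.1 hb with rfl | hb'
        · rcases (hle a ha').lt_or_eq with h2 | rfl
          · exact h.trans (hP.1 a ha' i hiP h2)
          · exact h
        · exact hP.1 a ha' b hb' hab
    · have h3 : ∀ a ∈ insert j P, t a = t j := by
        intro a ha
        rcases Finset.mem_insert.1 ha with rfl | ha'
        · rfl
        · rw [hP.2 a ha' i hiP, ht]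
      intro a ha b hb
      rw [h3 a ha, h3 b hb]
  have h2 := le_tcol h1 (Finset.mem_insert_self j P) (by
    intro a ha
    rcases Finset.mem_insert.1 ha with rfl | ha'
    · exact le_rfl
    · exact (hle a ha').trans hij.le)
  rw [Finset.card_insert_of_notMem hj] at h2
  omega

lemma tcol_le {σ : Perm (Fin n)} (h : TAvoids t g σ) (i : Fin n) : tcol t σ i ≤ g (t i) := by
  obtain ⟨P, hP, hi, -, hc⟩ := exists_tcol t σ i
  rw [← hc]
  exact h P hP i hi

lemma lexLt_of_tcol {σ₀ : Perm (Fin n)} {σ : Perm (Fin n)} (hT₀ : Ty t σ₀) (hT : Ty t σ)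
    (hσ : ∀ i, tcol t σ₀ (σ₀⁻¹ (σ i)) = tcol t σ₀ i) (hne : σ ≠ σ₀) : LexLt σ₀ σ := by
  have h1 : σ₀⁻¹ * σ ≠ 1 := by
    intro hc
    apply hne
    rw [inv_mul_eq_one] at hc
    exact hc.symm
  obtain ⟨i, hi, hi'⟩ := exists_first_moved h1
  refine ⟨i, fun j hj => ?_, ?_⟩
  · have := hi j hj
    rw [Perm.mul_apply, Perm.inv_eq_iff_eq] at this
    exact this.symm
  · have h2 := hσ i
    have ht : t i = t (σ₀⁻¹ (σ i)) := by rw [hT₀.inv (σ i), hT i]
    rw [Perm.mul_apply] at hi'
    by_contra hc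
    rw [not_lt] at hc
    have h3 : σ i = σ₀ (σ₀⁻¹ (σ i)) := by simp
    rcases hc.lt_or_eq with h4 | h4
    · rw [h3] at h4
      have := tcol_lt hi' ht h4
      omega
    · rw [h4] at hi'
      simp at hi'

/-- The evaluation on words: `∑_{d ∘ σ = c} a σ`. -/
def tev (a : Perm (Fin n) → ℚ) (c d : Fin n → ℕ) : ℚ :=
  ∑ σ, if (fun i => d (σ i)) = c then a σ else 0

/-- the words -/
def Wd (t : Fin n → J) (g : J → ℕ) (c : Fin n → ℕ) : Prop := ∀ i, c i < g (t i)

/-- the kernel of the evaluation -/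
def tker (t : Fin n → J) (g : J → ℕ) : Submodule ℚ (Perm (Fin n) → ℚ) where
  carrier := {a | ∀ c d, Wd t g c → Wd t g d → tev a c d = 0}
  zero_mem' := by intro c d _ _; simp [tev]
  add_mem' := by
    intro a b ha hb c d hc hd
    have h1 := ha c d hc hd
    have h2 := hb c d hc hd
    have : tev (a + b) c d = tev a c d + tev b c d := by
      unfold tev
      rw [← Finset.sum_add_distrib]
      apply Finset.sum_congr rfl
      intro σ _
      split_ifs <;> simp
    rw [this, h1, h2, add_zero]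
  smul_mem' := by
    intro r a ha c d hc hd
    have h1 := ha c d hc hd
    have : tev (r • a) c d = r * tev a c d := by
      unfold tev
      rw [Finset.mul_sum]
      apply Finset.sum_congr rfl
      intro σ _
      split_ifs <;> simp
    rw [this, h1, mul_zero]

/-- the span of the antisymmetrizers -/
def tI (t : Fin n → J) (g : J → ℕ) : Submodule ℚ (Perm (Fin n) → ℚ) :=
  Submodule.span ℚ {x | ∃ σ P j, Ty t σ ∧ (∀ i ∈ P, t i = j) ∧ P.card = g j + 1 ∧ x = asym σ P}

lemma tev_sum {α : Type*} (s : Finset α) (f : α → Perm (Fin n) → ℚ) (c d : Fin n → ℕ) :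
    tev (∑ x ∈ s, f x) c d = ∑ x ∈ s, tev (f x) c d := by
  unfold tev
  rw [Finset.sum_comm]
  apply Finset.sum_congr rfl
  intro σ _
  split_ifs
  · rw [Finset.sum_apply]
  · simp

lemma tev_smul_single (r : ℚ) (σ : Perm (Fin n)) (c d : Fin n → ℕ) :
    tev (r • Pi.single σ 1) c d = if (fun i => d (σ i)) = c then r else 0 := by
  unfold tev
  rw [Finset.sum_eq_single σ]
  · simp
  · intro τ _ hτ
    rw [Pi.smul_apply, Pi.single_eq_of_ne hτ, smul_zero, ite_self]
  · intro h; exact absurd (Finset.mem_univ σ) h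

lemma tI_le : tI t g ≤ tker t g := by
  classical
  unfold tI
  rw [Submodule.span_le]
  rintro x ⟨σ, P, j, hσ, hPj, hP, rfl⟩
  intro c d hc hd
  unfold asym
  rw [tev_sum]
  simp only [tev_smul_single]
  obtain ⟨i, hi, i', hi', hij, h⟩ := Finset.exists_ne_map_eq_of_card_lt_of_maps_to
    (s := P) (t := Finset.range (g j)) (by simp [hP])
    (f := fun i => d (σ i)) (fun i hi => by
      have h1 := hd (σ i)
      rw [hσ i, hPj i hi] at h1
      simpa using h1)
  refine sum_sign_eq_zero hi hi' hij (fun π => (fun l => d ((σ * π) l)) = c) ?_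
  intro π hπ
  rw [← hπ]
  ext l
  simp only [Perm.mul_apply]
  have key : ∀ m, d (σ (swap i i' m)) = d (σ m) := by
    intro m
    rcases eq_or_ne m i with rfl | h1
    · rw [swap_apply_left]; exact h.symm
    · rcases eq_or_ne m i' with rfl | h2
      · rw [swap_apply_right]; exact h
      · rw [swap_apply_of_ne_of_ne h1 h2]
  exact key _

/-- straightening: modulo antisymmetrizers, everything is a combination of avoiders -/
lemma tstraighten (σ : Perm (Fin n)) (hT : Ty t σ) :
    ∃ b : Perm (Fin n) → ℚ, (∀ τ, b τ ≠ 0 → Ty t τ ∧ TAvoids t g τ) ∧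
      Pi.single σ 1 - b ∈ tI t g := by
  classical
  have hwf : WellFounded (LexLt : Perm (Fin n) → Perm (Fin n) → Prop) := by
    have : WellFounded (fun a b : Lex (Fin n → Fin n) => a < b) := wellFounded_lt
    exact InvImage.wf (fun σ : Perm (Fin n) => toLex (σ : Fin n → Fin n)) this
  induction σ using hwf.induction with
  | h σ ih =>
    by_cases hσ : TAvoids t g σ
    · refine ⟨Pi.single σ 1, ?_, by simp⟩
      intro τ hτ
      have : τ = σ := by
        by_contra hc
        exact hτ (Pi.single_eq_of_ne hc 1)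
      rw [this]; exact ⟨hT, hσ⟩
    · unfold TAvoids at hσ
      push Not at hσ
      obtain ⟨P', hP', i₀, hi₀, hc'⟩ := hσ
      obtain ⟨P, hPP, hc⟩ := Finset.exists_subset_card_eq (s := P') (n := g (t i₀) + 1) (by omega)
      have hP : DecOn σ P := hP'.1.mono hPP
      have hPj : ∀ i ∈ P, t i = t i₀ := fun i hi => hP'.2 i (hPP hi) i₀ hi₀
      have h1 : ∀ π : Perm (Fin n), ∃ b : Perm (Fin n) → ℚ, (π ∈ permsOn P → π ≠ 1 →
          (∀ τ, b τ ≠ 0 → Ty t τ ∧ TAvoids t g τ) ∧ Pi.single (σ * π) 1 - b ∈ tI t g) := by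
        intro π
        by_cases hπ : π ∈ permsOn P ∧ π ≠ 1
        · obtain ⟨b, hb1, hb2⟩ := ih (σ * π) (lexLt_of_decOn hP hπ.1 hπ.2)
            (hT.mul (ty_of_permsOn hPj hπ.1))
          exact ⟨b, fun _ _ => ⟨hb1, hb2⟩⟩
        · exact ⟨0, fun h h' => absurd ⟨h, h'⟩ hπ⟩
      choose b hb using h1
      refine ⟨-∑ π ∈ (permsOn P).erase 1, ((Perm.sign π : ℤ) : ℚ) • b π, ?_, ?_⟩
      · intro τ hτ
        by_contra hc2
        apply hτ
        rw [Pi.neg_apply, Finset.sum_apply, neg_eq_zero]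
        apply Finset.sum_eq_zero
        intro π hπ
        rw [Pi.smul_apply, smul_eq_zero]
        right
        by_contra h3
        rw [Finset.mem_erase] at hπ
        exact hc2 ((hb π hπ.2 hπ.1).1 τ h3)
      · have h2 : asym σ P ∈ tI t g :=
          Submodule.subset_span ⟨σ, P, t i₀, hT, hPj, hc, rfl⟩
        have h1mem : (1 : Perm (Fin n)) ∈ permsOn P := by rw [mem_permsOn]; intro i _; rfl
        rw [asym, ← Finset.add_sum_erase _ _ h1mem, Perm.sign_one, mul_one] at h2
        have h3 : Pi.single σ (1:ℚ) - -∑ π ∈ (permsOn P).erase 1, ((Perm.sign π : ℤ) : ℚ) • b π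
            = (((1 : ℤˣ) : ℤ) : ℚ) • Pi.single σ (1:ℚ) + ∑ π ∈ (permsOn P).erase 1,
              ((Perm.sign π : ℤ) : ℚ) • Pi.single (σ * π) (1:ℚ)
              - ∑ π ∈ (permsOn P).erase 1, ((Perm.sign π : ℤ) : ℚ) • (Pi.single (σ * π) (1:ℚ) - b π) := by
          simp only [smul_sub, Finset.sum_sub_distrib]
          simp only [Units.val_one, Int.cast_one, one_smul]
          abel
        rw [h3]
        apply Submodule.sub_mem
        · exact h2
        · apply Submodule.sum_mem
          intro π hπ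
          rw [Finset.mem_erase] at hπ
          exact Submodule.smul_mem _ _ (hb π hπ.2 hπ.1).2

/-- independence of the avoiders -/
lemma tindep (b : Perm (Fin n) → ℚ) (hb : ∀ τ, b τ ≠ 0 → Ty t τ ∧ TAvoids t g τ)
    (h : b ∈ tker t g) : b = 0 := by
  classical
  by_contra hne
  have hne' : (univ.filter fun τ => b τ ≠ 0).Nonempty := by
    by_contra hc
    rw [Finset.not_nonempty_iff_eq_empty, Finset.filter_eq_empty_iff] at hc
    apply hne
    ext τ
    have := hc (Finset.mem_univ τ)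
    push Not at this
    rw [this]; rfl
  obtain ⟨σ₀, hσ₀, hmax⟩ := Finset.exists_max_image (univ.filter fun τ => b τ ≠ 0)
    (fun τ : Perm (Fin n) => toLex (τ : Fin n → Fin n)) hne'
  simp only [Finset.mem_filter, Finset.mem_univ, true_and] at hσ₀ hmax
  obtain ⟨hT₀, hav⟩ := hb σ₀ hσ₀
  have hpos : ∀ i, 1 ≤ tcol t σ₀ i := fun i => one_le_tcol σ₀ i
  have hle : ∀ i, tcol t σ₀ i ≤ g (t i) := fun i => tcol_le hav i
  have h1 := h (fun i => tcol t σ₀ i - 1) (fun i => tcol t σ₀ (σ₀⁻¹ i) - 1)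
    (fun i => by have := hpos i; have := hle i; change tcol t σ₀ i - 1 < g (t i); omega)
    (fun i => by
      have h2 := hpos (σ₀⁻¹ i); have h3 := hle (σ₀⁻¹ i)
      rw [hT₀.inv i] at h3
      change tcol t σ₀ (σ₀⁻¹ i) - 1 < g (t i)
      omega)
  unfold tev at h1
  rw [Finset.sum_eq_single σ₀] at h1
  · simp at h1
    exact hσ₀ h1
  · intro σ _ hσ
    by_cases hbσ : b σ = 0
    · rw [hbσ, ite_self]
    by_cases hc : (fun i => tcol t σ₀ (σ₀⁻¹ (σ i)) - 1) = fun i => tcol t σ₀ i - 1
    · exfalso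
      have h3 := hmax σ hbσ
      have h4 := lexLt_of_tcol (t := t) hT₀ (hb σ hbσ).1 (fun i => by
        have h5 := congrFun hc i
        have h6 := hpos i
        have h7 := hpos (σ₀⁻¹ (σ i))
        omega) hσ
      rw [lexLt_iff] at h4
      exact absurd h4 (not_lt.2 h3)
    · rw [if_neg hc]
  · intro hc; exact absurd (Finset.mem_univ σ₀) hc

/-- the kernel of the evaluation on typed combinations is spanned by antisymmetrizers -/
lemma mem_tI (a : Perm (Fin n) → ℚ) (ha : ∀ σ, a σ ≠ 0 → Ty t σ) (hk : a ∈ tker t g) :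
    a ∈ tI t g := by
  classical
  have h0 : ∀ σ, ∃ b : Perm (Fin n) → ℚ, (a σ ≠ 0 → (∀ τ, b τ ≠ 0 → Ty t τ ∧ TAvoids t g τ) ∧
      Pi.single σ 1 - b ∈ tI t g) := by
    intro σ
    by_cases h : a σ = 0
    · exact ⟨0, fun h' => absurd h h'⟩
    · obtain ⟨b, hb⟩ := tstraighten (g := g) σ (ha σ h)
      exact ⟨b, fun _ => hb⟩
  choose b hb using h0
  have h1 : a = ∑ σ, a σ • Pi.single σ (1 : ℚ) := by
    ext τ
    rw [Finset.sum_apply, Finset.sum_eq_single τ]
    · simp
    · intro σ _ hσ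
      rw [Pi.smul_apply, Pi.single_eq_of_ne hσ.symm, smul_zero]
    · intro hc; exact absurd (Finset.mem_univ τ) hc
  have h2 : a - ∑ σ, a σ • b σ ∈ tI t g := by
    have : a - ∑ σ, a σ • b σ = ∑ σ, a σ • (Pi.single σ (1 : ℚ) - b σ) := by
      simp only [smul_sub, Finset.sum_sub_distrib]
      rw [← h1]
    rw [this]
    apply Submodule.sum_mem
    intro σ _
    by_cases h : a σ = 0
    · rw [h, zero_smul]; exact Submodule.zero_mem _
    · exact Submodule.smul_mem _ _ (hb σ h).2
  have h3 : ∑ σ, a σ • b σ = 0 := by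
    apply tindep (t := t) (g := g)
    · intro τ hτ
      by_contra hc
      apply hτ
      rw [Finset.sum_apply]
      apply Finset.sum_eq_zero
      intro σ _
      rw [Pi.smul_apply, smul_eq_zero]
      by_cases h : a σ = 0
      · left; exact h
      · right
        by_contra h4
        exact hc ((hb σ h).1 τ h4)
    · have h4 := tI_le h2
      have h5 := Submodule.sub_mem _ hk h4
      rwa [sub_sub_cancel] at h5
  rw [h3, sub_zero] at h2
  exact h2

/-- **The typed vanishing lemma**, antisymmetric form. -/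
theorem typed_anti {W : Type*} [AddCommGroup W] [Module ℚ W] (G : Perm (Fin n) → W)
    (hG : ∀ σ, Ty t σ → ∀ (P : Finset (Fin n)) (j : J), (∀ i ∈ P, t i = j) → P.card = g j + 1 →
      ∑ π ∈ permsOn P, ((Perm.sign π : ℤ) : ℚ) • G (σ * π) = 0)
    (a : Perm (Fin n) → ℚ) (ha : ∀ σ, a σ ≠ 0 → Ty t σ) (hk : a ∈ tker t g) :
    ∑ σ, a σ • G σ = 0 := by
  have h1 : tI t g ≤ LinearMap.ker (ext G) := by
    unfold tI
    rw [Submodule.span_le]
    rintro x ⟨σ, P, j, hσ, hPj, hP, rfl⟩
    rw [SetLike.mem_coe, LinearMap.mem_ker, ext_asym]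
    exact hG σ hσ P j hPj hP
  exact h1 (mem_tI a ha hk)

/-- **The typed vanishing lemma**, symmetric form. -/
theorem typed_sym {W : Type*} [AddCommGroup W] [Module ℚ W] (G : Perm (Fin n) → W)
    (hG : ∀ σ, Ty t σ → ∀ (P : Finset (Fin n)) (j : J), (∀ i ∈ P, t i = j) → P.card = g j + 1 →
      ∑ π ∈ permsOn P, G (σ * π) = 0)
    (a : Perm (Fin n) → ℚ) (ha : ∀ σ, a σ ≠ 0 → Ty t σ)
    (hk : ∀ c d : Fin n → ℕ, (∀ i, c i < g (t i)) → (∀ i, d i < g (t i)) →
      (∑ σ, if (fun i => d (σ i)) = c then ((Perm.sign σ : ℤ) : ℚ) * a σ else 0) = 0) :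
    ∑ σ, a σ • G σ = 0 := by
  have key := typed_anti (t := t) (g := g) (fun σ => ((Perm.sign σ : ℤ) : ℚ) • G σ) (by
      intro σ hσ P j hPj hP
      have h1 := hG σ hσ P j hPj hP
      have h2 : ∀ π : Perm (Fin n), ((Perm.sign π : ℤ) : ℚ) • ((Perm.sign (σ * π) : ℤ) : ℚ) • G (σ * π)
          = ((Perm.sign σ : ℤ) : ℚ) • G (σ * π) := by
        intro π
        rw [smul_smul]
        congr 1
        rw [Perm.sign_mul, Units.val_mul, Int.cast_mul, mul_left_comm]
        have : (((Perm.sign π : ℤˣ) : ℤ) : ℚ) * (((Perm.sign π : ℤˣ) : ℤ) : ℚ) = 1 := by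
          rw [← Int.cast_mul, ← Units.val_mul, Int.units_mul_self]; simp
        rw [this, mul_one]
      simp only [h2]
      rw [← Finset.smul_sum, h1, smul_zero])
    (fun σ => ((Perm.sign σ : ℤ) : ℚ) * a σ) (by
      intro σ hσ
      exact ha σ (right_ne_zero_of_mul hσ)) (by
      intro c d hc hd
      exact hk c d hc hd)
  rw [← key]
  apply Finset.sum_congr rfl
  intro σ _
  rw [smul_smul]
  congr 1
  rw [mul_right_comm]
  have : (((Perm.sign σ : ℤˣ) : ℤ) : ℚ) * (((Perm.sign σ : ℤˣ) : ℤ) : ℚ) = 1 := by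
    rw [← Int.cast_mul, ← Units.val_mul, Int.units_mul_self]; simp
  rw [this, one_mul]

end Pool.Agent.Q145.NC
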