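import Pool.Agent.Q145.NC.Quot

/-!
# The kernel of the Albanese map of quotients of products of curves
-/

set_option autoImplicit false
set_option linter.unusedSectionVars false

namespace Pool.Agent.Q145.NC

open Finset FF Pool.Agent.Q70.CH

variable {k : Type} [Field k] [CharZero k] {J : Type} {K : J → Type} [∀ j, Field (K j)]
  [∀ j, Algebra k (K j)] {N : J → Type}

/-- A zero-cycle of degree zero on `X = ∏ C_j ^ (N j)` such that all its projections to the factors
`C_j` are rationally equivalent to zero, that is, one which is in the kernel of the Albanese map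
(tensored with `ℚ`), as the Albanese variety of `X` is the product of the Jacobians. -/
def AlbTriv (z : (∀ j, N j → Place k (K j)) →₀ ℚ) : Prop :=
  (z.sum fun _ c => c) = 0 ∧ ∀ j (q : N j), z.mapDomain (fun x => x j q) ∈ ratTriv (curve (k := k) (K j))

/-- cycles in the kernel of the Albanese map are in `F^2` -/
lemma mem_fil_two [Finite (Σ j, N j)] (z : (∀ j, N j → Place k (K j)) →₀ ℚ) (hz : AlbTriv z) :
    z ∈ fil k K N 2 := by
  classical
  have : Fintype (Σ j, N j) := Fintype.ofFinite _
  by_cases hz0 : z = 0
  · rw [hz0]; exact Submodule.zero_mem _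
  obtain ⟨o, -⟩ : ∃ o, o ∈ z.support := by
    by_contra hc
    push Not at hc
    exact hz0 (Finsupp.support_eq_empty.1 (Finset.eq_empty_of_forall_notMem hc))
  have h1 : z = ∑ T ∈ (univ : Finset (Σ j, N j)).powerset,
      ((-1 : ℚ) ^ T.card) • (z.sum fun x c => c • DC T o x) := by
    have h2 : z = z.sum fun x c => c • Finsupp.single x (1 : ℚ) := by
      conv_lhs => rw [← Finsupp.sum_single z]
      apply Finsupp.sum_congr
      intro x _
      simp
    conv_lhs => rw [h2]
    unfold Finsupp.sum
    simp only [Finset.smul_sum]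
    rw [Finset.sum_comm]
    apply Finset.sum_congr rfl
    intro x _
    rw [← single_eq o x, Finset.smul_sum]
    apply Finset.sum_congr rfl
    intro T _
    rw [smul_comm]
  rw [h1]
  apply Submodule.sum_mem
  intro T _
  apply Submodule.smul_mem
  by_cases hT0 : T = ∅
  · subst hT0
    have : (z.sum fun x c => c • DC ∅ o x) = (z.sum fun _ c => c) • Finsupp.single o (1 : ℚ) := by
      unfold Finsupp.sum
      rw [Finset.sum_smul]
      apply Finset.sum_congr rfl
      intro x _
      change z x • DC ∅ o x = z x • Finsupp.single o (1 : ℚ)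
      rw [DC_empty]
    rw [this, hz.1, zero_smul]
    exact Submodule.zero_mem _
  by_cases hT1 : ∃ q, T = {q}
  · obtain ⟨q, rfl⟩ := hT1
    obtain ⟨j, m⟩ := q
    let E : Place k (K j) → ∀ j, N j → Place k (K j) := fun P j' m' =>
      if h : j' = j then (if h ▸ m' = m then h.symm ▸ P else o j' m') else o j' m'
    have hE : IsMap (curve (k := k) (K j)) (prodC K N) E := by
      intro B _ _ _ s hs j' m'
      by_cases h : j' = j
      · subst h
        by_cases h2 : m' = m
        · subst h2
          have : (fun Q => E (s Q) j' m') = s := by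
            ext1 Q
            simp only [E, dif_pos]
            exact if_pos trivial
          rw [this]
          exact hs
        · have : (fun Q => E (s Q) j' m') = fun _ => o j' m' := by
            ext1 Q
            simp [E, h2]
          rw [this]
          exact curve_const _ _ _
      · have : (fun Q => E (s Q) j' m') = fun _ => o j' m' := by
          ext1 Q
          simp [E, h]
        rw [this]
        exact curve_const _ _ _
    have hmix : ∀ x, mixd {(⟨j, m⟩ : Σ j, N j)} o x = E (x j m) := by
      intro x
      ext j' m'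
      unfold mixd
      by_cases h : j' = j
      · subst h
        by_cases h2 : m' = m
        · subst h2
          simp [E]
        · simp [E, h2]
      · have : (⟨j', m'⟩ : Σ j, N j) ≠ ⟨j, m⟩ := fun h' => h (congrArg Sigma.fst h')
        simp [E, h]
    have h3 : (z.sum fun x c => c • DC {(⟨j, m⟩ : Σ j, N j)} o x) =
        (z.sum fun _ c => c) • Finsupp.single o (1 : ℚ) -
          (z.mapDomain (fun x => x j m)).mapDomain E := by
      rw [← Finsupp.mapDomain_comp]
      unfold Finsupp.mapDomain Finsupp.sum
      rw [Finset.sum_smul, ← Finset.sum_sub_distrib]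
      apply Finset.sum_congr rfl
      intro x _
      change z x • DC {(⟨j, m⟩ : Σ j, N j)} o x = z x • Finsupp.single o (1 : ℚ) -
        Finsupp.single (E (x j m)) (z x)
      have h5 := DC_insert (Finset.notMem_empty (⟨j, m⟩ : Σ j, N j)) o x
      rw [insert_empty_eq, DC_empty, DC_empty, hmix] at h5
      rw [h5, smul_sub]
      congr 1
      rw [Finsupp.smul_single, smul_eq_mul, mul_one]
    rw [h3, hz.1, zero_smul, zero_sub]
    apply Submodule.neg_mem
    apply Submodule.mem_sup_left
    exact mapDomain_mem hE (hz.2 j m)
  · have hT : 2 ≤ T.card := by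
      have h0 : T.card ≠ 0 := fun h => hT0 (Finset.card_eq_zero.1 h)
      have h1 : T.card ≠ 1 := fun h => hT1 (Finset.card_eq_one.1 h)
      omega
    unfold Finsupp.sum
    apply Submodule.sum_mem
    intro x _
    exact Submodule.smul_mem _ _ (fil_anti hT (DC_mem T o x))

namespace NAct

variable {G : Type} [Group G] (A : NAct k K N G) [IsAlgClosed k] [∀ j, IsFF k (K j)]

/-- **Injectivity of the Albanese map for quotients of products of curves.** -/
theorem albanese {g : J → ℕ} (hg : ∀ j, IsGenus k (K j) (g j)) [Finite J] [∀ j, Finite (N j)]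
    [Fintype G]
    (hG : ∀ i, 2 ≤ i → ∀ φ : TS k g N [⋀^Fin i]→ₗ[k] k, IsForm φ →
      (∀ σ, φ.compLinearMap (linN (A.F σ).f (A.F σ).s) = φ) → φ = 0)
    (z : (∀ j, N j → Place k (K j)) →₀ ℚ) (hz : AlbTriv (∑ σ, z.mapDomain (A.F σ).map)) :
    z.mapDomain A.quo ∈ A.ratQ := by
  apply A.mem_ratQ
  have h1 := A.vanish hg 2 hG _ (mem_fil_two _ hz)
  rw [← Z_apply, ← Z_apply, Z_Z] at h1
  have hcard : (Fintype.card G : ℚ) ≠ 0 := by
    have : 0 < Fintype.card G := Fintype.card_pos
    positivity
  have h4 := Submodule.smul_mem _ ((Fintype.card G : ℚ)⁻¹) h1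
  rw [smul_smul, inv_mul_cancel₀ hcard, one_smul, Z_apply] at h4
  exact h4

end NAct

end Pool.Agent.Q145.NC
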