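import Mathlib

/-!
# An antisymmetrization lemma
-/

set_option autoImplicit false

namespace Pool.Agent.Q145.NC

open Finset Equiv

variable {k : Type*} [Field k] {T : Type*} {V : Type*} [AddCommGroup V] [Module k V] {m : ℕ}

/-- the antisymmetrization -/
def Alt (Ψ : (Fin m → T) → k) (u : Fin m → T) : k :=
  ∑ τ : Perm (Fin m), ((Perm.sign τ : ℤ) : k) * Ψ (fun b => u (τ b))

lemma Alt_eq_zero (Ψ : (Fin m → T) → k) (u : Fin m → T) {b b' : Fin m} (hbb : b ≠ b')
    (h : u b = u b') : Alt Ψ u = 0 := by
  unfold Alt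
  refine Finset.sum_involution (fun τ _ => swap b b' * τ) ?_ ?_ ?_ ?_
  · intro τ _
    have h1 : (fun c => u ((swap b b' * τ) c)) = fun c => u (τ c) := by
      ext1 c
      rw [Perm.mul_apply]
      by_cases h2 : τ c = b
      · rw [h2, swap_apply_left, h]
      · by_cases h3 : τ c = b'
        · rw [h3, swap_apply_right, h]
        · rw [swap_apply_of_ne_of_ne h2 h3]
    rw [h1, Perm.sign_mul, Perm.sign_swap hbb]
    simp
  · intro τ _ _ hτ
    have h1 := congrArg (fun f => f * τ⁻¹) hτ
    simp only [mul_inv_cancel_right, mul_inv_cancel] at h1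
    exact hbb (swap_eq_one_iff.1 h1)
  · intro τ _
    exact Finset.mem_univ _
  · intro τ _
    rw [← mul_assoc, swap_mul_self, one_mul]

/-- **Antisymmetrization lemma**: a function of `m` variables which belongs to a space of functions of
dimension less than `m` in each variable is killed by antisymmetrization. -/
theorem alt_vanish [FiniteDimensional k V] (ev : T → V →ₗ[k] k) (hm : Module.finrank k V < m)
    (Ψ : (Fin m → T) → k)
    (hΨ : ∀ u b, ∃ f : V, ∀ t, Ψ (Function.update u b t) = ev t f) (u : Fin m → T) :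
    Alt Ψ u = 0 := by
  classical
  have hdep : ¬ LinearIndependent k (fun b : Fin m => ev (u b)) := by
    intro h
    have h1 := h.fintype_card_le_finrank
    rw [Fintype.card_fin, Subspace.dual_finrank_eq] at h1
    omega
  obtain ⟨g, hg, b₀, hb₀⟩ := Fintype.not_linearIndependent_iff.1 hdep
  -- the antisymmetrization in the variable `b₀`
  obtain ⟨F, hF⟩ : ∃ F : V, ∀ t, Alt Ψ (Function.update u b₀ t) = ev t F := by
    choose f hf using fun τ : Perm (Fin m) => hΨ (fun b => u (τ b)) (τ⁻¹ b₀)
    refine ⟨∑ τ : Perm (Fin m), ((Perm.sign τ : ℤ) : k) • f τ, fun t => ?_⟩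
    rw [map_sum]
    unfold Alt
    apply Finset.sum_congr rfl
    intro τ _
    rw [map_smul, smul_eq_mul, ← hf]
    congr 2
    ext1 b
    by_cases hb : b = τ⁻¹ b₀
    · subst hb
      rw [Function.update_self]
      simp
    · rw [Function.update_of_ne hb, Function.update_of_ne]
      intro hc
      apply hb
      rw [← hc]
      simp
  have h1 : ∀ b, b ≠ b₀ → ev (u b) F = 0 := by
    intro b hb
    rw [← hF]
    refine Alt_eq_zero Ψ _ hb ?_
    rw [Function.update_self, Function.update_of_ne hb]
  have h2 : g b₀ * ev (u b₀) F = 0 := by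
    have h3 := congrArg (fun L => L F) hg
    simp only [LinearMap.zero_apply, LinearMap.sum_apply, LinearMap.smul_apply, smul_eq_mul] at h3
    rw [Finset.sum_eq_single b₀] at h3
    · exact h3
    · intro b _ hb
      rw [h1 b hb, mul_zero]
    · intro h; exact absurd (Finset.mem_univ _) h
  have h3 : Alt Ψ u = ev (u b₀) F := by
    rw [← hF, Function.update_eq_self]
  rw [h3]
  exact (mul_eq_zero.1 h2).resolve_left hb₀

end Pool.Agent.Q145.NC
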