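import Pool.Agent.Q145.NC.Filt

/-!
# Natural decompositions of the diagonal of products of curves
-/

set_option autoImplicit false
set_option linter.unusedSectionVars false

namespace Pool.Agent.Q145.NC

open Finset FF Pool.Agent.Q70.CH

/-- The abstract argument: orthogonal idempotents which act as `0` or `1` on the graded pieces. -/
theorem abs_ck {V : Type} [AddCommGroup V] [Module ℚ V] (R : Submodule ℚ V)
    (Fl : ℕ → Submodule ℚ V) (h0 : Fl 0 = ⊤) (hR : ∀ i, R ≤ Fl i) (ha : ∀ i, Fl (i + 1) ≤ Fl i)
    {d : ℕ} (hlarge : Fl (2 * d + 1) ≤ R) (e : ℕ → V →ₗ[ℚ] V) (heR : ∀ l, ∀ z ∈ R, e l z ∈ R)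
    (idem : ∀ l ≤ 2 * d, ∀ z, e l (e l z) - e l z ∈ R)
    (orth : ∀ l ≤ 2 * d, ∀ m ≤ 2 * d, l ≠ m → ∀ z, e l (e m z) ∈ R)
    (hgr : ∀ l ≤ 2 * d, ∀ i, ∀ z ∈ Fl i, e l z - (if l + i = 2 * d then z else 0) ∈ Fl (i + 1))
    (m : ℕ) :
    R ⊔ LinearMap.range (∑ l ∈ (range (2 * d + 1)).filter (fun l => l + m ≤ 2 * d), e l) = Fl m := by
  classical
  set s := (range (2 * d + 1)).filter (fun l => l + m ≤ 2 * d) with hs
  have hsl : ∀ l ∈ s, l ≤ 2 * d ∧ l + m ≤ 2 * d := by
    intro l hl
    rw [hs, Finset.mem_filter, Finset.mem_range] at hl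
    omega
  set P := ∑ l ∈ s, e l with hP
  have e2 : ∀ y, P y = ∑ l ∈ s, e l y := by
    intro y
    rw [hP, LinearMap.sum_apply]
  have hPP : ∀ z, P (P z) - P z ∈ R := by
    intro z
    have h1 : P (P z) - P z = ∑ l ∈ s, ((e l (e l z) - e l z) + ∑ m ∈ s.erase l, e l (e m z)) := by
      have e1 : P (P z) = ∑ l ∈ s, ∑ m ∈ s, e l (e m z) := by
        rw [e2]
        apply Finset.sum_congr rfl
        intro l _
        rw [e2, map_sum]
      rw [e1, e2, ← Finset.sum_sub_distrib]
      apply Finset.sum_congr rfl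
      intro l hl
      rw [← Finset.add_sum_erase s _ hl]
      abel
    rw [h1]
    apply Submodule.sum_mem
    intro l hl
    apply Submodule.add_mem
    · exact idem l (hsl l hl).1 z
    · apply Submodule.sum_mem
      intro m hm
      exact orth l (hsl l hl).1 m (hsl m (Finset.mem_of_mem_erase hm)).1
        (Finset.ne_of_mem_erase hm).symm z
  have hPg : ∀ i, ∀ z ∈ Fl i, P z - (if m ≤ i ∧ i ≤ 2 * d then z else 0) ∈ Fl (i + 1) := by
    intro i z hz
    have h1 : P z - (if m ≤ i ∧ i ≤ 2 * d then z else 0) =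
        ∑ l ∈ s, (e l z - (if l + i = 2 * d then z else 0)) := by
      rw [e2, Finset.sum_sub_distrib]
      congr 1
      split_ifs with hi
      · rw [Finset.sum_eq_single (2 * d - i)]
        · rw [if_pos (by omega)]
        · intro l _ hl
          rw [if_neg (by omega)]
        · intro hc
          exfalso
          apply hc
          rw [hs, Finset.mem_filter, Finset.mem_range]
          omega
      · symm
        apply Finset.sum_eq_zero
        intro l hl
        have := hsl l hl
        rw [if_neg (by omega)]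
    rw [h1]
    apply Submodule.sum_mem
    intro l hl
    exact hgr l (hsl l hl).1 i z hz
  have key2 : ∀ z, ∀ i ≤ m, P z ∈ Fl i := by
    intro z i
    induction i with
    | zero => intro _; rw [h0]; trivial
    | succ i ih =>
      intro hi
      have h1 := hPg i _ (ih (by omega))
      rw [if_neg (by omega), sub_zero] at h1
      have h2 := Submodule.sub_mem _ h1 (hR (i + 1) (hPP z))
      rw [sub_sub_cancel] at h2
      exact h2
  have hPR : ∀ z ∈ R, P z ∈ R := by
    intro z hz
    rw [e2]
    exact Submodule.sum_mem _ (fun l _ => heR l z hz)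
  have hanti : ∀ {i i' : ℕ}, i ≤ i' → Fl i' ≤ Fl i := fun h => (antitone_nat_of_succ_le ha) h
  apply le_antisymm
  · refine sup_le (hR m) ?_
    rintro _ ⟨z, rfl⟩
    exact key2 z m le_rfl
  · intro z hz
    have key : ∀ n, m + n ≤ 2 * d + 1 → z - P z ∈ Fl (m + n) := by
      intro n
      induction n with
      | zero => intro _; exact Submodule.sub_mem _ hz (key2 z m le_rfl)
      | succ n ih =>
        intro hn
        have h1 := hPg (m + n) _ (ih (by omega))
        rw [if_pos (by omega)] at h1
        have h2 : z - P z = -(P (z - P z) - (z - P z)) - (P (P z) - P z) := by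
          rw [map_sub]; abel
        rw [h2]
        exact Submodule.sub_mem _ (Submodule.neg_mem _ h1) (hR _ (hPP z))
    have hfin : z - P z ∈ R := by
      by_cases hm : m ≤ 2 * d + 1
      · have h1 := key (2 * d + 1 - m) (by omega)
        rw [Nat.add_sub_cancel' hm] at h1
        exact hlarge h1
      · have h1 : z ∈ R := hlarge (hanti (by omega) hz)
        exact Submodule.sub_mem _ h1 (hPR z h1)
    have h3 : z = (z - P z) + P z := by abel
    rw [h3]
    exact Submodule.add_mem_sup hfin ⟨z, rfl⟩

noncomputable section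

variable {k : Type} [Field k] [CharZero k] {J : Type} {K : J → Type} [∀ j, Field (K j)]
  [∀ j, Algebra k (K j)] {N M : J → Type}

/-- the action of a natural correspondence on zero-cycles -/
def act (Z : NMap k K N M →₀ ℚ) : ((∀ j, N j → Place k (K j)) →₀ ℚ) →ₗ[ℚ]
    ((∀ j, M j → Place k (K j)) →₀ ℚ) :=
  Z.sum fun F c => c • Finsupp.lmapDomain ℚ ℚ F.map

lemma act_apply (Z : NMap k K N M →₀ ℚ) (z : (∀ j, N j → Place k (K j)) →₀ ℚ) :
    act Z z = Z.sum fun F c => c • z.mapDomain F.map := by
  unfold act Finsupp.sum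
  simp only [LinearMap.sum_apply, LinearMap.smul_apply, Finsupp.lmapDomain_apply]

lemma act_rat (Z : NMap k K N M →₀ ℚ) {z : (∀ j, N j → Place k (K j)) →₀ ℚ}
    (hz : z ∈ ratTriv (prodC (k := k) K N)) : act Z z ∈ ratTriv (prodC (k := k) K M) := by
  rw [act_apply]
  unfold Finsupp.sum
  apply Submodule.sum_mem
  intro F _
  exact Submodule.smul_mem _ _ (mapDomain_mem F.isMap hz)

/-- the value on tangent vectors of the pull-back of the `i`-form `φ` -/
def pull (g : J → ℕ) (Z : NMap k K N M →₀ ℚ) {i : ℕ}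
    (φ : TS k g M [⋀^Fin i]→ₗ[k] k) (v : Fin i → TS k g N) : k :=
  Z.sum fun F c => (c : k) * φ (fun l => linN F.f F.s (v l))

lemma isScalar_id {F : Type} [Field F] [Algebra k F] : IsScalar k F (fun P => P) 1 := by
  refine ⟨fun B _ _ _ s hs => hs, fun P Q => ?_⟩
  have h : (Finsupp.single P (1 : ℚ) - Finsupp.single Q 1) -
      (((1 : ℤ) : ℚ)) • (Finsupp.single P (1 : ℚ) - Finsupp.single Q 1) = 0 := by
    rw [Int.cast_one, one_smul, sub_self]
  have h2 := Submodule.zero_mem (ratTriv (curve (k := k) F))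
  exact h ▸ h2

/-- the identity -/
def idN : NMap k K N N where
  f := fun _ q => q
  a := fun _ _ P => P
  s := fun _ _ => 1
  scalar := fun _ _ => isScalar_id

/-- Two maps from the zero-cycles on `X` to those on `Y` agree modulo rational equivalence. -/
def SameRat (Z Z' : ((∀ j, N j → Place k (K j)) →₀ ℚ) →ₗ[ℚ] ((∀ j, M j → Place k (K j)) →₀ ℚ)) :
    Prop :=
  ∀ z, Z z - Z' z ∈ ratTriv (prodC (k := k) K M)

/-- The correspondence `Z` acts as the scalar `c` on the holomorphic `i`-forms of `X`. -/
def ActsAs (g : J → ℕ) (Z : NMap k K N N →₀ ℚ) (i : ℕ) (c : k) : Prop :=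
  ∀ (φ : TS k g N [⋀^Fin i]→ₗ[k] k), IsForm φ →
    ∀ (p : Fin i ↪ Σ j, N j) (v : Fin i → TS k g N), (∀ l, At (p l) (v l)) →
    pull g Z φ v = c * φ v

/-- A decomposition of the diagonal of `X = ∏ C_j ^ (N j)`, `dim X = d`, into natural
correspondences `π_0, ..., π_(2 d)` which act on the zero-cycles modulo rational equivalence as
orthogonal idempotents with sum `1` and on the holomorphic `i`-forms as a Chow-Künneth decomposition:
`(π_l)^*` is the identity on `H^{i,0}(X)` if `l = 2 d - i` and zero if not. -/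
structure NatDec (g : J → ℕ) (N : J → Type) (d : ℕ) (π : ℕ → (NMap k K N N →₀ ℚ)) : Prop where
  idem : ∀ l ≤ 2 * d, SameRat (act (π l) ∘ₗ act (π l)) (act (π l))
  orth : ∀ l ≤ 2 * d, ∀ m ≤ 2 * d, l ≠ m → SameRat (act (π l) ∘ₗ act (π m)) 0
  sum : SameRat (∑ l ∈ range (2 * d + 1), act (π l)) LinearMap.id
  forms : ∀ l ≤ 2 * d, ∀ i : ℕ, ActsAs g (π l) i (if l + i = 2 * d then 1 else 0)

/-- The step `F^m CH_0(X) = (π_(2 d - m) + ... + π_0)_* CH_0(X)` of the filtration given by the
decomposition (zero-cycles are considered together with all those rationally equivalent to them). -/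
def filDec (d : ℕ) (π : ℕ → (NMap k K N N →₀ ℚ)) (m : ℕ) :
    Submodule ℚ ((∀ j, N j → Place k (K j)) →₀ ℚ) :=
  ratTriv (prodC (k := k) K N) ⊔
    LinearMap.range (∑ l ∈ (range (2 * d + 1)).filter (fun l => l + m ≤ 2 * d), act (π l))

variable [∀ j, IsFF k (K j)] [IsAlgClosed k] {g : J → ℕ}

/-- the filtration given by a natural decomposition -/
theorem NatDec.eq_fil [Finite J] [∀ j, Finite (N j)] [Fintype (Σ j, N j)]
    (hg : ∀ j, IsGenus k (K j) (g j)) {d : ℕ}
    (hd : Fintype.card (Σ j, N j) = d) {π : ℕ → (NMap k K N N →₀ ℚ)}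
    (h : NatDec g N d π) (m : ℕ) : filDec d π m = fil k K N m := by
  classical
  refine abs_ck (ratTriv (prodC (k := k) K N)) (fil k K N) fil_zero (fun i => le_sup_left)
    fil_succ_le (fil_large (i := 2 * d + 1) (by omega)).le (fun l => act (π l))
    (fun l z hz => act_rat _ hz) h.idem (fun l hl m hm hlm z => by
      have h2 := h.orth l hl m hm hlm z
      rw [LinearMap.zero_apply, sub_zero] at h2
      exact h2) ?_ m
  intro l hl i z hz
  -- the correspondence `π_l - δ`
  have h1 := main hg (i := i) (R := Option (π l).support)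
    (fun r => match r with
      | none => if l + i = 2 * d then -1 else 0
      | some r => π l r)
    (fun r => match r with
      | none => idN
      | some r => r.1) (by
    intro φ hφ p v hv
    rw [Fintype.sum_option]
    have h2 := h.forms l hl i φ hφ p v hv
    unfold pull Finsupp.sum at h2
    rw [← Finset.sum_coe_sort (π l).support
      (fun F => ((π l F : ℚ) : k) * φ (fun m => linN F.f F.s (v m)))] at h2
    have h3 : (fun m => linN (k := k) (g := g) (N := N) (idN (k := k) (K := K)).f
        (idN (k := k) (K := K)).s (v m)) = v := by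
      ext m j q c
      unfold linN idN
      simp
    simp only at h2 ⊢
    rw [h2, h3]
    split_ifs
    · push_cast; ring
    · push_cast; ring) z hz
  rw [Fintype.sum_option] at h1
  simp only at h1
  have h4 : (∑ r : (π l).support, (π l) r.1 • z.mapDomain r.1.map) = act (π l) z := by
    rw [act_apply]
    unfold Finsupp.sum
    exact Finset.sum_coe_sort (π l).support (fun F => (π l F) • z.mapDomain F.map)
  have h5 : (idN : NMap k K N N).map = id := rfl
  rw [h4, h5, Finsupp.mapDomain_id] at h1
  convert h1 using 1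
  split_ifs
  · rw [neg_one_smul]; abel
  · rw [zero_smul]; abel

end

end Pool.Agent.Q145.NC
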