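import Pool.Agent.Q145.NC.Diff

/-!
# The combinatorial core: natural maps between products
-/

set_option autoImplicit false

namespace Pool.Agent.Q145.NC

open Equiv Finset Pool.Agent.Q70.CH

section core

variable {𝔸 J ι κ : Type} [DecidableEq ι] [DecidableEq κ] [Fintype κ]
  {W : Type*} [AddCommGroup W] [Module ℚ W] {i : ℕ}

omit [DecidableEq κ] [Fintype κ] in
lemma powerset_univ_map (b : Fin i ↪ κ) : ((univ : Finset (Fin i)).map b).powerset =
    (univ : Finset (Finset (Fin i))).map ⟨Finset.map b, Finset.map_injective b⟩ := by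
  ext A
  rw [Finset.mem_powerset, Finset.subset_map_iff]
  simp only [Finset.subset_univ, true_and, Finset.mem_map, Finset.mem_univ,
    Function.Embedding.coeFn_mk]
  exact exists_congr fun B => eq_comm

omit [Fintype κ] in
lemma D_map (Φ : (κ → 𝔸) → W) (b : Fin i ↪ κ) (x y : κ → 𝔸) :
    D Φ ((univ : Finset (Fin i)).map b) x y =
      ∑ B : Finset (Fin i), ((-1 : ℚ) ^ B.card) • Φ (mix (B.map b) x y) := by
  unfold D
  have : ((univ : Finset (Fin i)).map b).powerset =
      (univ : Finset (Finset (Fin i))).map ⟨Finset.map b, Finset.map_injective b⟩ := by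
    ext A
    rw [Finset.mem_powerset, Finset.subset_map_iff]
    simp only [Finset.subset_univ, true_and, Finset.mem_map, Finset.mem_univ,
      Function.Embedding.coeFn_mk]
    exact exists_congr fun B => eq_comm
  rw [this, Finset.sum_map]
  apply Finset.sum_congr rfl
  intro B _
  simp only [Function.Embedding.coeFn_mk, Finset.card_map]

/-- the function of the variables at the positions `b` -/
noncomputable def Psi (Φ : (κ → 𝔸) → W) (o : κ → 𝔸) (b : Fin i ↪ κ) (w : Fin i → 𝔸) : W :=
  Φ (Function.extend b w o)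

/-- the component of `Φ` at the positions `b` -/
noncomputable def Th (Φ : (κ → 𝔸) → W) (o : κ → 𝔸) (b : Fin i ↪ κ) (w : Fin i → 𝔸) : W :=
  D (Psi Φ o b) univ w (fun l => o (b l))

omit [Fintype κ] in
lemma mix_map_extend (o y : κ → 𝔸) (b : Fin i ↪ κ) (B : Finset (Fin i)) :
    mix (B.map b) o y = Function.extend b (mix B (fun l => o (b l)) (fun l => y (b l))) o := by
  ext q
  by_cases hq : ∃ l, b l = q
  · obtain ⟨l, rfl⟩ := hq
    rw [b.injective.extend_apply]
    by_cases hl : l ∈ B
    · rw [mix_mem hl, mix_mem (Finset.mem_map_of_mem b hl)]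
    · rw [mix_notMem hl, mix_notMem (by
        intro h
        obtain ⟨l', hl', h'⟩ := Finset.mem_map.1 h
        exact hl (b.injective h' ▸ hl'))]
  · rw [Function.extend_apply' _ _ _ hq, mix_notMem (by
      intro h
      obtain ⟨l', hl', h'⟩ := Finset.mem_map.1 h
      exact hq ⟨l', h'⟩)]

omit [Fintype κ] in
/-- the components are the functions `Th` -/
lemma comp_eq (Φ : (κ → 𝔸) → W) (o : κ → 𝔸) (b : Fin i ↪ κ) (y : κ → 𝔸) :
    ((-1 : ℚ) ^ ((univ : Finset (Fin i)).map b).card) • D Φ (univ.map b) o y =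
      Th Φ o b (fun l => y (b l)) := by
  have h := D_swap (Psi Φ o b) (fun l => o (b l)) (fun l => y (b l))
  unfold Th
  rw [← h, Finset.card_map, D_map]
  congr 1
  unfold D
  rw [Finset.powerset_univ]
  apply Finset.sum_congr rfl
  intro B _
  rw [mix_map_extend]
  rfl

lemma mix_perm {P A : Finset (Fin i)} {π : Perm (Fin i)} (hπ : π ∈ permsOn P) (hA : Disjoint A P)
    (w o : Fin i → 𝔸) : mix A (fun l => w (π l)) o = fun l => mix A w o (π l) := by
  ext l
  by_cases hl : l ∈ P
  · have h1 : l ∉ A := fun h => (Finset.disjoint_left.1 hA h) hl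
    have h2 : π l ∉ A := fun h => (Finset.disjoint_left.1 hA h) (permsOn_map hπ hl)
    rw [mix_notMem h1, mix_notMem h2]
  · rw [mem_permsOn.1 hπ l hl]
    by_cases h : l ∈ A
    · rw [mix_mem h, mix_mem h]
    · rw [mix_notMem h, mix_notMem h, mem_permsOn.1 hπ l hl]

omit [DecidableEq κ] [Fintype κ] in
/-- the component satisfies the symmetrizer relation -/
lemma Th_sym (Φ : (κ → 𝔸) → W) (o : κ → 𝔸) (b : Fin i ↪ κ) (Tp : Fin i → 𝔸 → Prop)
    (ho : ∀ l, Tp l (o (b l))) (P : Finset (Fin i))
    (hA2 : ∀ w : Fin i → 𝔸, (∀ l, Tp l (w l)) →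
      ∑ π ∈ permsOn P, D (Psi Φ o b) P (fun l => w (π l)) (fun l => o (b l)) = 0)
    (w : Fin i → 𝔸) (hw : ∀ l, Tp l (w l)) :
    ∑ π ∈ permsOn P, Th Φ o b (fun l => w (π l)) = 0 := by
  have h1 : ∀ π ∈ permsOn P, Th Φ o b (fun l => w (π l)) =
      ∑ A ∈ (Pᶜ).powerset, ((-1 : ℚ) ^ A.card) •
        D (Psi Φ o b) P (fun l => mix A w (fun l => o (b l)) (π l)) (fun l => o (b l)) := by
    intro π hπ
    unfold Th
    have h2 : (univ : Finset (Fin i)) = Pᶜ ∪ P := by
      rw [Finset.union_comm, Finset.union_compl]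
    rw [h2, D_union _ _ _ (by exact disjoint_compl_left)]
    apply Finset.sum_congr rfl
    intro A hA
    rw [mix_perm hπ (Finset.disjoint_of_subset_left (Finset.mem_powerset.1 hA)
      disjoint_compl_left)]
  rw [Finset.sum_congr rfl h1, Finset.sum_comm]
  apply Finset.sum_eq_zero
  intro A _
  rw [← Finset.smul_sum, hA2 (mix A w fun l => o (b l)) (by
    intro l
    unfold mix
    split_ifs
    · exact ho l
    · exact hw l), smul_zero]

omit [Fintype κ] in
lemma extend_update (b : Fin i ↪ κ) (z : Fin i → 𝔸) (o : κ → 𝔸) (l : Fin i) (c : 𝔸) :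
    Function.extend b (Function.update z l c) o =
      Function.update (Function.extend b z o) (b l) c := by
  ext q
  by_cases hq : ∃ l', b l' = q
  · obtain ⟨l', rfl⟩ := hq
    rw [b.injective.extend_apply]
    by_cases h : l' = l
    · subst h; simp
    · rw [Function.update_of_ne h, Function.update_of_ne (fun h' => h (b.injective h')),
        b.injective.extend_apply]
  · rw [Function.extend_apply' _ _ _ hq, Function.update_of_ne (fun h => hq ⟨l, h.symm⟩),
      Function.extend_apply' _ _ _ hq]

omit [Fintype κ] in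
/-- the component transforms well under scalar maps -/
lemma Th_scalar (Φ : (κ → 𝔸) → W) (o : κ → 𝔸) (b : Fin i ↪ κ) (Ty' : κ → 𝔸 → Prop)
    (ho : ∀ q, Ty' q (o q)) (α : κ → 𝔸 → 𝔸) (s : κ → ℚ)
    (hA3 : ∀ (y : κ → 𝔸) (q : κ) (u v : 𝔸), (∀ m, Ty' m (y m)) → Ty' q u → Ty' q v →
      Φ (Function.update y q (α q u)) - Φ (Function.update y q (α q v)) =
        s q • (Φ (Function.update y q u) - Φ (Function.update y q v)))
    (w : Fin i → 𝔸) (l : Fin i) (u v : 𝔸) (hw : ∀ m, Ty' (b m) (w m)) (hu : Ty' (b l) u)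
    (hv : Ty' (b l) v) :
    Th Φ o b (Function.update w l (α (b l) u)) - Th Φ o b (Function.update w l (α (b l) v)) =
      s (b l) • (Th Φ o b (Function.update w l u) - Th Φ o b (Function.update w l v)) := by
  unfold Th D
  rw [← Finset.sum_sub_distrib, ← Finset.sum_sub_distrib, Finset.smul_sum]
  apply Finset.sum_congr rfl
  intro B _
  rw [← smul_sub, ← smul_sub, smul_comm]
  congr 1
  by_cases hl : l ∈ B
  · have h1 : ∀ c, mix B (Function.update w l c) (fun l => o (b l)) = mix B w fun l => o (b l) := by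
      intro c
      ext m
      by_cases hm : m ∈ B
      · rw [mix_mem hm, mix_mem hm]
      · rw [mix_notMem hm, mix_notMem hm, Function.update_of_ne (by rintro rfl; exact hm hl)]
    simp only [h1, sub_self, smul_zero]
  · have h1 : ∀ c, mix B (Function.update w l c) (fun l => o (b l)) =
        Function.update (mix B w fun l => o (b l)) l c := by
      intro c
      ext m
      by_cases h : m = l
      · subst h
        rw [mix_notMem hl, Function.update_self, Function.update_self]
      · rw [Function.update_of_ne h]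
        unfold mix
        split_ifs
        · rfl
        · rw [Function.update_of_ne h]
    simp only [h1, Psi, extend_update]
    refine hA3 _ _ _ _ ?_ hu hv
    intro q
    by_cases hq : ∃ l', b l' = q
    · obtain ⟨l', rfl⟩ := hq
      rw [b.injective.extend_apply]
      unfold mix
      split_ifs
      · exact ho _
      · exact hw _
    · rw [Function.extend_apply' _ _ _ hq]
      exact ho q

/-- the map of products given by `f` and `α` -/
def nat (f : κ → ι) (α : κ → 𝔸 → 𝔸) (x : ι → 𝔸) : κ → 𝔸 := fun q => α q (x (f q))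

/-- the coefficient of the permutation `σ` in the action of the natural map on the component `b` -/
def cf (f : κ → ι) (s : κ → ℤ) (p : Fin i ↪ ι) (b : Fin i ↪ κ) (σ : Perm (Fin i)) : ℚ :=
  ∏ l, if f (b l) = p (σ l) then (s (b l) : ℚ) else 0

omit [Fintype κ] in
lemma D_larger (Φ : (κ → 𝔸) → W) (Ty' : κ → 𝔸 → Prop) (m : ℕ)
    (h : ∀ (S : Finset κ) (x y : κ → 𝔸), S.card = m → (∀ q, Ty' q (x q)) → (∀ q, Ty' q (y q)) →
      D Φ S x y = 0) (S : Finset κ) (x y : κ → 𝔸) (hS : m ≤ S.card) (hx : ∀ q, Ty' q (x q))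
    (hy : ∀ q, Ty' q (y q)) : D Φ S x y = 0 := by
  induction hk : S.card - m generalizing S x with
  | zero => exact h S x y (by omega) hx hy
  | succ k ih =>
    have hne : S.Nonempty := Finset.card_pos.1 (by omega)
    obtain ⟨a, ha⟩ := hne
    have hc := Finset.card_erase_of_mem ha
    rw [← Finset.insert_erase ha, D_insert Φ (Finset.notMem_erase a S),
      ih (S.erase a) x (by omega) hx (by omega),
      ih (S.erase a) (Function.update x a (y a)) (by omega) (by
        intro q
        by_cases h : q = a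
        · subst h; rw [Function.update_self]; exact hy q
        · rw [Function.update_of_ne h]; exact hx q) (by omega), sub_self]

omit [DecidableEq κ] [Fintype κ] in
lemma D_finset_sum {β : Type*} [DecidableEq κ] (s : Finset β) (c : β → ℚ) (Φ : β → (κ → 𝔸) → W)
    (S : Finset κ) (x y : κ → 𝔸) :
    D (fun z => ∑ T ∈ s, c T • Φ T z) S x y = ∑ T ∈ s, c T • D (Φ T) S x y := by
  unfold D
  simp only [Finset.smul_sum]
  rw [Finset.sum_comm]
  apply Finset.sum_congr rfl
  intro T _
  apply Finset.sum_congr rfl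
  intro B _
  rw [smul_comm]

/-- The contribution of one natural map `nat f α` and of the positions `b` -/
lemma one_term (Φ : (κ → 𝔸) → W) (o : κ → 𝔸) (Ty' : κ → 𝔸 → Prop) (TX : ι → 𝔸 → Prop)
    (ho : ∀ q, Ty' q (o q)) (f : κ → ι) (α : κ → 𝔸 → 𝔸) (s : κ → ℤ)
    (hα : ∀ q a, Ty' q a → Ty' q (α q a)) (hf : ∀ q a, TX (f q) a ↔ Ty' q a)
    (hA3 : ∀ (y : κ → 𝔸) (q : κ) (u v : 𝔸), (∀ m, Ty' m (y m)) → Ty' q u → Ty' q v →
      Φ (Function.update y q (α q u)) - Φ (Function.update y q (α q v)) =
        (s q : ℚ) • (Φ (Function.update y q u) - Φ (Function.update y q v)))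
    (p : Fin i ↪ ι) (b : Fin i ↪ κ) (x y : ι → 𝔸) (hx : ∀ q, TX q (x q)) (hy : ∀ q, TX q (y q)) :
    D (fun z => Th Φ o b (fun l => nat f α z (b l))) (univ.map p) x y =
      ∑ σ : Perm (Fin i), cf f s p b σ •
        D (Th Φ o b) univ (fun l => x (p (σ l))) (fun l => y (p (σ l))) := by
  classical
  by_cases hex : ∃ σ : Perm (Fin i), ∀ l, f (b l) = p (σ l)
  · obtain ⟨σ, hσ⟩ := hex
    rw [Finset.sum_eq_single σ]
    · have h1 : cf f s p b σ = ∏ l, (s (b l) : ℚ) := by
        unfold cf
        apply Finset.prod_congr rfl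
        intro l _
        rw [if_pos (hσ l)]
      rw [h1]
      have hTb : ∀ l a, TX (p (σ l)) a ↔ Ty' (b l) a := fun l a => by rw [← hσ l]; exact hf _ _
      have h2 := D_scalar (Th Φ o b) (fun l => Ty' (b l)) (fun l => α (b l)) (fun l => (s (b l) : ℚ))
        (fun l a h => hα _ _ h) (fun w l u v hw hu hv => Th_scalar Φ o b Ty' ho α
          (fun q => (s q : ℚ)) hA3 w l u v hw hu hv)
        (fun l => x (p (σ l))) (fun l => y (p (σ l)))
        (fun l => (hTb l _).1 (hx _)) (fun l => (hTb l _).1 (hy _))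
      rw [← h2]
      have h3 : (univ : Finset (Fin i)).map p = univ.map (σ.toEmbedding.trans p) := by
        rw [← Finset.map_map, Finset.map_univ_equiv]
      rw [h3, D_map]
      unfold D
      rw [Finset.powerset_univ]
      apply Finset.sum_congr rfl
      intro B _
      congr 2
      ext l
      unfold nat
      rw [hσ l]
      by_cases hl : l ∈ B
      · rw [mix_mem hl, mix_mem]
        rw [Finset.mem_map]
        exact ⟨l, hl, rfl⟩
      · rw [mix_notMem hl, mix_notMem]
        intro h
        obtain ⟨l', hl', h'⟩ := Finset.mem_map.1 h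
        have : l' = l := (σ.toEmbedding.trans p).injective h'
        exact hl (this ▸ hl')
    · intro τ _ hτ
      have : ∃ l, f (b l) ≠ p (τ l) := by
        by_contra hc
        push Not at hc
        apply hτ
        ext l
        have h1 := hc l
        rw [hσ l] at h1
        exact congrArg Fin.val (p.injective h1).symm
      obtain ⟨l, hl⟩ := this
      unfold cf
      rw [Finset.prod_eq_zero (Finset.mem_univ l) (if_neg hl), zero_smul]
    · intro h; exact absurd (Finset.mem_univ σ) h
  · rw [Finset.sum_eq_zero]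
    · -- some position of `p` is not in the image
      have : ∃ m, ∀ l, f (b l) ≠ p m := by
        by_contra hc
        push Not at hc
        choose τ hτ using hc
        have hinj : Function.Injective τ := by
          intro m m' h
          have h1 := hτ m
          rw [h, hτ m'] at h1
          exact (p.injective h1).symm
        have hbij : Function.Bijective τ := Finite.injective_iff_bijective.1 hinj
        apply hex
        refine ⟨(Equiv.ofBijective τ hbij).symm, fun l => ?_⟩
        have h2 := hτ ((Equiv.ofBijective τ hbij).symm l)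
        have h3 : τ ((Equiv.ofBijective τ hbij).symm l) = l :=
          (Equiv.ofBijective τ hbij).apply_symm_apply l
        rw [h3] at h2
        exact h2
      obtain ⟨m, hm⟩ := this
      refine D_indep _ (a := p m) (Finset.mem_map_of_mem p (Finset.mem_univ m)) x y ?_
      intro B
      congr 1
      ext l
      unfold nat
      rw [Function.update_of_ne (hm l), Function.update_of_ne (hm l)]
    · intro σ _
      have : ∃ l, f (b l) ≠ p (σ l) := by
        by_contra hc
        push Not at hc
        exact hex ⟨σ, hc⟩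
      obtain ⟨l, hl⟩ := this
      unfold cf
      rw [Finset.prod_eq_zero (Finset.mem_univ l) (if_neg hl), zero_smul]

/-- **The combinatorial core.** -/
theorem core {R : Type} [Fintype R] [Fintype ι] (Φ : (κ → 𝔸) → W) (o : κ → 𝔸) (ty : 𝔸 → J)
    (tX : ι → J) (tY : κ → J) (g : J → ℕ) (ho : ∀ q, ty (o q) = tY q)
    (c : R → ℚ) (f : R → κ → ι) (α : R → κ → 𝔸 → 𝔸) (s : R → κ → ℤ)
    (hα : ∀ r q a, ty a = tY q → ty (α r q a) = tY q) (hf : ∀ r q, tX (f r q) = tY q)
    (hA1 : ∀ (S : Finset κ) (x y : κ → 𝔸), S.card = i + 1 → (∀ q, ty (x q) = tY q) →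
      (∀ q, ty (y q) = tY q) → D Φ S x y = 0)
    (hA2 : ∀ (b : Fin i ↪ κ) (P : Finset (Fin i)) (j : J), (∀ l ∈ P, tY (b l) = j) →
      P.card = g j + 1 → ∀ w : Fin i → 𝔸, (∀ l, ty (w l) = tY (b l)) →
      ∑ π ∈ permsOn P, D (Psi Φ o b) P (fun l => w (π l)) (fun l => o (b l)) = 0)
    (hA3 : ∀ r (y : κ → 𝔸) (q : κ) (u v : 𝔸), (∀ m, ty (y m) = tY m) → ty u = tY q → ty v = tY q →
      Φ (Function.update y q (α r q u)) - Φ (Function.update y q (α r q v)) =
        (s r q : ℚ) • (Φ (Function.update y q u) - Φ (Function.update y q v)))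
    (p : Fin i ↪ ι) (x y : ι → 𝔸) (hx : ∀ q, ty (x q) = tX q) (hy : ∀ q, ty (y q) = tX q)
    (hH : ∀ b : Fin i ↪ κ, (∀ l, tY (b l) = tX (p l)) → ∀ c' d : Fin i → ℕ,
      (∀ l, c' l < g (tX (p l))) → (∀ l, d l < g (tX (p l))) →
      (∑ σ : Perm (Fin i), if (fun l => d (σ l)) = c' then
        ((Perm.sign σ : ℤ) : ℚ) * ∑ r, c r * cf (f r) (s r) p b σ else 0) = 0) :
    ∑ r, c r • D (fun z => Φ (nat (f r) (α r) z)) (univ.map p) x y = 0 := by
  classical
  -- decompose into components
  have h1 : ∀ r, D (fun z => Φ (nat (f r) (α r) z)) (univ.map p) x y =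
      ∑ T ∈ (univ : Finset κ).powerset, ((-1 : ℚ) ^ T.card) •
        D (fun z => D Φ T o (nat (f r) (α r) z)) (univ.map p) x y := by
    intro r
    rw [← D_finset_sum]
    congr 1
    ext z
    exact (sum_comp Φ o (nat (f r) (α r) z)).symm
  have hnty : ∀ r (z : ι → 𝔸), (∀ q, ty (z q) = tX q) → ∀ q, ty (nat (f r) (α r) z q) = tY q := by
    intro r z hz q
    exact hα r q _ (by rw [hz, hf])
  have hmty : ∀ B, ∀ q, ty (mix B x y q) = tX q := by
    intro B q
    unfold mix
    split_ifs
    · exact hy q
    · exact hx q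
  simp only [h1, Finset.smul_sum]
  rw [Finset.sum_comm]
  apply Finset.sum_eq_zero
  intro T _
  -- large components vanish
  by_cases hbig : i + 1 ≤ T.card
  · apply Finset.sum_eq_zero
    intro r _
    have : D (fun z => D Φ T o (nat (f r) (α r) z)) (univ.map p) x y = 0 := by
      unfold D
      apply Finset.sum_eq_zero
      intro B _
      have h2 := D_larger Φ (fun q a => ty a = tY q) (i + 1) hA1 T o
        (nat (f r) (α r) (mix B x y)) hbig ho (hnty r _ (hmty B))
      change ((-1 : ℚ) ^ B.card) • D Φ T o (nat (f r) (α r) (mix B x y)) = 0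
      rw [h2, smul_zero]
    rw [this, smul_zero, smul_zero]
  -- components to which the positions `p` do not contribute
  by_cases hex : ∃ r, ∀ m, ∃ q ∈ T, f r q = p m
  swap
  · push Not at hex
    apply Finset.sum_eq_zero
    intro r _
    obtain ⟨m, hm⟩ := hex r
    have : D (fun z => D Φ T o (nat (f r) (α r) z)) (univ.map p) x y = 0 := by
      refine D_indep _ (a := p m) (Finset.mem_map_of_mem p (Finset.mem_univ m)) x y ?_
      intro B
      unfold D
      apply Finset.sum_congr rfl
      intro A hA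
      congr 2
      ext q
      by_cases hq : q ∈ A
      · rw [mix_mem hq, mix_mem hq]
        unfold nat
        have := hm q (Finset.mem_powerset.1 hA hq)
        rw [Function.update_of_ne this, Function.update_of_ne this]
      · rw [mix_notMem hq, mix_notMem hq]
    rw [this, smul_zero, smul_zero]
  obtain ⟨r₀, hr₀⟩ := hex
  choose b₀ hb₀T hb₀ using hr₀
  have hb₀inj : Function.Injective b₀ := by
    intro m m' h
    have h2 := hb₀ m
    rw [h, hb₀ m'] at h2
    exact (p.injective h2).symm
  let b : Fin i ↪ κ := ⟨b₀, hb₀inj⟩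
  have hbT : (univ : Finset (Fin i)).map b = T := by
    apply Finset.eq_of_subset_of_card_le
    · intro q hq
      obtain ⟨l, -, rfl⟩ := Finset.mem_map.1 hq
      exact hb₀T l
    · rw [Finset.card_map, Finset.card_univ, Fintype.card_fin]
      omega
  have htb : ∀ l, tY (b l) = tX (p l) := by
    intro l
    rw [← hf r₀ (b l)]
    exact congrArg tX (hb₀ l)
  have h3 : ∀ r, ((-1 : ℚ) ^ T.card) •
      D (fun z => D Φ T o (nat (f r) (α r) z)) (univ.map p) x y =
      ∑ σ : Perm (Fin i), cf (f r) (s r) p b σ •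
        D (Th Φ o b) univ (fun l => x (p (σ l))) (fun l => y (p (σ l))) := by
    intro r
    rw [← one_term Φ o (fun q a => ty a = tY q) (fun q a => ty a = tX q) ho (f r) (α r) (s r)
      (hα r) (fun q a => by rw [hf r q]) (hA3 r) p b x y hx hy]
    have h6 : (fun z : ι → 𝔸 => Th Φ o b (fun l => nat (f r) (α r) z (b l))) =
        fun z => ((-1 : ℚ) ^ T.card) • D Φ T o (nat (f r) (α r) z) := by
      ext z
      rw [← comp_eq Φ o b, hbT]
    rw [h6]
    conv_rhs => unfold D
    conv_lhs => unfold D
    rw [Finset.smul_sum]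
    apply Finset.sum_congr rfl
    intro B _
    rw [smul_comm]
  have h4 : ∑ r, c r • (((-1 : ℚ) ^ T.card) •
      D (fun z => D Φ T o (nat (f r) (α r) z)) (univ.map p) x y) =
      ∑ σ : Perm (Fin i), (∑ r, c r * cf (f r) (s r) p b σ) •
        D (Th Φ o b) univ (fun l => x (p (σ l))) (fun l => y (p (σ l))) := by
    simp only [h3, Finset.smul_sum, Finset.sum_smul, smul_smul]
    rw [Finset.sum_comm]
  rw [h4]
  refine typed_sym (t := fun l => tX (p l)) (g := g)
    (fun σ => D (Th Φ o b) univ (fun l => x (p (σ l))) (fun l => y (p (σ l)))) ?_ _ ?_ ?_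
  · intro σ hσ P j hPj hP
    -- the symmetrizer relation
    have h5 : ∀ π : Perm (Fin i), D (Th Φ o b) univ (fun l => x (p ((σ * π) l)))
        (fun l => y (p ((σ * π) l))) = ∑ B : Finset (Fin i), ((-1 : ℚ) ^ B.card) •
          Th Φ o b (fun l => mix B (fun l => x (p (σ l))) (fun l => y (p (σ l))) (π l)) := by
      intro π
      unfold D
      rw [Finset.powerset_univ]
      refine Fintype.sum_equiv π.finsetCongr _ _ ?_
      intro B
      rw [Equiv.finsetCongr_apply, Finset.card_map]
      congr 2
      ext l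
      by_cases hl : l ∈ B
      · rw [mix_mem hl, mix_mem (by
          rw [Finset.mem_map_equiv]; simpa using hl)]
        rfl
      · rw [mix_notMem hl, mix_notMem (by
          rw [Finset.mem_map_equiv]; simpa using hl)]
        rfl
    simp only [h5]
    rw [Finset.sum_comm]
    apply Finset.sum_eq_zero
    intro B _
    rw [← Finset.smul_sum, Th_sym Φ o b (fun l a => ty a = tY (b l)) (fun l => ho _) P
      (hA2 b P j (fun l hl => by rw [htb l]; exact hPj l hl) hP), smul_zero]
    intro l
    unfold mix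
    split_ifs
    · rw [hy, htb]; exact hσ l
    · rw [hx, htb]; exact hσ l
  · intro σ hσ l
    by_contra hc
    apply hσ
    apply Finset.sum_eq_zero
    intro r _
    unfold cf
    rw [Finset.prod_eq_zero (Finset.mem_univ l), mul_zero]
    rw [if_neg]
    intro h
    apply hc
    change tX (p (σ l)) = tX (p l)
    rw [← h, hf, htb]
  · intro c' d hc' hd
    exact hH b htb c' d hc' hd

end core

end Pool.Agent.Q145.NC
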