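import Pool.Agent.Q145.NC.Quot

/-!
# Exterior products of zero-cycles
-/

set_option autoImplicit false
set_option linter.unusedSectionVars false

namespace Pool.Agent.Q145.NC

open Finset FF Pool.Agent.Q70.CH

section cross

variable {X Y : Type} {n : ℕ}

lemma cross_map (a : Fin n → X →₀ ℚ) (g : Fin n → X → Y) :
    (cross a).mapDomain (fun v i => g i (v i)) = cross (fun i => (a i).mapDomain (g i)) := by
  classical
  ext w
  rw [cross_apply]
  have h1 : ∀ i, (a i).mapDomain (g i) (w i) =
      ∑ p ∈ (a i).support, if g i p = w i then a i p else 0 := by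
    intro i
    unfold Finsupp.mapDomain Finsupp.sum
    rw [Finsupp.finsetSum_apply]
    apply Finset.sum_congr rfl
    intro p _
    rw [Finsupp.single_apply]
  simp only [h1]
  rw [Finset.prod_univ_sum]
  unfold cross
  rw [Finsupp.mapDomain_finsetSum, Finsupp.finsetSum_apply]
  refine Finset.sum_congr (by congr!) ?_
  intro v _
  rw [Finsupp.mapDomain_single, Finsupp.single_apply]
  by_cases h : ∀ i, g i (v i) = w i
  · rw [if_pos (by ext i; exact h i)]
    apply Finset.prod_congr rfl
    intro i _
    rw [if_pos (h i)]
  · push Not at h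
    obtain ⟨i, hi⟩ := h
    rw [if_neg (fun hc => hi (congrFun hc i)), Finset.prod_eq_zero (Finset.mem_univ i)]
    exact if_neg hi

lemma cross_sum {G : Type} [Fintype G] (z : Fin n → G → X →₀ ℚ) :
    cross (fun i => ∑ σ, z i σ) = ∑ γ : Fin n → G, cross (fun i => z i (γ i)) := by
  classical
  ext w
  rw [cross_apply, Finsupp.finsetSum_apply]
  simp only [cross_apply, Finsupp.finsetSum_apply]
  rw [Finset.prod_univ_sum]
  apply Finset.sum_congr
  · ext γ; simp
  · intro γ _; rfl

/-- the exterior product as a function of one factor -/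
noncomputable def crossL (a : Fin n → X →₀ ℚ) (b : Fin n) :
    (X →₀ ℚ) →ₗ[ℚ] ((Fin n → X) →₀ ℚ) where
  toFun w := cross (Function.update a b w)
  map_add' w w' := by
    ext v
    rw [Finsupp.add_apply, cross_apply, cross_apply, cross_apply]
    rw [← Finset.mul_prod_erase _ _ (Finset.mem_univ b), ← Finset.mul_prod_erase _ _ (Finset.mem_univ b),
      ← Finset.mul_prod_erase _ _ (Finset.mem_univ b)]
    have h : ∀ w : X →₀ ℚ, ∏ i ∈ (univ : Finset (Fin n)).erase b, Function.update a b w i (v i) =
        ∏ i ∈ (univ : Finset (Fin n)).erase b, a i (v i) := by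
      intro w
      apply Finset.prod_congr rfl
      intro i hi
      rw [Function.update_of_ne (Finset.ne_of_mem_erase hi)]
    rw [h, h, h, Function.update_self, Function.update_self, Function.update_self,
      Finsupp.add_apply, add_mul]
  map_smul' c w := by
    ext v
    rw [Finsupp.smul_apply, cross_apply, cross_apply]
    rw [← Finset.mul_prod_erase _ _ (Finset.mem_univ b), ← Finset.mul_prod_erase _ _ (Finset.mem_univ b)]
    have h : ∀ w : X →₀ ℚ, ∏ i ∈ (univ : Finset (Fin n)).erase b, Function.update a b w i (v i) =
        ∏ i ∈ (univ : Finset (Fin n)).erase b, a i (v i) := by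
      intro w
      apply Finset.prod_congr rfl
      intro i hi
      rw [Function.update_of_ne (Finset.ne_of_mem_erase hi)]
    rw [h, h, Function.update_self, Function.update_self, Finsupp.smul_apply, smul_eq_mul,
      smul_eq_mul, mul_assoc, RingHom.id_apply]

lemma crossL_apply (a : Fin n → X →₀ ℚ) (b : Fin n) (w : X →₀ ℚ) :
    crossL a b w = cross (Function.update a b w) := rfl

lemma cross_single (x : Fin n → X) : cross (fun i => Finsupp.single (x i) (1 : ℚ)) =
    Finsupp.single x 1 := by
  classical
  ext w
  rw [cross_apply, Finsupp.single_apply]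
  by_cases h : x = w
  · subst h
    rw [if_pos rfl]
    apply Finset.prod_eq_one
    intro i _
    rw [Finsupp.single_eq_same]
  · rw [if_neg h]
    obtain ⟨i, hi⟩ : ∃ i, x i ≠ w i := by
      by_contra hc
      push Not at hc
      exact h (funext hc)
    apply Finset.prod_eq_zero (Finset.mem_univ i)
    rw [Finsupp.single_apply, if_neg hi]

end cross

variable {k : Type} [Field k] [CharZero k] {J : Type} {K : J → Type} [∀ j, Field (K j)]
  [∀ j, Algebra k (K j)] {N : J → Type}

/-- The index sets of the power `X^m`. -/
abbrev NP (N : J → Type) (m : ℕ) : J → Type := fun j => N j × Fin m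

/-- `m` points of `X` as a point of `X^m` -/
def unc {m : ℕ} (v : Fin m → ∀ j, N j → Place k (K j)) : ∀ j, NP N m j → Place k (K j) :=
  fun j q => v q.2 j q.1

/-- a cycle in one slot -/
lemma unc_update_isMap {m : ℕ} (v : Fin m → ∀ j, N j → Place k (K j)) (b : Fin m) :
    IsMap (prodC (k := k) K N) (prodC K (NP N m)) (fun p => unc (Function.update v b p)) := by
  intro B _ _ _ s hs j q
  by_cases h : q.2 = b
  · have : (fun Q => unc (Function.update v b (s Q)) j q) = fun Q => s Q j q.1 := by
      ext1 Q
      unfold unc
      rw [h, Function.update_self]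
    rw [this]
    exact hs j q.1
  · have : (fun Q => unc (Function.update v b (s Q)) j q) = fun _ => v q.2 j q.1 := by
      ext1 Q
      unfold unc
      rw [Function.update_of_ne h]
    rw [this]
    exact curve_const _ _ _

lemma crossL_ratTriv {m : ℕ} (a : Fin m → (∀ j, N j → Place k (K j)) →₀ ℚ) (b : Fin m)
    {w : (∀ j, N j → Place k (K j)) →₀ ℚ} (hw : w ∈ ratTriv (prodC (k := k) K N)) :
    (crossL a b w).mapDomain unc ∈ ratTriv (prodC (k := k) K (NP N m)) := by
  rw [crossL_apply]
  obtain ⟨s, c, h⟩ := cross_slot (Function.update a b w) b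
  rw [h, Finsupp.mapDomain_finsetSum]
  apply Submodule.sum_mem
  intro q _
  rw [Finsupp.mapDomain_smul, ← Finsupp.mapDomain_comp, Function.update_self]
  apply Submodule.smul_mem
  exact mapDomain_mem (unc_update_isMap q b) hw

open Classical in
/-- replacing one coordinate -/
noncomputable def rpC (q : Σ j, N j) (x u : ∀ j, N j → Place k (K j)) : ∀ j, N j → Place k (K j) :=
  fun j m => if (⟨j, m⟩ : Σ j, N j) = q then x j m else u j m

lemma rpC_pos {q : Σ j, N j} (x u : ∀ j, N j → Place k (K j)) {j : J} {m : N j}
    (h : (⟨j, m⟩ : Σ j, N j) = q) : rpC q x u j m = x j m := by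
  unfold rpC
  rw [if_pos h]

lemma rpC_neg {q : Σ j, N j} (x u : ∀ j, N j → Place k (K j)) {j : J} {m : N j}
    (h : (⟨j, m⟩ : Σ j, N j) ≠ q) : rpC q x u j m = u j m := by
  unfold rpC
  rw [if_neg h]

lemma fil_raise [Finite (Σ j, N j)] (i : ℕ) (q : Σ j, N j) (x y : ∀ j, N j → Place k (K j))
    (z : (∀ j, N j → Place k (K j)) →₀ ℚ) (hz : z ∈ fil k K N i) :
    z.mapDomain (rpC q x) - z.mapDomain (rpC q y) ∈ fil k K N (i + 1) := by
  have h := (isBB_fil (k := k) (K := K) (N := N)).raise i q x y z hz
  unfold rpC
  convert h using 2

section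

variable [DecidableEq (Σ j, N j)]

/-- replacing one coordinate -/
def rp (q : Σ j, N j) (x u : ∀ j, N j → Place k (K j)) : ∀ j, N j → Place k (K j) := mixd {q} u x

lemma DC_insert_rp {a : Σ j, N j} {T : Finset (Σ j, N j)} (ha : a ∉ T)
    (x y : ∀ j, N j → Place k (K j)) :
    DC (insert a T) x y = (DC T x y).mapDomain (rp a x) - (DC T x y).mapDomain (rp a y) := by
  have h5 : ∀ w : ∀ j, N j → Place k (K j), (DC T x y).mapDomain (rp a w) =
      ∑ B ∈ T.powerset, ((-1 : ℚ) ^ B.card) •
        Finsupp.single (mixd {a} (mixd B x y) w) (1 : ℚ) := by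
    intro w
    unfold DC
    rw [Finsupp.mapDomain_finsetSum]
    apply Finset.sum_congr rfl
    intro B _
    rw [Finsupp.mapDomain_smul, Finsupp.mapDomain_single]
    rfl
  rw [DC_insert ha, h5, h5]
  unfold DC
  congr 1
  · apply Finset.sum_congr rfl
    intro B hB
    have haB : a ∉ B := fun h => ha (Finset.mem_powerset.1 hB h)
    congr 2
    ext j m
    unfold mixd
    by_cases h6 : (⟨j, m⟩ : Σ j, N j) = a
    · simp [h6, haB]
    · simp [h6]
  · apply Finset.sum_congr rfl
    intro B hB
    congr 2
    ext j m
    unfold mixd
    by_cases h6 : (⟨j, m⟩ : Σ j, N j) = a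
    · by_cases h9 : (⟨j, m⟩ : Σ j, N j) ∈ B
      · simp [h6]
      · simp [h6]
    · by_cases h9 : (⟨j, m⟩ : Σ j, N j) ∈ B
      · simp [h6]
      · simp [h6]

end

lemma finite_NP {J : Type} (N : J → Type) [Finite (Σ j, N j)] (m : ℕ) : Finite (Σ j, NP N m j) :=
  Finite.of_injective (fun q : Σ j, NP N m j => ((⟨q.1, q.2.1⟩ : Σ j, N j), q.2.2)) (by
    rintro ⟨j, q, b⟩ ⟨j', q', b'⟩ h
    simp only [Prod.mk.injEq, Sigma.mk.injEq] at h
    obtain ⟨⟨rfl, h⟩, rfl⟩ := h
    rw [eq_of_heq h])

/-- exterior products of difference cycles -/
lemma cross_DC [Finite (Σ j, N j)] [DecidableEq (Σ j, N j)] {m : ℕ} :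
    ∀ (M : ℕ) (T : Fin m → Finset (Σ j, N j)) (x y : Fin m → ∀ j, N j → Place k (K j)),
      ∑ b, (T b).card = M →
      (cross (fun b => DC (T b) (x b) (y b))).mapDomain unc ∈ fil k K (NP N m) M := by
  classical
  have := finite_NP N m
  intro M
  induction M with
  | zero =>
    intro T x y _
    rw [fil_zero]
    trivial
  | succ M ih =>
    intro T x y hM
    obtain ⟨b, hb⟩ : ∃ b, (T b).Nonempty := by
      by_contra hc
      push Not at hc
      have : ∑ b, (T b).card = 0 := by
        apply Finset.sum_eq_zero
        intro b _
        rw [hc b, Finset.card_empty]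
      omega
    obtain ⟨a, ha⟩ := hb
    -- remove `a` from `T b`
    let T' : Fin m → Finset (Σ j, N j) := Function.update T b ((T b).erase a)
    have hM' : ∑ b, (T' b).card = M := by
      rw [← Finset.add_sum_erase _ _ (Finset.mem_univ b)] at hM ⊢
      have h1 : ∑ i ∈ (univ : Finset (Fin m)).erase b, (T' i).card =
          ∑ i ∈ (univ : Finset (Fin m)).erase b, (T i).card := by
        apply Finset.sum_congr rfl
        intro i hi
        simp only [T']
        rw [Function.update_of_ne (Finset.ne_of_mem_erase hi)]
      rw [h1]
      have h2 : (T' b).card + 1 = (T b).card := by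
        simp only [T', Function.update_self]
        exact Finset.card_erase_add_one ha
      omega
    have h1 := ih T' x y hM'
    have h2 := fil_raise (k := k) (K := K) (N := NP N m) M ⟨a.1, (a.2, b)⟩
      (unc (fun b' => x b')) (unc (fun b' => y b')) _ h1
    -- the replacement of the coordinate
    have hrep : ∀ w : Fin m → ∀ j, N j → Place k (K j),
        Finsupp.mapDomain (rpC (⟨a.1, (a.2, b)⟩ : Σ j, NP N m j) (unc (fun b' => w b')))
          (Finsupp.mapDomain unc (cross (fun b => DC (T' b) (x b) (y b)))) =
        (cross (fun b' => if b' = b then (DC (T' b) (x b) (y b)).mapDomain (rp a (w b)) else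
          DC (T' b') (x b') (y b'))).mapDomain unc := by
      intro w
      have h3 : (cross (fun b' => if b' = b then (DC (T' b) (x b) (y b)).mapDomain (rp a (w b)) else
          DC (T' b') (x b') (y b'))) = (cross (fun b => DC (T' b) (x b) (y b))).mapDomain
            (fun v i => (if i = b then rp a (w b) else id) (v i)) := by
        rw [cross_map]
        congr 1
        ext1 b'
        by_cases h : b' = b
        · subst h
          rw [if_pos rfl, if_pos rfl]
        · rw [if_neg h, if_neg h, Finsupp.mapDomain_id]
      rw [h3, ← Finsupp.mapDomain_comp, ← Finsupp.mapDomain_comp]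
      congr 1
      ext1 v
      ext1 j
      ext1 q
      obtain ⟨q, b'⟩ := q
      change rpC (⟨a.1, (a.2, b)⟩ : Σ j, NP N m j) (unc (fun b' => w b')) (unc v) j (q, b') =
        (if b' = b then rp a (w b) else id) (v b') j q
      by_cases h : b' = b
      · subst h
        rw [if_pos rfl]
        by_cases h' : (⟨j, q⟩ : Σ j, N j) = a
        · subst h'
          rw [rpC_pos _ _ rfl]
          change w b' j q = _
          unfold rp mixd
          simp
        · have h'' : (⟨j, (q, b')⟩ : Σ j, NP N m j) ≠ ⟨a.1, (a.2, b')⟩ := by
            intro hc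
            apply h'
            obtain ⟨a1, a2⟩ := a
            simp only [Sigma.mk.injEq] at hc ⊢
            obtain ⟨rfl, hc⟩ := hc
            refine ⟨rfl, ?_⟩
            simpa using hc
          rw [rpC_neg _ _ h'']
          change v b' j q = _
          unfold rp mixd
          simp [h']
      · have h'' : (⟨j, (q, b')⟩ : Σ j, NP N m j) ≠ ⟨a.1, (a.2, b)⟩ := by
          intro hc
          apply h
          obtain ⟨a1, a2⟩ := a
          simp only [Sigma.mk.injEq] at hc
          obtain ⟨rfl, hc⟩ := hc
          have := eq_of_heq hc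
          exact (Prod.mk.inj this).2
        rw [rpC_neg _ _ h'', if_neg h]
        rfl
    rw [hrep, hrep] at h2
    have h4 : (cross (fun b => DC (T b) (x b) (y b))).mapDomain unc =
        (cross (fun b' => if b' = b then (DC (T' b) (x b) (y b)).mapDomain (rp a (x b)) else
          DC (T' b') (x b') (y b'))).mapDomain unc -
        (cross (fun b' => if b' = b then (DC (T' b) (x b) (y b)).mapDomain (rp a (y b)) else
          DC (T' b') (x b') (y b'))).mapDomain unc := by
      let A : Fin m → (∀ j, N j → Place k (K j)) →₀ ℚ := fun b => DC (T b) (x b) (y b)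
      have h5 : ∀ w : (∀ j, N j → Place k (K j)) →₀ ℚ,
          (fun b' => if b' = b then w else DC (T' b') (x b') (y b')) = Function.update A b w := by
        intro w
        ext1 b'
        by_cases h : b' = b
        · subst h
          rw [if_pos rfl, Function.update_self]
        · rw [if_neg h, Function.update_of_ne h]
          simp only [A, T']
          rw [Function.update_of_ne h]
      rw [h5, h5, ← crossL_apply, ← crossL_apply]
      have h6 : (DC (T' b) (x b) (y b)).mapDomain (rp a (x b)) -
          (DC (T' b) (x b) (y b)).mapDomain (rp a (y b)) = A b := by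
        simp only [A, T', Function.update_self]
        rw [← DC_insert_rp (Finset.notMem_erase a (T b)), Finset.insert_erase ha]
      have h7 : crossL A b ((DC (T' b) (x b) (y b)).mapDomain (rp a (x b))) -
          crossL A b ((DC (T' b) (x b) (y b)).mapDomain (rp a (y b))) = cross A := by
        rw [← map_sub, h6, crossL_apply, Function.update_eq_self]
      have h8 := congrArg (Finsupp.lmapDomain ℚ ℚ unc) h7
      rw [map_sub] at h8
      exact h8.symm
    rw [h4]
    exact h2

/-- **Exterior products of cycles in `F^d`.** -/
theorem cross_fil [Finite (Σ j, N j)] {m d : ℕ} (z : Fin m → (∀ j, N j → Place k (K j)) →₀ ℚ)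
    (hz : ∀ b, z b ∈ fil k K N d) :
    (cross z).mapDomain unc ∈ fil k K (NP N m) (m * d) := by
  classical
  -- replace the factors by difference cycles one after the other
  have key : ∀ (S : Finset (Fin m)) (z : Fin m → (∀ j, N j → Place k (K j)) →₀ ℚ),
      (∀ b ∈ S, z b ∈ fil k K N d) →
      (∀ b ∉ S, ∃ T x y, T.card = d ∧ z b = DC T x y) →
      (cross z).mapDomain unc ∈ fil k K (NP N m) (m * d) := by
    intro S
    induction S using Finset.induction_on with
    | empty =>
      intro z _ hz
      choose T x y hT hz' using fun b => hz b (Finset.notMem_empty b)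
      have h1 := cross_DC (m * d) T x y (by
        simp only [hT]
        rw [Finset.sum_const, Finset.card_univ, Fintype.card_fin, smul_eq_mul])
      have h2 : z = fun b => DC (T b) (x b) (y b) := by ext1 b; exact hz' b
      rw [h2]
      exact h1
    | insert b S hb ih =>
      intro z hz hz'
      have hle : fil k K N d ≤ (fil k K (NP N m) (m * d)).comap
          ((Finsupp.lmapDomain ℚ ℚ unc).comp (crossL z b)) := by
        conv_lhs => unfold fil
        rw [sup_le_iff]
        constructor
        · intro w hw
          exact Submodule.mem_sup_left (crossL_ratTriv z b hw)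
        · rw [Submodule.span_le]
          rintro _ ⟨p, x, y, rfl⟩
          rw [← DC_map]
          refine ih (Function.update z b (DC (univ.map p) x y)) ?_ ?_
          · intro b' hb'
            have : b' ≠ b := fun h => hb (h ▸ hb')
            rw [Function.update_of_ne this]
            exact hz b' (Finset.mem_insert_of_mem hb')
          · intro b' hb'
            by_cases h : b' = b
            · subst h
              refine ⟨univ.map p, x, y, ?_, Function.update_self _ _ _⟩
              rw [Finset.card_map, Finset.card_univ, Fintype.card_fin]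
            · rw [Function.update_of_ne h]
              exact hz' b' (by
                rw [Finset.mem_insert]
                push Not
                exact ⟨h, hb'⟩)
      have h1 := hle (hz b (Finset.mem_insert_self b S))
      rw [Submodule.mem_comap, LinearMap.comp_apply, crossL_apply, Function.update_eq_self] at h1
      exact h1
  exact key univ z (fun b _ => hz b) (fun b hb => absurd (Finset.mem_univ b) hb)

end Pool.Agent.Q145.NC
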