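import Pool.Agent.Q145.NC.Core
import Pool.Agent.Q70.CH.Prod2

/-!
# Products of curves and natural maps between them
-/

set_option autoImplicit false
set_option linter.unusedSectionVars false

namespace Pool.Agent.Q145.NC

open Finset FF Pool.Agent.Q70.CH

variable {k : Type} [Field k] [CharZero k] {J : Type} (K : J → Type) [∀ j, Field (K j)]
  [∀ j, Algebra k (K j)]

/-- The product of the powers `C_j ^ (N j)` of the smooth projective curves `C_j` with function
fields `K j`. -/
@[reducible] def prodC (N : J → Type) : Sp k where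
  pts := ∀ j, N j → Place k (K j)
  mor B _ _ := {s | ∀ j p, (fun Q => s Q j p) ∈ (curve (K j)).mor B}

/-- the disjoint union of the curves -/
def dunion : Sp k where
  pts := Σ j, Place k (K j)
  mor B _ _ := {s | ∃ j, ∃ s' ∈ (curve (k := k) (K j)).mor B, ∀ Q, s Q = ⟨j, s' Q⟩}

/-- powers of the disjoint union -/
abbrev DU (k : Type) [Field k] {J : Type} (K : J → Type) [∀ j, Field (K j)]
    [∀ j, Algebra k (K j)] (ι : Type) : Sp k := (dunion (k := k) K).pow ι

/-- points of the disjoint union -/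
abbrev DP (k : Type) [Field k] {J : Type} (K : J → Type) [∀ j, Field (K j)]
    [∀ j, Algebra k (K j)] : Type := Σ j, Place k (K j)

lemma const_DU {ι : Type} (B : Type) [Field B] [Algebra k B] (a : DP k K) :
    (fun _ => a) ∈ (dunion (k := k) K).mor B :=
  ⟨a.1, fun _ => a.2, curve_const (K a.1) a.2 B, fun _ => rfl⟩

variable {K}

/-- a linear functional which kills the cycles rationally equivalent to zero -/
def Kills {X : Sp k} {W : Type} [AddCommGroup W] [Module ℚ W] (L : (X.pts →₀ ℚ) →ₗ[ℚ] W) : Prop :=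
  ∀ z ∈ ratTriv X, L z = 0

section A23

variable {κ : Type} [DecidableEq κ] {W : Type} [AddCommGroup W] [Module ℚ W] {i : ℕ}

/-- the function on points attached to a functional on cycles -/
noncomputable def fn (L : ((DU k K κ).pts →₀ ℚ) →ₗ[ℚ] W) (y : κ → DP k K) : W :=
  L (Finsupp.single (show (DU k K κ).pts from y) 1)

lemma fn_eq (L : ((DU k K κ).pts →₀ ℚ) →ₗ[ℚ] W) (y : κ → DP k K) :
    fn L y = L (Finsupp.single y 1) := rfl

/-- the functional obtained by a difference in the variables `b l`, `l ∈ P` -/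
lemma exists_lam (L : ((DU k K κ).pts →₀ ℚ) →ₗ[ℚ] W) (hL : Kills L) (o : κ → DP k K)
    (b : Fin i ↪ κ) (P : Finset (Fin i)) :
    ∃ L' : ((DU k K (Fin i)).pts →₀ ℚ) →ₗ[ℚ] W, Kills L' ∧
      ∀ w, L' (Finsupp.single w 1) = D (Psi (fn L) o b) P w (fun l => o (b l)) := by
  let F : Finset (Fin i) → (DU k K (Fin i)).pts → (DU k K κ).pts :=
    fun B w => Function.extend b (mix B w (fun l => o (b l))) o
  have hF : ∀ B, IsMap (DU k K (Fin i)) (DU k K κ) (F B) := by
    intro B B' _ _ _ s hs q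
    by_cases hq : ∃ l, b l = q
    · obtain ⟨l, rfl⟩ := hq
      have h1 : (fun Q => F B (s Q) (b l)) = fun Q => mix B (s Q) (fun l => o (b l)) l := by
        ext1 Q
        change Function.extend b _ o (b l) = _
        rw [b.injective.extend_apply]
      rw [h1]
      by_cases hl : l ∈ B
      · have : (fun Q => mix B (s Q) (fun l => o (b l)) l) = fun _ => o (b l) := by
          ext1 Q; rw [mix_mem hl]
        rw [this]
        exact const_DU (ι := κ) K B' _
      · have : (fun Q => mix B (s Q) (fun l => o (b l)) l) = fun Q => s Q l := by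
          ext1 Q; rw [mix_notMem hl]
        rw [this]
        exact hs l
    · have h1 : (fun Q => F B (s Q) q) = fun _ => o q := by
        ext1 Q
        change Function.extend b _ o q = _
        rw [Function.extend_apply' _ _ _ hq]
      rw [h1]
      exact const_DU (ι := κ) K B' _
  refine ⟨∑ B ∈ P.powerset, ((-1 : ℚ) ^ B.card) • L.comp (Finsupp.lmapDomain ℚ ℚ (F B)), ?_, ?_⟩
  · intro z hz
    rw [LinearMap.sum_apply]
    apply Finset.sum_eq_zero
    intro B _
    rw [LinearMap.smul_apply, LinearMap.comp_apply, Finsupp.lmapDomain_apply,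
      hL _ (mapDomain_mem (hF B) hz), smul_zero]
  · intro w
    rw [LinearMap.sum_apply]
    unfold D
    apply Finset.sum_congr rfl
    intro B _
    rw [LinearMap.smul_apply, LinearMap.comp_apply, Finsupp.lmapDomain_apply,
      Finsupp.mapDomain_single]
    rfl

lemma sum_permsOn_single {α : Type} (P : Finset (Fin i)) (w : Fin i → α)
    {β : Type} (x : P → β) (e : β → α) (hx : ∀ l : P, w l = e (x l)) :
    ∑ π ∈ permsOn P, Finsupp.single (fun l => w (π l)) (1 : ℚ) =
      (symc x).mapDomain (fun v l => if h : l ∈ P then e (v ⟨l, h⟩) else w l) := by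
  classical
  unfold symc
  rw [Finsupp.mapDomain_finsetSum]
  symm
  refine Finset.sum_bij (fun (ρ : Equiv.Perm P) _ => Equiv.Perm.ofSubtype ρ) ?_ ?_ ?_ ?_
  · intro ρ _
    rw [mem_permsOn]
    intro l hl
    exact Equiv.Perm.ofSubtype_apply_of_not_mem ρ hl
  · intro ρ _ ρ' _ h
    exact Equiv.Perm.ofSubtype_injective h
  · intro π hπ
    rw [mem_permsOn] at hπ
    have h1 : ∀ l, l ∈ P ↔ π l ∈ P := by
      intro l
      constructor
      · intro hl
        exact permsOn_map (mem_permsOn.2 hπ) hl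
      · intro hl
        by_contra hc
        rw [hπ l hc] at hl
        exact hc hl
    refine ⟨Equiv.Perm.subtypePerm π (fun l => (h1 l).symm), Finset.mem_univ _, ?_⟩
    ext l
    by_cases hl : l ∈ P
    · rw [Equiv.Perm.ofSubtype_apply_of_mem _ hl]; rfl
    · rw [Equiv.Perm.ofSubtype_apply_of_not_mem _ hl, hπ l hl]
  · intro ρ _
    rw [Finsupp.mapDomain_single]
    congr 1
    ext1 l
    by_cases hl : l ∈ P
    · simp only [dif_pos hl, Equiv.Perm.ofSubtype_apply_of_mem _ hl]
      exact (hx _).symm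
    · simp only [dif_neg hl, Equiv.Perm.ofSubtype_apply_of_not_mem _ hl]

variable [IsAlgClosed k] [∀ j, IsFF k (K j)]

/-- the symmetrizer relation -/
lemma relA2 {g : J → ℕ} (hg : ∀ j, IsGenus k (K j) (g j)) (L : ((DU k K κ).pts →₀ ℚ) →ₗ[ℚ] W)
    (hL : Kills L) (base : ∀ j, Place k (K j)) (tY : κ → J) (b : Fin i ↪ κ) (P : Finset (Fin i))
    (j : J) (hPj : ∀ l ∈ P, tY (b l) = j) (hP : P.card = g j + 1) (w : Fin i → DP k K)
    (hw : ∀ l, (w l).1 = tY (b l)) :
    ∑ π ∈ permsOn P, D (Psi (fn L) (fun q => ⟨tY q, base (tY q)⟩) b) P (fun l => w (π l))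
      (fun l => ⟨tY (b l), base (tY (b l))⟩) = 0 := by
  classical
  set o : κ → DP k K := fun q => ⟨tY q, base (tY q)⟩ with ho
  obtain ⟨L', hL', hval⟩ := exists_lam L hL o b P
  have h0 : ∀ π : Equiv.Perm (Fin i), D (Psi (fn L) o b) P (fun l => w (π l))
      (fun l => ⟨tY (b l), base (tY (b l))⟩) =
      L' (Finsupp.single (show (DU k K (Fin i)).pts from fun l => w (π l)) 1) :=
    fun π => (hval _).symm
  simp only [h0]
  rw [← map_sum]
  -- the places
  have hwj : ∀ l : P, ∃ x : Place k (K j), w l = ⟨j, x⟩ := by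
    intro l
    have h1 : (w l).1 = j := (hw l).trans (hPj l l.2)
    rcases hwl : w l with ⟨j', x⟩
    rw [hwl] at h1
    simp only at h1
    subst h1
    exact ⟨x, rfl⟩
  choose x hx using hwj
  let Ψ : ((curve (k := k) (K j)).pow P).pts → (DU k K (Fin i)).pts :=
    fun v l => if h : l ∈ P then ⟨j, v ⟨l, h⟩⟩ else w l
  have hΨ : IsMap ((curve (k := k) (K j)).pow P) (DU k K (Fin i)) Ψ := by
    intro B' _ _ _ s hs l
    by_cases hl : l ∈ P
    · refine ⟨j, fun Q => s Q ⟨l, hl⟩, hs ⟨l, hl⟩, fun Q => ?_⟩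
      change (if h : l ∈ P then (⟨j, s Q ⟨l, h⟩⟩ : DP k K) else w l) = _
      rw [dif_pos hl]
    · have : (fun Q => Ψ (s Q) l) = fun _ => w l := by
        ext1 Q
        change (if h : l ∈ P then (⟨j, s Q ⟨l, h⟩⟩ : DP k K) else w l) = _
        rw [dif_neg hl]
      rw [this]
      exact const_DU (ι := κ) K B' _
  have h1 : ∑ π ∈ permsOn P, Finsupp.single (show (DU k K (Fin i)).pts from fun l => w (π l))
      (1 : ℚ) = (symc x).mapDomain Ψ :=
    sum_permsOn_single P w x (fun a => (⟨j, a⟩ : DP k K)) hx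
  rw [h1]
  have hne : P.Nonempty := Finset.card_pos.1 (by omega)
  obtain ⟨i₀, hi₀⟩ := hne
  obtain ⟨z, hz0, hz⟩ := exists_move (hg j) (ι := P) (by rw [Fintype.card_coe, hP]; omega)
    x ⟨i₀, hi₀⟩ (base j)
  have h2 : L' ((symc z - symc x).mapDomain Ψ) = 0 := hL' _ (mapDomain_mem hΨ hz)
  have h3 : (symc z - symc x).mapDomain Ψ = (symc z).mapDomain Ψ - (symc x).mapDomain Ψ :=
    map_sub (Finsupp.lmapDomain ℚ ℚ Ψ) _ _
  rw [h3, map_sub, sub_eq_zero] at h2
  rw [← h2]
  have h6 : Finsupp.mapDomain (fun (v : P → Place k (K j)) (l : Fin i) =>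
      if h : l ∈ P then (⟨j, v ⟨l, h⟩⟩ : DP k K) else w l) (symc z) =
      ∑ π : Equiv.Perm P, Finsupp.single (fun l => if h : l ∈ P then
        (⟨j, z (π ⟨l, h⟩)⟩ : DP k K) else w l) (1 : ℚ) := by
    unfold symc
    rw [Finsupp.mapDomain_finsetSum]
    apply Finset.sum_congr rfl
    intro π _
    rw [Finsupp.mapDomain_single]
  have h7 : L' ((symc z).mapDomain Ψ) = ∑ π : Equiv.Perm P, L' (Finsupp.single
      (show (DU k K (Fin i)).pts from fun l => if h : l ∈ P then
        (⟨j, z (π ⟨l, h⟩)⟩ : DP k K) else w l) (1 : ℚ)) :=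
    (congrArg L' h6).trans (map_sum L' _ _)
  rw [h7]
  apply Finset.sum_eq_zero
  intro π _
  rw [hval]
  have hl : (π.symm ⟨i₀, hi₀⟩).1 ∈ P := (π.symm ⟨i₀, hi₀⟩).2
  refine D_indep _ (a := (π.symm ⟨i₀, hi₀⟩).1) hl _ _ ?_
  intro B
  congr 2
  change (if h : (π.symm ⟨i₀, hi₀⟩).1 ∈ P then (⟨j, z (π ⟨(π.symm ⟨i₀, hi₀⟩).1, h⟩)⟩ : DP k K)
    else w _) = _
  rw [dif_pos hl]
  have h4 : π ⟨(π.symm ⟨i₀, hi₀⟩).1, hl⟩ = ⟨i₀, hi₀⟩ := by
    have : (⟨(π.symm ⟨i₀, hi₀⟩).1, hl⟩ : P) = π.symm ⟨i₀, hi₀⟩ := rfl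
    rw [this, Equiv.apply_symm_apply]
  rw [h4, hz0, ho]
  simp only
  rw [hPj _ hl]

end A23

/-- A morphism `a` from the curve to itself which acts as the multiplication by the integer `s` on
the zero-cycles of degree zero modulo rational equivalence, that is, on the points of the Jacobian
(tensored with `ℚ`). -/
def IsScalar (k : Type) [Field k] [CharZero k] (F : Type) [Field F] [Algebra k F]
    (a : Place k F → Place k F) (s : ℤ) : Prop :=
  IsMap (curve (k := k) F) (curve F) a ∧ ∀ P Q : Place k F,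
    (Finsupp.single (a P) (1 : ℚ) - Finsupp.single (a Q) 1) -
      (s : ℚ) • (Finsupp.single P (1 : ℚ) - Finsupp.single Q 1) ∈ ratTriv (curve (k := k) F)

section scal

variable {κ : Type} [DecidableEq κ] {W : Type} [AddCommGroup W] [Module ℚ W]

/-- the scalar relation -/
lemma relA3 (L : ((DU k K κ).pts →₀ ℚ) →ₗ[ℚ] W) (hL : Kills L) (j : J)
    (a : Place k (K j) → Place k (K j)) (s : ℤ) (ha : IsScalar k (K j) a s) (α : DP k K → DP k K)
    (hα : ∀ P, α ⟨j, P⟩ = ⟨j, a P⟩)
    (y : κ → DP k K) (q : κ) (u v : DP k K) (hu : u.1 = j) (hv : v.1 = j) :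
    fn L (Function.update y q (α u)) - fn L (Function.update y q (α v)) =
      (s : ℚ) • (fn L (Function.update y q u) - fn L (Function.update y q v)) := by
  obtain ⟨ju, P⟩ := u
  obtain ⟨jv, Q⟩ := v
  simp only at hu hv
  subst hu
  subst hv
  rw [hα, hα]
  let Ψ : (curve (k := k) (K jv)).pts → (DU k K κ).pts := fun c => Function.update y q ⟨jv, c⟩
  have hΨ : IsMap (curve (k := k) (K jv)) (DU k K κ) Ψ := by
    intro B' _ _ _ s hs l
    by_cases hl : l = q
    · subst hl
      refine ⟨jv, s, hs, fun Q => ?_⟩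
      change Function.update y l (⟨jv, s Q⟩ : DP k K) l = _
      rw [Function.update_self]
    · have : (fun Q => Ψ (s Q) l) = fun _ => y l := by
        ext1 Q
        change Function.update y q (⟨jv, s Q⟩ : DP k K) l = _
        rw [Function.update_of_ne hl]
      rw [this]
      exact const_DU (ι := κ) K B' _
  have h1 := hL _ (mapDomain_mem hΨ (ha.2 P Q))
  have h2 : ∀ c, L (Finsupp.mapDomain Ψ (Finsupp.single c 1)) =
      fn L (Function.update y q ⟨jv, c⟩) := by
    intro c
    rw [Finsupp.mapDomain_single]; rfl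
  have h3 : L (Finsupp.mapDomain Ψ ((Finsupp.single (a P) (1 : ℚ) - Finsupp.single (a Q) 1) -
      (s : ℚ) • (Finsupp.single P (1 : ℚ) - Finsupp.single Q 1))) =
      (L (Finsupp.mapDomain Ψ (Finsupp.single (a P) 1)) -
        L (Finsupp.mapDomain Ψ (Finsupp.single (a Q) 1))) -
      (s : ℚ) • (L (Finsupp.mapDomain Ψ (Finsupp.single P 1)) -
        L (Finsupp.mapDomain Ψ (Finsupp.single Q 1))) := by
    have h5 : ∀ A B C E : (curve (k := k) (K jv)).pts →₀ ℚ,
        (L.comp (Finsupp.lmapDomain ℚ ℚ Ψ)) ((A - B) - (s : ℚ) • (C - E)) =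
        ((L.comp (Finsupp.lmapDomain ℚ ℚ Ψ)) A - (L.comp (Finsupp.lmapDomain ℚ ℚ Ψ)) B) -
        (s : ℚ) • ((L.comp (Finsupp.lmapDomain ℚ ℚ Ψ)) C - (L.comp (Finsupp.lmapDomain ℚ ℚ Ψ)) E) := by
      intro A B C E
      rw [map_sub, map_sub, map_smul, map_sub]
    exact h5 _ _ _ _
  rw [h3, h2, h2, h2, h2, sub_eq_zero] at h1
  exact h1

end scal

end Pool.Agent.Q145.NC
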