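import Pool.Agent.Q145.NC.Main

/-!
# The filtration on the zero-cycles of a product of curves
-/

set_option autoImplicit false
set_option linter.unusedSectionVars false

namespace Pool.Agent.Q145.NC

open Finset FF Pool.Agent.Q70.CH

variable {k : Type} [Field k] [CharZero k] {J : Type} {K : J → Type} [∀ j, Field (K j)]
  [∀ j, Algebra k (K j)] {N : J → Type}

section fil

variable [DecidableEq (Σ j, N j)]

/-- the point with the coordinates of `y` on `T` and of `x` elsewhere -/
def mixd (T : Finset (Σ j, N j)) (x y : ∀ j, N j → Place k (K j)) : ∀ j, N j → Place k (K j) :=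
  fun j m => if (⟨j, m⟩ : Σ j, N j) ∈ T then y j m else x j m

lemma mix_inc' (T : Finset (Σ j, N j)) (x y : ∀ j, N j → Place k (K j)) :
    mix T (inc x) (inc y) = inc (mixd T x y) := by
  ext1 q
  obtain ⟨j, m⟩ := q
  unfold mix inc mixd
  by_cases h : (⟨j, m⟩ : Σ j, N j) ∈ T
  · simp only [if_pos h]
  · simp only [if_neg h]

/-- the difference cycle -/
noncomputable def DC (T : Finset (Σ j, N j)) (x y : ∀ j, N j → Place k (K j)) :
    (∀ j, N j → Place k (K j)) →₀ ℚ :=
  ∑ B ∈ T.powerset, ((-1 : ℚ) ^ B.card) • Finsupp.single (mixd B x y) 1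

lemma DC_eq (T : Finset (Σ j, N j)) (x y : ∀ j, N j → Place k (K j)) :
    DC T x y = D (fn (Lr N LinearMap.id)) T (inc x) (inc y) := by
  unfold DC D
  apply Finset.sum_congr rfl
  intro B _
  rw [mix_inc', fn_Lr]
  rfl

lemma DC_map {i : ℕ} (p : Fin i ↪ Σ j, N j) (x y : ∀ j, N j → Place k (K j)) :
    DC (univ.map p) x y = diff p x y := by
  rw [DC_eq, D_fn_inc]
  rfl

omit [DecidableEq (Σ j, N j)] in
lemma exists_map {T : Finset (Σ j, N j)} {i : ℕ} (hT : T.card = i) :
    ∃ p : Fin i ↪ Σ j, N j, univ.map p = T := by
  let e : Fin i ≃ T := (Finset.equivFinOfCardEq hT).symm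
  refine ⟨e.toEmbedding.trans (Function.Embedding.subtype _), ?_⟩
  ext m
  simp only [Finset.mem_map, Finset.mem_univ, true_and]
  constructor
  · rintro ⟨l, rfl⟩
    exact (e l).2
  · intro hm
    exact ⟨e.symm ⟨m, hm⟩, by simp⟩

lemma DC_mem (T : Finset (Σ j, N j)) (x y : ∀ j, N j → Place k (K j)) :
    DC T x y ∈ fil k K N T.card := by
  obtain ⟨p, hp⟩ := exists_map (T := T) rfl
  rw [← hp, DC_map]
  have : (univ.map p).card = T.card := by rw [hp]
  rw [this]
  exact Submodule.mem_sup_right (Submodule.subset_span ⟨p, x, y, rfl⟩)

lemma mixd_insert {a : Σ j, N j} {B : Finset (Σ j, N j)} (x y : ∀ j, N j → Place k (K j)) :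
    mixd (insert a B) x y = mixd B (mixd {a} x y) y := by
  ext j m
  unfold mixd
  by_cases h1 : (⟨j, m⟩ : Σ j, N j) = a
  · by_cases h2 : (⟨j, m⟩ : Σ j, N j) ∈ B
    · simp [h1, h2]
    · simp [h1, h2]
  · by_cases h2 : (⟨j, m⟩ : Σ j, N j) ∈ B
    · simp [h2]
    · simp [h1, h2]

lemma DC_insert {a : Σ j, N j} {T : Finset (Σ j, N j)} (ha : a ∉ T)
    (x y : ∀ j, N j → Place k (K j)) :
    DC (insert a T) x y = DC T x y - DC T (mixd {a} x y) y := by
  unfold DC
  rw [Finset.sum_powerset_insert ha, sub_eq_add_neg, ← Finset.sum_neg_distrib]
  congr 1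
  apply Finset.sum_congr rfl
  intro B hB
  have haB : a ∉ B := fun h => ha (Finset.mem_powerset.1 hB h)
  rw [Finset.card_insert_of_notMem haB, pow_succ, mul_neg_one, neg_smul, mixd_insert]

lemma fil_succ_le (i : ℕ) : fil k K N (i + 1) ≤ fil k K N i := by
  classical
  conv_lhs => unfold fil
  rw [sup_le_iff]
  refine ⟨le_sup_left, ?_⟩
  rw [Submodule.span_le]
  rintro _ ⟨p, x, y, rfl⟩
  rw [← DC_map]
  have hcard : (univ.map p).card = i + 1 := by rw [Finset.card_map, Finset.card_univ, Fintype.card_fin]
  obtain ⟨a, ha⟩ : (univ.map p).Nonempty := Finset.card_pos.1 (by omega)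
  have hc : ((univ.map p).erase a).card = i := by rw [Finset.card_erase_of_mem ha, hcard]; rfl
  rw [← Finset.insert_erase ha, DC_insert (Finset.notMem_erase _ _)]
  have h1 := DC_mem ((univ.map p).erase a) x y
  have h2 := DC_mem ((univ.map p).erase a) (mixd {a} x y) y
  rw [hc] at h1 h2
  exact Submodule.sub_mem _ h1 h2

lemma fil_anti {i i' : ℕ} (h : i ≤ i') : fil k K N i' ≤ fil k K N i := by
  induction i', h using Nat.le_induction with
  | base => exact le_rfl
  | succ n _ ih => exact (fil_succ_le n).trans ih

lemma DC_empty (x y : ∀ j, N j → Place k (K j)) : DC ∅ x y = Finsupp.single x 1 := by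
  unfold DC
  rw [Finset.powerset_empty, Finset.sum_singleton, Finset.card_empty, pow_zero, one_smul]
  congr 1

lemma fil_zero : fil k K N 0 = ⊤ := by
  rw [eq_top_iff]
  intro z _
  rw [← Finsupp.sum_single z]
  unfold Finsupp.sum
  apply Submodule.sum_mem
  intro x _
  have h := DC_mem ∅ x x
  rw [DC_empty, Finset.card_empty] at h
  have : Finsupp.single x (z x) = z x • Finsupp.single x (1 : ℚ) := by simp
  rw [this]
  exact Submodule.smul_mem _ _ h

lemma fil_large [Fintype (Σ j, N j)] {i : ℕ} (hi : Fintype.card (Σ j, N j) < i) :
    fil k K N i = ratTriv (prodC (k := k) K N) := by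
  apply le_antisymm
  · conv_lhs => unfold fil
    rw [sup_le_iff]
    refine ⟨le_rfl, ?_⟩
    rw [Submodule.span_le]
    rintro _ ⟨p, x, y, rfl⟩
    have := Fintype.card_le_of_embedding p
    rw [Fintype.card_fin] at this
    omega
  · exact le_sup_left

/-- decomposition of a point -/
lemma single_eq [Fintype (Σ j, N j)] (o x : ∀ j, N j → Place k (K j)) :
    ∑ T ∈ (univ : Finset (Σ j, N j)).powerset, ((-1 : ℚ) ^ T.card) • DC T o x =
      Finsupp.single x 1 := by
  have h := sum_comp (fn (Lr N (LinearMap.id (R := ℚ) (M := (∀ j, N j → Place k (K j)) →₀ ℚ))))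
    (inc o) (inc x)
  rw [fn_Lr] at h
  simp only [← DC_eq] at h
  exact h

/-- cycles of degree zero are in `F^1` -/
lemma mem_fil_one [Fintype (Σ j, N j)] (z : (∀ j, N j → Place k (K j)) →₀ ℚ)
    (hz : (z.sum fun _ c => c) = 0) : z ∈ fil k K N 1 := by
  classical
  by_cases hz0 : z = 0
  · rw [hz0]; exact Submodule.zero_mem _
  obtain ⟨o, -⟩ : ∃ o, o ∈ z.support := by
    by_contra hc
    push Not at hc
    exact hz0 (Finsupp.support_eq_empty.1 (Finset.eq_empty_of_forall_notMem hc))
  have h1 : ∀ x : ∀ j, N j → Place k (K j),
      Finsupp.single x (1 : ℚ) - Finsupp.single o 1 ∈ fil k K N 1 := by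
    intro x
    rw [← single_eq o x]
    have h2 : (∅ : Finset (Σ j, N j)) ∈ (univ : Finset (Σ j, N j)).powerset := by simp
    rw [← Finset.add_sum_erase _ _ h2, DC_empty, Finset.card_empty, pow_zero, one_smul,
      add_sub_cancel_left]
    apply Submodule.sum_mem
    intro T hT
    apply Submodule.smul_mem
    have hT0 : T.Nonempty := Finset.nonempty_iff_ne_empty.2 (Finset.ne_of_mem_erase hT)
    exact fil_anti (Finset.card_pos.2 hT0) (DC_mem T o x)
  have h3 : z = z.sum fun x c => c • (Finsupp.single x (1 : ℚ) - Finsupp.single o 1) := by
    have h4 : (z.sum fun x c => c • (Finsupp.single x (1 : ℚ) - Finsupp.single o 1)) =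
        (z.sum fun x c => Finsupp.single x c) - (z.sum fun _ c => c) • Finsupp.single o (1 : ℚ) := by
      unfold Finsupp.sum
      rw [Finset.sum_smul, ← Finset.sum_sub_distrib]
      apply Finset.sum_congr rfl
      intro x _
      change z x • (Finsupp.single x (1 : ℚ) - Finsupp.single o 1) =
        Finsupp.single x (z x) - z x • Finsupp.single o (1 : ℚ)
      rw [smul_sub]
      congr 1
      simp
    rw [h4, hz, zero_smul, sub_zero, Finsupp.sum_single]
  rw [h3]
  unfold Finsupp.sum
  apply Submodule.sum_mem
  intro x _
  exact Submodule.smul_mem _ _ (h1 x)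

end fil

/-- Properties of a filtration on the zero-cycles of the product `X` of curves which follow from
those of a Bloch-Beilinson filtration:
* `G^0` is everything, and cycles rationally equivalent to zero are in all steps;
* `raise`: replacing the coordinate at one position `q` of a cycle in `G^i` by the point `x_q` and by
the point `y_q`, the difference is in `G^(i+1)` (it is the exterior product of `x_q - y_q` with the
projection of the cycle to the other factors, a homologically trivial correspondence);
* `vanish`: if a cycle of `G^i` is projected to the product of fewer than `i` of the factors (and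
then embedded in `X` with fixed coordinates at the other positions), it becomes rationally
equivalent to zero (as `F^i CH_0 = 0` for varieties of dimension less than `i`). -/
structure IsBB (k : Type) [Field k] [CharZero k] {J : Type} (K : J → Type) [∀ j, Field (K j)]
    [∀ j, Algebra k (K j)] (N : J → Type)
    (G : ℕ → Submodule ℚ ((∀ j, N j → Place k (K j)) →₀ ℚ)) : Prop where
  rat : ∀ i, ratTriv (prodC (k := k) K N) ≤ G i
  zero : G 0 = ⊤
  raise : ∀ (i : ℕ) (q : Σ j, N j) (x y : ∀ j, N j → Place k (K j)) (z), z ∈ G i →
    z.mapDomain (fun u j m => open Classical in if (⟨j, m⟩ : Σ j, N j) = q then x j m else u j m) -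
    z.mapDomain (fun u j m => open Classical in if (⟨j, m⟩ : Σ j, N j) = q then y j m else u j m) ∈
      G (i + 1)
  vanish : ∀ (i : ℕ) (T : Finset (Σ j, N j)) (x : ∀ j, N j → Place k (K j)) (z), T.card < i →
    z ∈ G i →
    z.mapDomain (fun u j m => open Classical in if (⟨j, m⟩ : Σ j, N j) ∈ T then u j m else x j m) ∈
      ratTriv (prodC (k := k) K N)

/-- **Uniqueness**: a filtration with these properties is the filtration `fil`. -/
theorem IsBB.eq_fil [Finite (Σ j, N j)] (hne : Nonempty (∀ j, N j → Place k (K j)))
    {G : ℕ → Submodule ℚ ((∀ j, N j → Place k (K j)) →₀ ℚ)}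
    (h : IsBB k K N G) (i : ℕ) : G i = fil k K N i := by
  classical
  have : Fintype (Σ j, N j) := Fintype.ofFinite _
  obtain ⟨o⟩ := hne
  apply le_antisymm
  · intro z hz
    have h1 : z = ∑ T ∈ (univ : Finset (Σ j, N j)).powerset,
        ((-1 : ℚ) ^ T.card) • (z.sum fun x c => c • DC T o x) := by
      have h2 : z = z.sum fun x c => c • Finsupp.single x (1 : ℚ) := by
        conv_lhs => rw [← Finsupp.sum_single z]
        apply Finsupp.sum_congr
        intro x _
        simp
      conv_lhs => rw [h2]
      unfold Finsupp.sum
      simp only [Finset.smul_sum]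
      rw [Finset.sum_comm]
      apply Finset.sum_congr rfl
      intro x _
      rw [← single_eq o x, Finset.smul_sum]
      apply Finset.sum_congr rfl
      intro T _
      rw [smul_comm]
    rw [h1]
    apply Submodule.sum_mem
    intro T _
    apply Submodule.smul_mem
    by_cases hT : T.card < i
    · -- small components are trivial
      have h3 : (z.sum fun x c => c • DC T o x) = ∑ A ∈ T.powerset, ((-1 : ℚ) ^ A.card) •
          z.mapDomain (fun u j m => if (⟨j, m⟩ : Σ j, N j) ∈ A then u j m else o j m) := by
        unfold Finsupp.mapDomain Finsupp.sum DC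
        simp only [Finset.smul_sum]
        rw [Finset.sum_comm]
        apply Finset.sum_congr rfl
        intro A _
        apply Finset.sum_congr rfl
        intro x _
        rw [smul_comm]
        congr 1
        rw [Finsupp.smul_single, smul_eq_mul, mul_one]
        rfl
      rw [h3]
      apply Submodule.mem_sup_left
      apply Submodule.sum_mem
      intro A hA
      apply Submodule.smul_mem
      have := h.vanish i A o z ((Finset.card_le_card (Finset.mem_powerset.1 hA)).trans_lt hT) hz
      convert this using 2
    · unfold Finsupp.sum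
      apply Submodule.sum_mem
      intro x _
      exact Submodule.smul_mem _ _ (fil_anti (not_lt.1 hT) (DC_mem T o x))
  · -- the differences are in the steps
    have key : ∀ (T : Finset (Σ j, N j)) (x y : ∀ j, N j → Place k (K j)),
        DC T x y ∈ G T.card := by
      intro T
      induction T using Finset.induction_on with
      | empty => intro x y; rw [Finset.card_empty, h.zero]; trivial
      | insert a T ha ih =>
        intro x y
        rw [Finset.card_insert_of_notMem ha, DC_insert ha]
        have h4 := h.raise T.card a x y _ (ih x y)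
        have h5 : ∀ w : ∀ j, N j → Place k (K j), (DC T x y).mapDomain (fun u j m =>
            open Classical in if (⟨j, m⟩ : Σ j, N j) = a then w j m else u j m) =
            ∑ B ∈ T.powerset, ((-1 : ℚ) ^ B.card) •
              Finsupp.single (mixd {a} (mixd B x y) w) (1 : ℚ) := by
          intro w
          unfold DC
          rw [Finsupp.mapDomain_finsetSum]
          apply Finset.sum_congr rfl
          intro B _
          rw [Finsupp.mapDomain_smul, Finsupp.mapDomain_single]
          congr 2
          ext j m
          unfold mixd
          by_cases h6 : (⟨j, m⟩ : Σ j, N j) = a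
          · simp [h6]
          · simp [h6]
        have h7 : (DC T x y).mapDomain (fun u j m =>
            open Classical in if (⟨j, m⟩ : Σ j, N j) = a then x j m else u j m) = DC T x y := by
          rw [h5]
          unfold DC
          apply Finset.sum_congr rfl
          intro B hB
          have haB : a ∉ B := fun h => ha (Finset.mem_powerset.1 hB h)
          congr 2
          ext j m
          unfold mixd
          by_cases h6 : (⟨j, m⟩ : Σ j, N j) = a
          · simp [h6, haB]
          · simp [h6]
        have h8 : (DC T x y).mapDomain (fun u j m =>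
            open Classical in if (⟨j, m⟩ : Σ j, N j) = a then y j m else u j m) =
            DC T (mixd {a} x y) y := by
          rw [h5]
          unfold DC
          apply Finset.sum_congr rfl
          intro B hB
          congr 2
          ext j m
          unfold mixd
          by_cases h6 : (⟨j, m⟩ : Σ j, N j) = a
          · by_cases h9 : (⟨j, m⟩ : Σ j, N j) ∈ B
            · simp [h6]
            · simp [h6]
          · by_cases h9 : (⟨j, m⟩ : Σ j, N j) ∈ B
            · simp [h6]
            · simp [h6]
        rw [h7, h8] at h4
        exact h4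
    conv_lhs => unfold fil
    rw [sup_le_iff]
    refine ⟨h.rat i, ?_⟩
    rw [Submodule.span_le]
    rintro _ ⟨p, x, y, rfl⟩
    rw [← DC_map]
    have := key (univ.map p) x y
    rw [Finset.card_map, Finset.card_univ, Fintype.card_fin] at this
    exact this

open Classical in
/-- replacing one coordinate -/
lemma upd_isMap (q : Σ j, N j) (x : ∀ j, N j → Place k (K j)) :
    IsMap (prodC (k := k) K N) (prodC K N)
      (fun u j m => if (⟨j, m⟩ : Σ j, N j) = q then x j m else u j m) := by
  intro B _ _ _ s hs j m
  by_cases h : (⟨j, m⟩ : Σ j, N j) = q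
  · simp only [if_pos h]
    exact curve_const _ _ _
  · simp only [if_neg h]
    exact hs j m

open Classical in
/-- replacing the coordinates outside of `T` -/
lemma res_isMap (T : Finset (Σ j, N j)) (x : ∀ j, N j → Place k (K j)) :
    IsMap (prodC (k := k) K N) (prodC K N)
      (fun u j m => if (⟨j, m⟩ : Σ j, N j) ∈ T then u j m else x j m) := by
  intro B _ _ _ s hs j m
  by_cases h : (⟨j, m⟩ : Σ j, N j) ∈ T
  · simp only [if_pos h]
    exact hs j m
  · simp only [if_neg h]
    exact curve_const _ _ _

/-- a map of products which forgets a coordinate kills the difference cycles -/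
lemma map_DC_zero [DecidableEq (Σ j, N j)] {α : Type} (F : (∀ j, N j → Place k (K j)) → α)
    {a : Σ j, N j} {T : Finset (Σ j, N j)} (ha : a ∈ T)
    (hF : ∀ u v : ∀ j, N j → Place k (K j), (∀ j m, (⟨j, m⟩ : Σ j, N j) ≠ a → u j m = v j m) →
      F u = F v) (x y : ∀ j, N j → Place k (K j)) : (DC T x y).mapDomain F = 0 := by
  rw [← Finset.insert_erase ha, DC_insert (Finset.notMem_erase a T)]
  have h1 : ∀ x' : ∀ j, N j → Place k (K j), (DC (T.erase a) x' y).mapDomain F =
      ∑ B ∈ (T.erase a).powerset, ((-1 : ℚ) ^ B.card) • Finsupp.single (F (mixd B x' y)) 1 := by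
    intro x'
    unfold DC
    rw [Finsupp.mapDomain_finsetSum]
    apply Finset.sum_congr rfl
    intro B _
    rw [Finsupp.mapDomain_smul, Finsupp.mapDomain_single]
  have h2 : (DC (T.erase a) x y - DC (T.erase a) (mixd {a} x y) y).mapDomain F =
      (DC (T.erase a) x y).mapDomain F - (DC (T.erase a) (mixd {a} x y) y).mapDomain F :=
    map_sub (Finsupp.lmapDomain ℚ ℚ F) _ _
  rw [h2, h1, h1, sub_eq_zero]
  apply Finset.sum_congr rfl
  intro B _
  congr 2
  apply hF
  intro j m hjm
  unfold mixd
  simp [hjm]

/-- **Existence**: the filtration `fil` has the properties. -/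
theorem isBB_fil [Finite (Σ j, N j)] : IsBB k K N (fil k K N) := by
  classical
  refine ⟨fun i => le_sup_left, fil_zero, ?_, ?_⟩
  · intro i q x y z hz
    let L : ((∀ j, N j → Place k (K j)) →₀ ℚ) →ₗ[ℚ] ((∀ j, N j → Place k (K j)) →₀ ℚ) :=
      Finsupp.lmapDomain ℚ ℚ (fun u j m => if (⟨j, m⟩ : Σ j, N j) = q then x j m else u j m) -
      Finsupp.lmapDomain ℚ ℚ (fun u j m => if (⟨j, m⟩ : Σ j, N j) = q then y j m else u j m)
    have hle : fil k K N i ≤ (fil k K N (i + 1)).comap L := by
      conv_lhs => unfold fil
      rw [sup_le_iff]
      constructor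
      · intro z hz
        rw [Submodule.mem_comap]
        apply Submodule.mem_sup_left
        exact Submodule.sub_mem _ (mapDomain_mem (upd_isMap q x) hz)
          (mapDomain_mem (upd_isMap q y) hz)
      · rw [Submodule.span_le]
        rintro _ ⟨p, u, v, rfl⟩
        rw [SetLike.mem_coe, Submodule.mem_comap, ← DC_map]
        change (DC (univ.map p) u v).mapDomain (fun u j m =>
            if (⟨j, m⟩ : Σ j, N j) = q then x j m else u j m) -
          (DC (univ.map p) u v).mapDomain (fun u j m =>
            if (⟨j, m⟩ : Σ j, N j) = q then y j m else u j m) ∈ fil k K N (i + 1)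
        by_cases hq : q ∈ univ.map p
        · rw [map_DC_zero _ hq (by
              intro u v huv
              ext j m
              by_cases h : (⟨j, m⟩ : Σ j, N j) = q
              · simp [h]
              · simp [h, huv j m h]),
            map_DC_zero _ hq (by
              intro u v huv
              ext j m
              by_cases h : (⟨j, m⟩ : Σ j, N j) = q
              · simp [h]
              · simp [h, huv j m h]), sub_zero]
          exact Submodule.zero_mem _
        · have h1 : ∀ w : ∀ j, N j → Place k (K j), (DC (univ.map p) u v).mapDomain (fun u j m =>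
              if (⟨j, m⟩ : Σ j, N j) = q then w j m else u j m) =
              ∑ B ∈ (univ.map p).powerset, ((-1 : ℚ) ^ B.card) •
                Finsupp.single (mixd {q} (mixd B u v) w) (1 : ℚ) := by
            intro w
            unfold DC
            rw [Finsupp.mapDomain_finsetSum]
            apply Finset.sum_congr rfl
            intro B _
            rw [Finsupp.mapDomain_smul, Finsupp.mapDomain_single]
            congr 2
            ext j m
            unfold mixd
            by_cases h6 : (⟨j, m⟩ : Σ j, N j) = q
            · simp [h6]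
            · simp [h6]
          have h2 : DC (insert q (univ.map p)) (mixd {q} u x) (mixd {q} v y) =
              (DC (univ.map p) u v).mapDomain (fun u j m =>
                if (⟨j, m⟩ : Σ j, N j) = q then x j m else u j m) -
              (DC (univ.map p) u v).mapDomain (fun u j m =>
                if (⟨j, m⟩ : Σ j, N j) = q then y j m else u j m) := by
            rw [DC_insert hq, h1, h1]
            unfold DC
            congr 1
            · apply Finset.sum_congr rfl
              intro B hB
              have hqB : q ∉ B := fun h => hq (Finset.mem_powerset.1 hB h)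
              congr 2
              ext j m
              unfold mixd
              by_cases h6 : (⟨j, m⟩ : Σ j, N j) = q
              · simp [h6, hqB]
              · simp [h6]
            · apply Finset.sum_congr rfl
              intro B hB
              have hqB : q ∉ B := fun h => hq (Finset.mem_powerset.1 hB h)
              congr 2
              ext j m
              unfold mixd
              by_cases h6 : (⟨j, m⟩ : Σ j, N j) = q
              · simp [h6, hqB]
              · simp [h6]
          rw [← h2]
          have h3 := DC_mem (insert q (univ.map p)) (mixd {q} u x) (mixd {q} v y)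
          rw [Finset.card_insert_of_notMem hq, Finset.card_map, Finset.card_univ,
            Fintype.card_fin] at h3
          exact h3
    exact hle hz
  · intro i T x z hT hz
    let L : ((∀ j, N j → Place k (K j)) →₀ ℚ) →ₗ[ℚ] ((∀ j, N j → Place k (K j)) →₀ ℚ) :=
      Finsupp.lmapDomain ℚ ℚ (fun u j m => if (⟨j, m⟩ : Σ j, N j) ∈ T then u j m else x j m)
    have hle : fil k K N i ≤ (ratTriv (prodC (k := k) K N)).comap L := by
      conv_lhs => unfold fil
      rw [sup_le_iff]
      constructor
      · intro z hz
        exact mapDomain_mem (res_isMap T x) hz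
      · rw [Submodule.span_le]
        rintro _ ⟨p, u, v, rfl⟩
        rw [SetLike.mem_coe, Submodule.mem_comap, ← DC_map]
        change (DC (univ.map p) u v).mapDomain (fun u j m =>
            if (⟨j, m⟩ : Σ j, N j) ∈ T then u j m else x j m) ∈ ratTriv (prodC (k := k) K N)
        have hcard : T.card < (univ.map p).card := by
          rw [Finset.card_map, Finset.card_univ, Fintype.card_fin]; exact hT
        obtain ⟨a, ha, haT⟩ : ∃ a ∈ univ.map p, a ∉ T := by
          by_contra hc
          push Not at hc
          exact absurd (Finset.card_le_card hc) (not_le.2 hcard)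
        rw [map_DC_zero _ ha (by
          intro u v huv
          ext j m
          by_cases h : (⟨j, m⟩ : Σ j, N j) ∈ T
          · have h1 : (⟨j, m⟩ : Σ j, N j) ≠ a := fun h' => haT (h' ▸ h)
            simp [h, huv j m h1]
          · simp [h])]
        exact Submodule.zero_mem _
    exact hle hz

end Pool.Agent.Q145.NC
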