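import Pool.Agent.Q145.NC.Curves
import Pool.Agent.Q145.NC.Forms

/-!
# The generalized Bloch conjecture for zero-cycles and natural correspondences between products
of curves
-/

set_option autoImplicit false
set_option linter.unusedSectionVars false

namespace Pool.Agent.Q145.NC

open Finset FF Pool.Agent.Q70.CH

variable {k : Type} [Field k] [CharZero k] {J : Type} {K : J → Type} [∀ j, Field (K j)]
  [∀ j, Algebra k (K j)]

/-- A natural map from `∏ C_j ^ (N j)` to `∏ C_j ^ (M j)`: the coordinate with index `(j, q)` is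
obtained from the coordinate `(j, f j q)` by the morphism `a j q` from `C_j` to `C_j`, which acts as
the multiplication by the integer `s j q` on the points of the Jacobian. -/
structure NMap (k : Type) [Field k] [CharZero k] {J : Type} (K : J → Type) [∀ j, Field (K j)]
    [∀ j, Algebra k (K j)] (N M : J → Type) where
  /-- the source of the coordinates -/
  f : ∀ j, M j → N j
  /-- the morphisms -/
  a : ∀ j, M j → Place k (K j) → Place k (K j)
  /-- the integers -/
  s : ∀ j, M j → ℤ
  /-- the action on the Jacobian -/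
  scalar : ∀ j q, IsScalar k (K j) (a j q) (s j q)

/-- the map on points -/
def NMap.map {N M : J → Type} (F : NMap k K N M) (x : ∀ j, N j → Place k (K j)) :
    ∀ j, M j → Place k (K j) := fun j q => F.a j q (x j (F.f j q))

lemma NMap.isMap {N M : J → Type} (F : NMap k K N M) :
    IsMap (prodC (k := k) K N) (prodC K M) F.map := by
  intro B _ _ _ s hs j q
  exact (F.scalar j q).1 B (fun Q => s Q j (F.f j q)) (hs j _)

open Classical in
/-- the point with the coordinates of `y` at the positions `p l`, `l ∈ B`, and those of `x`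
elsewhere -/
noncomputable def replace {N : J → Type} {i : ℕ} (p : Fin i ↪ Σ j, N j) (B : Finset (Fin i))
    (x y : ∀ j, N j → Place k (K j)) : ∀ j, N j → Place k (K j) :=
  fun j q => if ∃ l ∈ B, p l = ⟨j, q⟩ then y j q else x j q

/-- The zero-cycle `∑_{B ⊆ {1..i}} (-1)^|B| [y at the positions p l, l ∈ B, and x elsewhere]`. -/
noncomputable def diff {N : J → Type} {i : ℕ} (p : Fin i ↪ Σ j, N j)
    (x y : ∀ j, N j → Place k (K j)) : (∀ j, N j → Place k (K j)) →₀ ℚ :=
  ∑ B : Finset (Fin i), ((-1 : ℚ) ^ B.card) • Finsupp.single (replace p B x y) 1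

/-- The step `F^i` of the filtration: the zero-cycles rationally equivalent to combinations of
products of at least `i` zero-cycles of degree zero on the factors and of points. -/
noncomputable def fil (k : Type) [Field k] [CharZero k] {J : Type} (K : J → Type)
    [∀ j, Field (K j)] [∀ j, Algebra k (K j)] (N : J → Type) (i : ℕ) :
    Submodule ℚ ((∀ j, N j → Place k (K j)) →₀ ℚ) :=
  ratTriv (prodC (k := k) K N) ⊔
    Submodule.span ℚ {z | ∃ (p : Fin i ↪ Σ j, N j) (x y : ∀ j, N j → Place k (K j)), z = diff p x y}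

/-- the inclusion in the power of the disjoint union -/
def inc {N : J → Type} (x : ∀ j, N j → Place k (K j)) : (Σ j, N j) → DP k K :=
  fun p => ⟨p.1, x p.1 p.2⟩

/-- transport of places along an equality of indices -/
def trn {j j' : J} (e : j = j') (P : Place k (K j)) : Place k (K j') := e ▸ P

/-- the way back -/
def bak {M : J → Type} (z : (Σ j, M j) → DP k K) (h : ∀ q, (z q).1 = q.1) :
    ∀ j, M j → Place k (K j) := fun j m => trn (h ⟨j, m⟩) (z ⟨j, m⟩).2

lemma bak_inc {M : J → Type} (x : ∀ j, M j → Place k (K j)) (h : ∀ q, (inc x q).1 = q.1) :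
    bak (inc x) h = x := rfl

lemma inc_bak {M : J → Type} (z : (Σ j, M j) → DP k K) (h : ∀ q, (z q).1 = q.1) :
    inc (bak z h) = z := by
  ext1 q
  obtain ⟨j, m⟩ := q
  have key : ∀ (a : DP k K) (ha : a.1 = j), (⟨j, trn ha a.2⟩ : DP k K) = a := by
    rintro ⟨j', P⟩ ha
    simp only at ha
    subst ha
    rfl
  exact key (z ⟨j, m⟩) (h ⟨j, m⟩)

open Classical in
/-- the projection to the component, on points -/
noncomputable def rhoV (M : J → Type) (z : (Σ j, M j) → DP k K) :
    (∀ j, M j → Place k (K j)) →₀ ℚ :=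
  if h : ∀ q, (z q).1 = q.1 then Finsupp.single (bak z h) (1 : ℚ) else 0

/-- the projection to the component -/
noncomputable def rho (M : J → Type) : (((Σ j, M j) → DP k K) →₀ ℚ) →ₗ[ℚ]
    ((∀ j, M j → Place k (K j)) →₀ ℚ) :=
  Finsupp.linearCombination ℚ (rhoV M)

lemma rho_inc (M : J → Type) (x : ∀ j, M j → Place k (K j)) :
    rho M (Finsupp.single (inc x) 1) = Finsupp.single x 1 := by
  unfold rho
  rw [Finsupp.linearCombination_single, one_smul]
  exact dif_pos (fun q => rfl)

lemma cast_mor {M : J → Type} (B : Type) [Field B] [Algebra k B]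
    (s : Place k B → (Σ j, M j) → DP k K) (h : ∀ Q q, (s Q q).1 = q.1) (j : J) (m : M j) (j' : J)
    (e : j' = j) (s' : Place k B → Place k (K j')) (hs' : s' ∈ (curve (k := k) (K j')).mor B)
    (hseq : ∀ Q, s Q ⟨j, m⟩ = ⟨j', s' Q⟩) :
    (fun Q => bak (s Q) (h Q) j m) ∈ (curve (k := k) (K j)).mor B := by
  subst e
  have : (fun Q => bak (s Q) (h Q) j' m) = s' := by
    ext1 Q
    have key : ∀ (a : DP k K) (b : Place k (K j')), a = ⟨j', b⟩ → ∀ ha : a.1 = j', trn ha a.2 = b := by
      rintro _ b rfl ha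
      rfl
    exact key _ _ (hseq Q) (h Q ⟨j', m⟩)
  rw [this]
  exact hs'

lemma rho_gen (M : J → Type) (B : Type) [Field B] [Algebra k B] [IsFF k B]
    (s : Place k B → (Σ j, M j) → DP k K) (hs : s ∈ (DU k K (Σ j, M j)).mor B) (t : B)
    (ht : t ≠ 0) : rho M ((qdiv (k := k) t).mapDomain s) ∈ ratTriv (prodC (k := k) K M) := by
  classical
  have hs2 : ∀ q, ∃ j, ∃ s' ∈ (curve (k := k) (K j)).mor B, ∀ Q, s Q q = ⟨j, s' Q⟩ := hs
  choose jq s' hs' hseq using hs2
  unfold rho
  rw [Finsupp.linearCombination_mapDomain]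
  by_cases hty : ∀ q, jq q = q.1
  · have hty2 : ∀ Q q, (s Q q).1 = q.1 := fun Q q => by rw [hseq q Q]; exact hty q
    have h1 : (rhoV M ∘ s) = fun Q => Finsupp.single (bak (s Q) (hty2 Q)) (1 : ℚ) := by
      ext1 Q
      exact dif_pos (hty2 Q)
    rw [h1]
    refine Submodule.subset_span ⟨B, _, _, inferInstance, fun Q => bak (s Q) (hty2 Q), ?_, t, ht, ?_⟩
    · intro j m
      exact cast_mor B s hty2 j m (jq ⟨j, m⟩) (hty ⟨j, m⟩) (s' ⟨j, m⟩) (hs' ⟨j, m⟩)
        (hseq ⟨j, m⟩)
    · rw [Finsupp.linearCombination_apply]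
      unfold Finsupp.mapDomain
      apply Finsupp.sum_congr
      intro Q _
      rw [Finsupp.smul_single, smul_eq_mul, mul_one]
  · push Not at hty
    obtain ⟨q, hq⟩ := hty
    have h1 : (rhoV M ∘ s) = fun _ => 0 := by
      ext1 Q
      refine dif_neg (fun h => hq ?_)
      have := h q
      rw [hseq q Q] at this
      exact this
    rw [h1, Finsupp.linearCombination_apply]
    simp only [smul_zero, Finsupp.sum, Finset.sum_const_zero]
    exact Submodule.zero_mem _

lemma rho_mem (M : J → Type) {z : ((Σ j, M j) → DP k K) →₀ ℚ}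
    (hz : z ∈ ratTriv (DU k K (Σ j, M j))) : rho M z ∈ ratTriv (prodC (k := k) K M) := by
  have h : ratTriv (DU k K (Σ j, M j)) ≤
      (ratTriv (prodC (k := k) K M)).comap (rho M) := by
    conv_lhs => unfold ratTriv
    rw [Submodule.span_le]
    rintro _ ⟨B, _, _, _, s, hs, t, ht, rfl⟩
    exact rho_gen M B s hs t ht
  exact h hz

lemma mix_inc {N : J → Type} [DecidableEq (Σ j, N j)] {i : ℕ} (p : Fin i ↪ Σ j, N j)
    (x y : ∀ j, N j → Place k (K j)) (B : Finset (Fin i)) :
    mix (B.map p) (inc x) (inc y) = inc (replace p B x y) := by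
  ext1 q
  unfold mix inc replace
  by_cases h : ∃ l ∈ B, p l = q
  · rw [if_pos (Finset.mem_map.2 h)]
    obtain ⟨j, m⟩ := q
    simp only [if_pos h]
  · rw [if_neg (fun h' => h (Finset.mem_map.1 h'))]
    obtain ⟨j, m⟩ := q
    simp only [if_neg h]

section main

variable {W : Type} [AddCommGroup W] [Module ℚ W] {i : ℕ}

/-- a functional on the cycles of the product, transported -/
noncomputable def Lr (M : J → Type) (M' : ((∀ j, M j → Place k (K j)) →₀ ℚ) →ₗ[ℚ] W) :
    ((DU k K (Σ j, M j)).pts →₀ ℚ) →ₗ[ℚ] W := M'.comp (rho M)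

lemma fn_Lr (M : J → Type) (M' : ((∀ j, M j → Place k (K j)) →₀ ℚ) →ₗ[ℚ] W)
    (x : ∀ j, M j → Place k (K j)) : fn (Lr M M') (inc x) = M' (Finsupp.single x 1) := by
  change M' (rho M (Finsupp.single (inc x) 1)) = _
  rw [rho_inc]

/-- a functional on the cycles of the product, transported -/
lemma D_fn_inc {N : J → Type} [DecidableEq (Σ j, N j)]
    (M' : ((∀ j, N j → Place k (K j)) →₀ ℚ) →ₗ[ℚ] W)
    (p : Fin i ↪ Σ j, N j) (x y : ∀ j, N j → Place k (K j)) :
    D (fn (Lr N M')) (univ.map p) (inc x) (inc y) = M' (diff p x y) := by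
  classical
  unfold diff
  rw [D_map, map_sum]
  apply Finset.sum_congr rfl
  intro B _
  rw [map_smul]
  congr 1
  rw [mix_inc, fn_Lr]

/-- the data of the natural map on the disjoint union -/
def NMap.f' {N M : J → Type} (F : NMap k K N M) (q : Σ j, M j) : Σ j, N j := ⟨q.1, F.f q.1 q.2⟩

open Classical in
/-- the data of the natural map on the disjoint union -/
noncomputable def NMap.a' {N M : J → Type} (F : NMap k K N M) (q : Σ j, M j) (c : DP k K) :
    DP k K := if h : c.1 = q.1 then ⟨q.1, F.a q.1 q.2 (trn h c.2)⟩ else c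

lemma nat_inc {N M : J → Type} (F : NMap k K N M) (x : ∀ j, N j → Place k (K j)) :
    nat F.f' F.a' (inc x) = inc (F.map x) := by
  classical
  ext1 q
  obtain ⟨j, m⟩ := q
  change F.a' ⟨j, m⟩ (inc x (F.f' ⟨j, m⟩)) = _
  unfold NMap.a'
  rw [dif_pos (by rfl)]
  rfl

lemma a'_mk {N M : J → Type} (F : NMap k K N M) (j : J) (m : M j) (P : Place k (K j)) :
    F.a' ⟨j, m⟩ ⟨j, P⟩ = ⟨j, F.a j m P⟩ := by
  classical
  unfold NMap.a'
  rw [dif_pos (by rfl)]
  rfl

lemma D_fn_nat {N M : J → Type} [DecidableEq (Σ j, N j)] [DecidableEq (Σ j, M j)]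
    (M' : ((∀ j, M j → Place k (K j)) →₀ ℚ) →ₗ[ℚ] W) (F : NMap k K N M)
    (p : Fin i ↪ Σ j, N j) (x y : ∀ j, N j → Place k (K j)) :
    D (fun z => fn (Lr M M') (nat F.f' F.a' z)) (univ.map p) (inc x) (inc y) =
      M' ((diff p x y).mapDomain F.map) := by
  unfold diff
  have h0 : Finsupp.mapDomain F.map (∑ B : Finset (Fin i), ((-1 : ℚ) ^ B.card) •
      Finsupp.single (replace p B x y) (1 : ℚ)) = ∑ B : Finset (Fin i), ((-1 : ℚ) ^ B.card) •
      Finsupp.single (F.map (replace p B x y)) (1 : ℚ) := by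
    rw [Finsupp.mapDomain_finsetSum]
    apply Finset.sum_congr rfl
    intro B _
    rw [Finsupp.mapDomain_smul, Finsupp.mapDomain_single]
  rw [h0, D_map, map_sum]
  apply Finset.sum_congr rfl
  intro B _
  rw [map_smul]
  congr 1
  rw [mix_inc, nat_inc, fn_Lr]

variable [IsAlgClosed k] [∀ j, IsFF k (K j)]

/-- **The generalized Bloch conjecture for natural correspondences between products of curves.**
If the combination of natural maps acts as zero on the holomorphic `i`-forms then it maps `F^i` to
`F^(i+1)`. -/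
theorem main {g : J → ℕ} (hg : ∀ j, IsGenus k (K j) (g j)) {N M : J → Type} [Finite J]
    [∀ j, Finite (N j)] [∀ j, Finite (M j)] {R : Type} [Fintype R] (c : R → ℚ)
    (F : R → NMap k K N M)
    (h : ∀ φ : TS k g M [⋀^Fin i]→ₗ[k] k, IsForm φ → ∀ (p : Fin i ↪ Σ j, N j)
      (v : Fin i → TS k g N), (∀ l, At (p l) (v l)) →
      ∑ r, (c r : k) * φ (fun l => linN (F r).f (F r).s (v l)) = 0)
    (z : (∀ j, N j → Place k (K j)) →₀ ℚ) (hz : z ∈ fil k K N i) :
    ∑ r, c r • z.mapDomain (F r).map ∈ fil k K M (i + 1) := by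
  classical
  have : Fintype (Σ j, N j) := Fintype.ofFinite _
  have : Fintype (Σ j, M j) := Fintype.ofFinite _
  have hbase : ∀ j, ∃ P : Place k (K j), True := fun j => exists_place
  choose base hbase' using hbase
  -- the correspondence as a linear map
  let Z : ((∀ j, N j → Place k (K j)) →₀ ℚ) →ₗ[ℚ] ((∀ j, M j → Place k (K j)) →₀ ℚ) :=
    ∑ r, c r • Finsupp.lmapDomain ℚ ℚ (F r).map
  have hZ : ∀ z, Z z = ∑ r, c r • z.mapDomain (F r).map := by
    intro z
    simp only [Z, LinearMap.sum_apply, LinearMap.smul_apply, Finsupp.lmapDomain_apply]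
  rw [← hZ]
  have hle : fil k K N i ≤ (fil k K M (i + 1)).comap Z := by
    unfold fil
    rw [sup_le_iff]
    constructor
    · intro z hz
      rw [Submodule.mem_comap, hZ]
      apply Submodule.mem_sup_left
      apply Submodule.sum_mem
      intro r _
      exact Submodule.smul_mem _ _ (mapDomain_mem (F r).isMap hz)
    · rw [Submodule.span_le]
      rintro _ ⟨p, x, y, rfl⟩
      rw [SetLike.mem_coe, Submodule.mem_comap, hZ]
      change _ ∈ fil k K M (i + 1)
      rw [← Submodule.ker_mkQ (fil k K M (i + 1)), LinearMap.mem_ker]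
      set q := (fil k K M (i + 1)).mkQ with hq
      have hq0 : ∀ z, z ∈ fil k K M (i + 1) → q z = 0 := by
        intro z hz
        rw [hq, ← LinearMap.mem_ker, Submodule.ker_mkQ]; exact hz
      have hL : Kills (X := DU k K (Σ j, M j)) (Lr M q) := by
        intro z hz
        exact hq0 _ (Submodule.mem_sup_left (rho_mem M hz))
      have key := core (i := i) (fn (Lr M q)) (fun m => ⟨m.1, base m.1⟩)
        (fun a : DP k K => a.1) (fun n : Σ j, N j => n.1) (fun m : Σ j, M j => m.1) g
        (fun _ => rfl) c (fun r => (F r).f') (fun r => (F r).a') (fun r m => (F r).s m.1 m.2)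
        (by
          intro r m a ha
          obtain ⟨j, m⟩ := m
          obtain ⟨j', P⟩ := a
          simp only at ha
          subst ha
          rw [a'_mk])
        (fun _ _ => rfl)
        (by
          intro S x y hS hx hy
          obtain ⟨p', hp'⟩ : ∃ p' : Fin (i + 1) ↪ Σ j, M j, univ.map p' = S := by
            let e : Fin (i + 1) ≃ S := (Finset.equivFinOfCardEq hS).symm
            refine ⟨e.toEmbedding.trans (Function.Embedding.subtype _), ?_⟩
            ext m
            simp only [Finset.mem_map, Finset.mem_univ, true_and]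
            constructor
            · rintro ⟨l, rfl⟩
              exact (e l).2
            · intro hm
              exact ⟨e.symm ⟨m, hm⟩, by simp⟩
          rw [← hp', ← inc_bak x hx, ← inc_bak y hy, D_fn_inc]
          exact hq0 _ (Submodule.mem_sup_right (Submodule.subset_span ⟨p', _, _, rfl⟩)))
        (by
          intro b P j hPj hP w hw
          exact relA2 hg (Lr M q) hL base (fun m : Σ j, M j => m.1) b P j hPj hP w hw)
        (by
          intro r y' m u v _ hu hv
          obtain ⟨j, m⟩ := m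
          exact relA3 (Lr M q) hL j ((F r).a j m) ((F r).s j m) ((F r).scalar j m)
            ((F r).a' ⟨j, m⟩) (fun P => a'_mk (F r) j m P) y' ⟨j, m⟩ u v hu hv)
        p (inc x) (inc y) (fun _ => rfl) (fun _ => rfl)
        (by
          intro b hb c' d hc' hd
          exact forms_comb c (fun r => (F r).f) (fun r => (F r).s) h p b hb c' d hc' hd)
      rw [map_sum]
      rw [← key]
      apply Finset.sum_congr rfl
      intro r _
      rw [map_smul, D_fn_nat]
  exact hle hz

end main

end Pool.Agent.Q145.NC
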