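import Pool.Agent.Q145.NC.Filt

/-!
# Quotients of products of curves by finite groups of natural automorphisms
-/

set_option autoImplicit false
set_option linter.unusedSectionVars false

namespace Pool.Agent.Q145.NC

open Finset FF Pool.Agent.Q70.CH

variable {k : Type} [Field k] [CharZero k] {J : Type} {K : J → Type} [∀ j, Field (K j)]
  [∀ j, Algebra k (K j)] {N : J → Type}

omit [CharZero k] in
lemma alt_sum_apply {V : Type} [AddCommGroup V] [Module k V] {i : ℕ} {G : Type} (s : Finset G)
    (f : G → V [⋀^Fin i]→ₗ[k] k) (v : Fin i → V) : (∑ σ ∈ s, f σ) v = ∑ σ ∈ s, f σ v := by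
  classical
  induction s using Finset.induction_on with
  | empty => simp
  | insert a s ha ih => rw [Finset.sum_insert ha, Finset.sum_insert ha, AlternatingMap.add_apply, ih]

/-- An action of the group `G` on the product of curves by natural maps; the data `f`, `a`, `s` of
the natural maps are multiplied as maps are composed. -/
structure NAct (k : Type) [Field k] [CharZero k] {J : Type} (K : J → Type) [∀ j, Field (K j)]
    [∀ j, Algebra k (K j)] (N : J → Type) (G : Type) [Group G] where
  /-- the natural maps -/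
  F : G → NMap k K N N
  one_f : ∀ j q, (F 1).f j q = q
  one_a : ∀ j q P, (F 1).a j q P = P
  one_s : ∀ j q, (F 1).s j q = 1
  mul_f : ∀ σ τ j q, (F (σ * τ)).f j q = (F τ).f j ((F σ).f j q)
  mul_a : ∀ σ τ j q P, (F (σ * τ)).a j q P = (F σ).a j q ((F τ).a j ((F σ).f j q) P)
  mul_s : ∀ σ τ j q, (F (σ * τ)).s j q = (F σ).s j q * (F τ).s j ((F σ).f j q)

namespace NAct

variable {G : Type} [Group G] (A : NAct k K N G)

lemma map_mul (σ τ : G) (x : ∀ j, N j → Place k (K j)) :
    (A.F (σ * τ)).map x = (A.F σ).map ((A.F τ).map x) := by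
  ext j q
  unfold NMap.map
  rw [A.mul_a, A.mul_f]

lemma lin_mul {g : J → ℕ} (σ τ : G) (v : TS k g N) :
    linN (k := k) (g := g) (A.F (σ * τ)).f (A.F (σ * τ)).s v =
      linN (A.F σ).f (A.F σ).s (linN (A.F τ).f (A.F τ).s v) := by
  ext j q c
  unfold linN
  simp only [LinearMap.coe_mk, AddHom.coe_mk, Pi.smul_apply, smul_eq_mul]
  rw [A.mul_f, A.mul_s]
  push_cast
  ring

lemma f_left (σ : G) (j : J) (q : N j) : (A.F σ).f j ((A.F σ⁻¹).f j q) = q := by
  rw [← A.mul_f, inv_mul_cancel, A.one_f]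

lemma f_right (σ : G) (j : J) (q : N j) : (A.F σ⁻¹).f j ((A.F σ).f j q) = q := by
  rw [← A.mul_f, mul_inv_cancel, A.one_f]

lemma at_lin {g : J → ℕ} (σ : G) (q : Σ j, N j) (v : TS k g N) (h : At q v) :
    At ⟨q.1, (A.F σ⁻¹).f q.1 q.2⟩ (linN (k := k) (g := g) (A.F σ).f (A.F σ).s v) := by
  intro j m hm
  change ((A.F σ).s j m : k) • v j ((A.F σ).f j m) = 0
  rw [h j _ ?_, smul_zero]
  intro hc
  apply hm
  subst hc
  rw [A.f_right]

/-- the sum over the group, on cycles -/
noncomputable def Z [Fintype G] : ((∀ j, N j → Place k (K j)) →₀ ℚ) →ₗ[ℚ]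
    ((∀ j, N j → Place k (K j)) →₀ ℚ) :=
  ∑ σ, Finsupp.lmapDomain ℚ ℚ (A.F σ).map

lemma Z_apply [Fintype G] (z : (∀ j, N j → Place k (K j)) →₀ ℚ) :
    A.Z z = ∑ σ, z.mapDomain (A.F σ).map := by
  simp only [Z, LinearMap.sum_apply, Finsupp.lmapDomain_apply]

lemma Z_Z [Fintype G] (z : (∀ j, N j → Place k (K j)) →₀ ℚ) :
    A.Z (A.Z z) = (Fintype.card G : ℚ) • A.Z z := by
  have h1 : ∀ σ : G, (A.Z z).mapDomain (A.F σ).map = A.Z z := by
    intro σ
    rw [Z_apply, Finsupp.mapDomain_finsetSum]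
    refine Fintype.sum_equiv (Equiv.mulLeft σ) _ _ ?_
    intro τ
    rw [← Finsupp.mapDomain_comp]
    congr 1
    ext1 x
    exact (A.map_mul σ τ x).symm
  rw [Z_apply A (A.Z z)]
  simp only [h1]
  rw [Finset.sum_const, Finset.card_univ, Nat.cast_smul_eq_nsmul]

variable [IsAlgClosed k] [∀ j, IsFF k (K j)]

/-- If there are no invariant `i`-forms for all `i ≥ r` then the sum over the group kills `F^r`. -/
theorem vanish {g : J → ℕ} (hg : ∀ j, IsGenus k (K j) (g j)) [Finite J] [∀ j, Finite (N j)]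
    [Fintype G] (r : ℕ)
    (hG : ∀ i, r ≤ i → ∀ φ : TS k g N [⋀^Fin i]→ₗ[k] k, IsForm φ →
      (∀ σ, φ.compLinearMap (linN (A.F σ).f (A.F σ).s) = φ) → φ = 0)
    (z : (∀ j, N j → Place k (K j)) →₀ ℚ) (hz : z ∈ fil k K N r) :
    ∑ σ, z.mapDomain (A.F σ).map ∈ ratTriv (prodC (k := k) K N) := by
  classical
  have : Fintype (Σ j, N j) := Fintype.ofFinite _
  have hstep : ∀ i, r ≤ i → ∀ z ∈ fil k K N i, A.Z z ∈ fil k K N (i + 1) := by
    intro i hi z hz
    have h1 := main hg (N := N) (M := N) (i := i) (fun _ : G => (1 : ℚ)) A.F (by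
      intro φ hφ p v _
      let ψ : TS k g N [⋀^Fin i]→ₗ[k] k :=
        ∑ σ, φ.compLinearMap (linN (A.F σ).f (A.F σ).s)
      have hψ : ψ = 0 := by
        refine hG i hi ψ ?_ ?_
        · intro v l l' hll q hl hl'
          simp only [ψ]
          rw [alt_sum_apply]
          apply Finset.sum_eq_zero
          intro σ _
          rw [AlternatingMap.compLinearMap_apply]
          exact hφ _ l l' hll _ (A.at_lin σ q _ hl) (A.at_lin σ q _ hl')
        · intro τ
          ext v
          simp only [ψ]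
          rw [AlternatingMap.compLinearMap_apply, alt_sum_apply,
            alt_sum_apply]
          refine Fintype.sum_equiv (Equiv.mulRight τ) _ _ ?_
          intro σ
          rw [AlternatingMap.compLinearMap_apply, AlternatingMap.compLinearMap_apply]
          congr 1
          ext1 l
          exact (A.lin_mul σ τ (v l)).symm
      have h2 : ψ v = 0 := by rw [hψ]; rfl
      simp only [ψ] at h2
      rw [alt_sum_apply] at h2
      rw [← h2]
      apply Finset.sum_congr rfl
      intro σ _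
      rw [Rat.cast_one, one_mul, AlternatingMap.compLinearMap_apply]) z hz
    simp only [one_smul] at h1
    rw [Z_apply]
    exact h1
  have hcard : (Fintype.card G : ℚ) ≠ 0 := by
    have : 0 < Fintype.card G := Fintype.card_pos
    positivity
  have hall : ∀ n, A.Z z ∈ fil k K N (r + n) := by
    intro n
    induction n with
    | zero => exact fil_succ_le r (hstep r le_rfl z hz)
    | succ n ih =>
      have h1 := hstep (r + n) (by omega) _ ih
      rw [Z_Z] at h1
      have h2 := Submodule.smul_mem _ ((Fintype.card G : ℚ)⁻¹) h1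
      rw [smul_smul, inv_mul_cancel₀ hcard, one_smul] at h2
      exact h2
  have h3 := hall (Fintype.card (Σ j, N j) + 1)
  rw [fil_large (by omega), Z_apply] at h3
  exact h3

/-- the points of the quotient -/
abbrev Orb : Type := Quot (fun x y : ∀ j, N j → Place k (K j) => ∃ σ, (A.F σ).map x = y)

/-- the quotient map -/
def quo (x : ∀ j, N j → Place k (K j)) : A.Orb := Quot.mk _ x

/-- The zero-cycles on the quotient `X/G` rationally equivalent to zero (with rational
coefficients): the push-forwards of those on `X`. -/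
noncomputable def ratQ : Submodule ℚ (A.Orb →₀ ℚ) :=
  (ratTriv (prodC (k := k) K N)).map (Finsupp.lmapDomain ℚ ℚ A.quo)

/-- from the product to the quotient -/
lemma mem_ratQ [Fintype G] (z : (∀ j, N j → Place k (K j)) →₀ ℚ)
    (hz : ∑ σ, z.mapDomain (A.F σ).map ∈ ratTriv (prodC (k := k) K N)) :
    z.mapDomain A.quo ∈ A.ratQ := by
  have hcard : (Fintype.card G : ℚ) ≠ 0 := by
    have : 0 < Fintype.card G := Fintype.card_pos
    positivity
  have h1 : (∑ σ, z.mapDomain (A.F σ).map).mapDomain A.quo =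
      (Fintype.card G : ℚ) • z.mapDomain A.quo := by
    rw [Finsupp.mapDomain_finsetSum]
    have h2 : ∀ σ : G, Finsupp.mapDomain A.quo (z.mapDomain (A.F σ).map) = z.mapDomain A.quo := by
      intro σ
      rw [← Finsupp.mapDomain_comp]
      congr 1
      ext1 x
      exact (Quot.sound ⟨σ, rfl⟩).symm
    simp only [h2]
    rw [Finset.sum_const, Finset.card_univ, Nat.cast_smul_eq_nsmul]
  have h3 : (∑ σ, z.mapDomain (A.F σ).map).mapDomain A.quo ∈ A.ratQ := ⟨_, hz, rfl⟩
  rw [h1] at h3
  have h4 := Submodule.smul_mem _ ((Fintype.card G : ℚ)⁻¹) h3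
  rw [smul_smul, inv_mul_cancel₀ hcard, one_smul] at h4
  exact h4

lemma exists_lift (w : A.Orb →₀ ℚ) : ∃ z : (∀ j, N j → Place k (K j)) →₀ ℚ,
    z.mapDomain A.quo = w ∧ (z.sum fun _ c => c) = w.sum fun _ c => c := by
  refine ⟨w.mapDomain Quot.out, ?_, ?_⟩
  · rw [← Finsupp.mapDomain_comp]
    have : A.quo ∘ Quot.out = id := by
      ext1 x
      exact Quot.out_eq x
    rw [this, Finsupp.mapDomain_id]
  · rw [Finsupp.sum_mapDomain_index (by intro; rfl) (by intros; rfl)]

/-- **The generalized Bloch conjecture for quotients of products of curves.** -/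
theorem quotient {g : J → ℕ} (hg : ∀ j, IsGenus k (K j) (g j)) [Finite J] [∀ j, Finite (N j)]
    [Finite G]
    (hG : ∀ i, 1 ≤ i → ∀ φ : TS k g N [⋀^Fin i]→ₗ[k] k, IsForm φ →
      (∀ σ, φ.compLinearMap (linN (A.F σ).f (A.F σ).s) = φ) → φ = 0)
    (w : A.Orb →₀ ℚ) (hw : (w.sum fun _ c => c) = 0) : w ∈ A.ratQ := by
  classical
  have : Fintype G := Fintype.ofFinite _
  have : Fintype (Σ j, N j) := Fintype.ofFinite _
  obtain ⟨z, hz, hz0⟩ := A.exists_lift w
  rw [← hz]
  apply A.mem_ratQ
  exact A.vanish hg 1 hG z (mem_fil_one z (by rw [hz0, hw]))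

end NAct

end Pool.Agent.Q145.NC
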