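import Pool.Agent.Q145.NC.Cross
import Pool.Agent.Q145.NC.AltLem
import Pool.Agent.Q145.NC.Alb

/-!
# Voisin's conjecture for quotients of products of curves
-/

set_option autoImplicit false
set_option linter.unusedSectionVars false

namespace Pool.Agent.Q145.NC

open Finset FF Pool.Agent.Q70.CH

section slot

variable {k M : Type} [Field k] [AddCommGroup M] [Module k M] {m d : ℕ}

/-- an alternating form in the variables of one block, the others being fixed -/
def slot (φ : M [⋀^(Fin m × Fin d)]→ₗ[k] k) (b : Fin m) (c : Fin m × Fin d → M) :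
    M [⋀^Fin d]→ₗ[k] k where
  toFun t := φ (fun i => if i.1 = b then t i.2 else c i)
  map_update_add' t l x y := by
    have h : ∀ z : M, (fun i : Fin m × Fin d => if i.1 = b then (Function.update t l z) i.2 else c i) =
        Function.update (fun i => if i.1 = b then t i.2 else c i) (b, l) z := by
      intro z
      ext1 i
      obtain ⟨b', l'⟩ := i
      by_cases h1 : b' = b
      · subst h1
        by_cases h2 : l' = l
        · subst h2; simp
        · rw [Function.update_of_ne (by simpa using h2)]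
          simp [h2]
      · rw [Function.update_of_ne (fun h => h1 (Prod.mk.inj h).1)]
        simp [h1]
    rw [h, h, h, φ.map_update_add]
  map_update_smul' t l r x := by
    have h : ∀ z : M, (fun i : Fin m × Fin d => if i.1 = b then (Function.update t l z) i.2 else c i) =
        Function.update (fun i => if i.1 = b then t i.2 else c i) (b, l) z := by
      intro z
      ext1 i
      obtain ⟨b', l'⟩ := i
      by_cases h1 : b' = b
      · subst h1
        by_cases h2 : l' = l
        · subst h2; simp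
        · rw [Function.update_of_ne (by simpa using h2)]
          simp [h2]
      · rw [Function.update_of_ne (fun h => h1 (Prod.mk.inj h).1)]
        simp [h1]
    rw [h, h, φ.map_update_smul]
  map_eq_zero_of_eq' t l l' h hne := by
    refine φ.map_eq_zero_of_eq _ (i := (b, l)) (j := (b, l')) ?_ (by simpa using hne)
    simp [h]

lemma slot_apply (φ : M [⋀^(Fin m × Fin d)]→ₗ[k] k) (b : Fin m) (c : Fin m × Fin d → M)
    (t : Fin d → M) : slot φ b c t = φ (fun i => if i.1 = b then t i.2 else c i) := rfl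

end slot

variable {k : Type} [Field k] [CharZero k] {J : Type} {K : J → Type} [∀ j, Field (K j)]
  [∀ j, Algebra k (K j)] {N : J → Type}

/-- the inclusion of the tangent space of the `b`-th factor of `X^m` -/
def iot {g : J → ℕ} {m : ℕ} (b : Fin m) : TS k g N →ₗ[k] TS k g (NP N m) where
  toFun u j q := if q.2 = b then u j q.1 else 0
  map_add' u v := by
    ext j q c
    by_cases h : q.2 = b
    · simp [h]
    · simp [h]
  map_smul' r v := by
    ext j q c
    by_cases h : q.2 = b
    · simp [h]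
    · simp [h]

lemma iot_apply {g : J → ℕ} {m : ℕ} (b : Fin m) (u : TS k g N) (j : J) (q : NP N m j) :
    iot b u j q = if q.2 = b then u j q.1 else 0 := rfl

lemma at_iot {g : J → ℕ} {m : ℕ} (b : Fin m) {u : TS k g N} {q : Σ j, N j} (h : At q u) :
    At (⟨q.1, (q.2, b)⟩ : Σ j, NP N m j) (iot b u) := by
  intro j q' hne
  rw [iot_apply]
  by_cases hb : q'.2 = b
  · rw [if_pos hb]
    apply h
    intro hc
    apply hne
    subst hc
    obtain ⟨q', b'⟩ := q'
    simp only at hb
    subst hb
    rfl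
  · rw [if_neg hb]

namespace NAct

variable {G : Type} [Group G] (A : NAct k K N G)

/-- the natural map of `X^m` given by a permutation and elements of the group -/
def blk {m : ℕ} (τ : Equiv.Perm (Fin m)) (γ : Fin m → G) : NMap k K (NP N m) (NP N m) where
  f j q := ((A.F (γ q.2)).f j q.1, τ q.2)
  a j q := (A.F (γ q.2)).a j q.1
  s j q := (A.F (γ q.2)).s j q.1
  scalar j q := (A.F (γ q.2)).scalar j q.1

lemma blk_map {m : ℕ} (τ : Equiv.Perm (Fin m)) (γ : Fin m → G)
    (v : Fin m → ∀ j, N j → Place k (K j)) :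
    (A.blk τ γ).map (unc v) = unc (fun b => (A.F (γ b)).map (v (τ b))) := rfl

lemma blk_lin {g : J → ℕ} {m : ℕ} (τ : Equiv.Perm (Fin m)) (γ : Fin m → G) (b : Fin m)
    (u : TS k g N) : linN (k := k) (g := g) (A.blk τ γ).f (A.blk τ γ).s (iot b u) =
      iot (τ⁻¹ b) (linN (A.F (γ (τ⁻¹ b))).f (A.F (γ (τ⁻¹ b))).s u) := by
  ext j q c
  rw [iot_apply]
  change ((((A.F (γ q.2)).s j q.1 : ℤ) : k) • (iot b u) j ((A.F (γ q.2)).f j q.1, τ q.2)) c = _
  rw [iot_apply]
  by_cases h : q.2 = τ⁻¹ b
  · have h1 : τ q.2 = b := by rw [h]; simp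
    rw [if_pos h, if_pos h1, h]
    rfl
  · have h1 : τ q.2 ≠ b := by
      intro h1
      apply h
      rw [← h1]
      simp
    rw [if_neg h, if_neg h1, smul_zero]

lemma blk_cross [Fintype G] {m : ℕ} (τ : Equiv.Perm (Fin m))
    (z : Fin m → (∀ j, N j → Place k (K j)) →₀ ℚ) :
    ∑ γ : Fin m → G, ((cross z).mapDomain unc).mapDomain (A.blk τ γ).map =
      (cross (fun b => A.Z (z (τ b)))).mapDomain unc := by
  have h1 : ∀ γ : Fin m → G, ((cross z).mapDomain unc).mapDomain (A.blk τ γ).map =
      (cross (fun b => (z (τ b)).mapDomain (A.F (γ b)).map)).mapDomain unc := by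
    intro γ
    rw [← cross_map (fun b => z (τ b)) (fun b => (A.F (γ b)).map), cross_perm z τ,
      ← Finsupp.mapDomain_comp, ← Finsupp.mapDomain_comp, ← Finsupp.mapDomain_comp]
    rfl
  simp only [h1]
  rw [← Finsupp.mapDomain_finsetSum, ← cross_sum (fun b σ => (z (τ b)).mapDomain (A.F σ).map)]
  congr 2
  ext1 b
  rw [Z_apply]

/-- The space of the `G`-invariant holomorphic `d`-forms. -/
def invForms (g : J → ℕ) (d : ℕ) : Submodule k (TS k g N [⋀^Fin d]→ₗ[k] k) where
  carrier := {φ | IsForm φ ∧ ∀ σ, φ.compLinearMap (linN (A.F σ).f (A.F σ).s) = φ}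
  zero_mem' := by
    refine ⟨fun v l l' _ q _ _ => rfl, fun σ => ?_⟩
    rw [AlternatingMap.zero_compLinearMap]
  add_mem' := by
    rintro φ ψ ⟨h1, h2⟩ ⟨h3, h4⟩
    refine ⟨fun v l l' hll q hq hq' => ?_, fun σ => ?_⟩
    · rw [AlternatingMap.add_apply, h1 v l l' hll q hq hq', h3 v l l' hll q hq hq', add_zero]
    · rw [AlternatingMap.add_compLinearMap, h2, h4]
  smul_mem' := by
    rintro r φ ⟨h1, h2⟩
    refine ⟨fun v l l' hll q hq hq' => ?_, fun σ => ?_⟩
    · rw [AlternatingMap.smul_apply, h1 v l l' hll q hq hq', smul_zero]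
    · have := h2 σ
      ext v
      rw [AlternatingMap.compLinearMap_apply, AlternatingMap.smul_apply, AlternatingMap.smul_apply]
      congr 1
      rw [← AlternatingMap.compLinearMap_apply, this]

instance finite_alt {M : Type} [AddCommGroup M] [Module k M] [FiniteDimensional k M] (d : ℕ) :
    FiniteDimensional k (M [⋀^Fin d]→ₗ[k] k) :=
  FiniteDimensional.of_injective
    (AlternatingMap.toMultilinearMapLM (R := k) (S := k) (M := M) (N := k) (ι := Fin d))
    AlternatingMap.coe_multilinearMap_injective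

/-- the vanishing of the antisymmetrization on forms, blocks -/
lemma block_forms {g : J → ℕ} [Finite J] [∀ j, Finite (N j)] [Fintype G] {m d : ℕ}
    (hm : Module.finrank k (A.invForms g d) < m)
    (φ : TS k g (NP N m) [⋀^(Fin m × Fin d)]→ₗ[k] k)
    (hφ : ∀ v : Fin m × Fin d → TS k g (NP N m), ∀ i i', i ≠ i' → ∀ q, At q (v i) → At q (v i') →
      φ v = 0) (u : Fin m → Fin d → TS k g N) :
    ∑ τ : Equiv.Perm (Fin m), ∑ γ : Fin m → G, (((Equiv.Perm.sign τ : ℤ) : k)) ^ (d + 1) *
      φ (fun i => linN (A.blk τ γ).f (A.blk τ γ).s (iot i.1 (u i.1 i.2))) = 0 := by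
  classical
  have : Fintype J := Fintype.ofFinite J
  have : ∀ j, Fintype (N j) := fun j => Fintype.ofFinite _
  let Ψ : (Fin m → Fin d → TS k g N) → k := fun w => ∑ γ : Fin m → G,
    φ (fun i => iot i.1 (linN (A.F (γ i.1)).f (A.F (γ i.1)).s (w i.1 i.2)))
  have h1 : ∀ τ : Equiv.Perm (Fin m), ∑ γ : Fin m → G, (((Equiv.Perm.sign τ : ℤ) : k)) ^ (d + 1) *
      φ (fun i => linN (A.blk τ γ).f (A.blk τ γ).s (iot i.1 (u i.1 i.2))) =
      ((Equiv.Perm.sign τ : ℤ) : k) * Ψ (fun b => u (τ b)) := by
    intro τ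
    simp only [Ψ]
    rw [Finset.mul_sum]
    apply Finset.sum_congr rfl
    intro γ _
    let π : Equiv.Perm (Fin m × Fin d) := Equiv.prodCongrLeft (fun _ : Fin d => τ)
    have h2 := φ.map_perm (fun i => linN (A.blk τ γ).f (A.blk τ γ).s (iot i.1 (u i.1 i.2))) π
    have h3 : (fun i : Fin m × Fin d => linN (k := k) (g := g) (A.blk τ γ).f (A.blk τ γ).s
        (iot i.1 (u i.1 i.2))) ∘ π =
        fun i => iot i.1 (linN (A.F (γ i.1)).f (A.F (γ i.1)).s (u (τ i.1) i.2)) := by
      ext1 i
      obtain ⟨b, l⟩ := i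
      change linN (A.blk τ γ).f (A.blk τ γ).s (iot (τ b) (u (τ b) l)) = _
      rw [blk_lin]
      simp
    rw [h3] at h2
    rw [h2]
    have h4 : Equiv.Perm.sign π = Equiv.Perm.sign τ ^ d := by
      simp only [π]
      rw [Equiv.Perm.sign_prodCongrLeft, Finset.prod_const, Finset.card_univ, Fintype.card_fin]
    rw [h4]
    have h5 : ∀ (ε : ℤˣ) (x : k), (ε ^ d) • x = ((ε : ℤ) : k) ^ d * x := by
      intro ε x
      rw [Units.smul_def, zsmul_eq_mul]
      push_cast
      rfl
    rw [h5, ← mul_assoc, ← pow_succ']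
  simp only [h1]
  change Alt Ψ u = 0
  refine alt_vanish (V := A.invForms g d) (fun t => (LinearMap.mk
    ⟨fun f : A.invForms g d => (f : TS k g N [⋀^Fin d]→ₗ[k] k) t, fun _ _ => rfl⟩
    (fun _ _ => rfl))) hm Ψ ?_ u
  intro w b
  -- the fixed variables
  let c : (Fin m → G) → Fin m × Fin d → TS k g (NP N m) := fun γ i =>
    iot i.1 (linN (A.F (γ i.1)).f (A.F (γ i.1)).s (w i.1 i.2))
  let f : TS k g N [⋀^Fin d]→ₗ[k] k := ∑ γ : Fin m → G,
    (slot φ b (c γ)).compLinearMap ((iot b).comp (linN (A.F (γ b)).f (A.F (γ b)).s))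
  have hf : ∀ t, f t = ∑ γ : Fin m → G, φ (fun i => if i.1 = b then
      iot b (linN (A.F (γ b)).f (A.F (γ b)).s (t i.2)) else c γ i) := by
    intro t
    simp only [f]
    rw [alt_sum_apply]
    apply Finset.sum_congr rfl
    intro γ _
    rw [AlternatingMap.compLinearMap_apply, slot_apply]
    rfl
  refine ⟨⟨f, ?_, ?_⟩, ?_⟩
  · intro t l l' hll q hq hq'
    rw [hf]
    apply Finset.sum_eq_zero
    intro γ _
    have h6 : ∀ l, At q (t l) → At (⟨q.1, ((A.F (γ b)⁻¹).f q.1 q.2, b)⟩ : Σ j, NP N m j)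
        (iot b (linN (k := k) (g := g) (A.F (γ b)).f (A.F (γ b)).s (t l))) := by
      intro l hl
      exact at_iot b (A.at_lin (γ b) q _ hl)
    refine hφ _ (b, l) (b, l') (by simpa using hll)
      (⟨q.1, ((A.F (γ b)⁻¹).f q.1 q.2, b)⟩ : Σ j, NP N m j) ?_ ?_
    · simp only [if_true]
      exact h6 l hq
    · simp only [if_true]
      exact h6 l' hq'
  · intro σ
    ext t
    rw [AlternatingMap.compLinearMap_apply, hf, hf]
    refine Fintype.sum_equiv (Equiv.mulRight (Pi.mulSingle b σ : Fin m → G)) _ _ ?_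
    intro γ
    rw [Equiv.coe_mulRight]
    beta_reduce
    congr 1
    ext1 i
    by_cases h : i.1 = b
    · rw [if_pos h, if_pos h, Pi.mul_apply, Pi.mulSingle_eq_same, A.lin_mul]
    · rw [if_neg h, if_neg h]
      simp only [c]
      rw [Pi.mul_apply, Pi.mulSingle_eq_of_ne h, mul_one]
  · intro t
    change Ψ (Function.update w b t) = f t
    rw [hf]
    simp only [Ψ]
    apply Finset.sum_congr rfl
    intro γ _
    congr 1
    ext1 i
    by_cases h : i.1 = b
    · rw [if_pos h, h, Function.update_self]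
    · rw [if_neg h, Function.update_of_ne h]

/-- the vanishing of the antisymmetrization on forms -/
lemma forms_zero {g : J → ℕ} [Finite J] [∀ j, Finite (N j)] [Fintype G] {m d : ℕ}
    (hd : Nat.card (Σ j, N j) = d) (hm : Module.finrank k (A.invForms g d) < m)
    (φ : TS k g (NP N m) [⋀^Fin (m * d)]→ₗ[k] k) (hφ : IsForm φ)
    (p : Fin (m * d) ↪ Σ j, NP N m j) (v : Fin (m * d) → TS k g (NP N m))
    (hv : ∀ l, At (p l) (v l)) :
    ∑ τ : Equiv.Perm (Fin m), ∑ γ : Fin m → G, (((Equiv.Perm.sign τ : ℤ) : k)) ^ (d + 1) *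
      φ (fun l => linN (A.blk τ γ).f (A.blk τ γ).s (v l)) = 0 := by
  classical
  have : Fintype (Σ j, N j) := Fintype.ofFinite _
  have := finite_NP N m
  have : Fintype (Σ j, NP N m j) := Fintype.ofFinite _
  rw [Nat.card_eq_fintype_card] at hd
  let ε : Fin d ≃ Σ j, N j := (Fintype.equivFinOfCardEq hd).symm
  let P₀ : Fin m × Fin d → Σ j, NP N m j := fun i => ⟨(ε i.2).1, ((ε i.2).2, i.1)⟩
  have hP₀ : Function.Bijective P₀ := by
    constructor
    · rintro ⟨b, l⟩ ⟨b', l'⟩ h
      simp only [P₀, Sigma.mk.injEq] at h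
      obtain ⟨h1, h2⟩ := h
      have h3 : ε l = ε l' ∧ b = b' := by
        revert h2
        generalize hx : ε l = x
        generalize hy : ε l' = y
        rw [hx, hy] at h1
        obtain ⟨x1, x2⟩ := x
        obtain ⟨y1, y2⟩ := y
        simp only at h1
        subst h1
        intro h2
        have h4 := Prod.mk.inj (eq_of_heq h2)
        have h5 : x2 = y2 := h4.1
        exact ⟨by rw [h5], h4.2⟩
      rw [h3.2, ε.injective h3.1]
    · rintro ⟨j, q, b⟩
      refine ⟨(b, ε.symm ⟨j, q⟩), ?_⟩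
      simp only [P₀]
      rw [Equiv.apply_symm_apply]
  have hcard : Fintype.card (Σ j, NP N m j) = m * d := by
    rw [← Fintype.card_of_bijective hP₀, Fintype.card_prod, Fintype.card_fin, Fintype.card_fin]
  have hp : Function.Bijective p := by
    rw [Fintype.bijective_iff_injective_and_card]
    exact ⟨p.injective, by rw [hcard, Fintype.card_fin]⟩
  let e : Fin m × Fin d ≃ Fin (m * d) := (Equiv.ofBijective P₀ hP₀).trans (Equiv.ofBijective p hp).symm
  have he : ∀ i, p (e i) = P₀ i := by
    intro i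
    exact Equiv.ofBijective_apply_symm_apply p hp (P₀ i)
  let u : Fin m → Fin d → TS k g N := fun b l j q => v (e (b, l)) j (q, b)
  have hu : ∀ i : Fin m × Fin d, v (e i) = iot i.1 (u i.1 i.2) := by
    intro i
    obtain ⟨b, l⟩ := i
    ext j q c
    rw [iot_apply]
    obtain ⟨q, b'⟩ := q
    by_cases h : b' = b
    · subst h
      simp only [if_true]
      rfl
    · rw [if_neg h]
      have h1 := hv (e (b, l)) j (q, b') (by
        rw [he]
        intro hc
        apply h
        simp only [P₀, Sigma.mk.injEq] at hc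
        obtain ⟨h1, h2⟩ := hc
        revert h2
        generalize ε l = x at h1
        obtain ⟨x1, x2⟩ := x
        simp only at h1
        subst h1
        intro h2
        exact (Prod.mk.inj (eq_of_heq h2)).2)
      rw [h1]
  have h1 := A.block_forms hm (φ.domDomCongr e.symm) (by
    intro w i i' hii q hq hq'
    rw [AlternatingMap.domDomCongr_apply]
    refine hφ _ (e i) (e i') (fun h => hii (e.injective h)) q ?_ ?_
    · simpa using hq
    · simpa using hq') u
  rw [← h1]
  apply Finset.sum_congr rfl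
  intro τ _
  apply Finset.sum_congr rfl
  intro γ _
  congr 1
  rw [AlternatingMap.domDomCongr_apply]
  congr 1
  ext1 l
  change _ = linN (A.blk τ γ).f (A.blk τ γ).s (iot (e.symm l).1 (u (e.symm l).1 (e.symm l).2))
  rw [← hu, Equiv.apply_symm_apply]

variable [IsAlgClosed k] [∀ j, IsFF k (K j)]

/-- **Voisin's conjecture for quotients of products of curves**, on the product. -/
theorem voisin {g : J → ℕ} (hg : ∀ j, IsGenus k (K j) (g j)) [Finite J] [∀ j, Finite (N j)]
    [Fintype G] {m d : ℕ} (hd : Nat.card (Σ j, N j) = d)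
    (hm : Module.finrank k (A.invForms g d) < m)
    (z : Fin m → (∀ j, N j → Place k (K j)) →₀ ℚ) (hz : ∀ b, z b ∈ fil k K N d) :
    ∑ τ : Equiv.Perm (Fin m), (((Equiv.Perm.sign τ : ℤ) : ℚ)) ^ (d + 1) •
      (cross (fun b => A.Z (z (τ b)))).mapDomain unc ∈ ratTriv (prodC (k := k) K (NP N m)) := by
  classical
  have : Fintype (Σ j, N j) := Fintype.ofFinite _
  have := finite_NP N m
  have : Fintype (Σ j, NP N m j) := Fintype.ofFinite _
  have h1 := main hg (N := NP N m) (M := NP N m) (i := m * d)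
    (R := Equiv.Perm (Fin m) × (Fin m → G))
    (fun r => (((Equiv.Perm.sign r.1 : ℤ) : ℚ)) ^ (d + 1)) (fun r => A.blk r.1 r.2) (by
      intro φ hφ p v hv
      rw [Fintype.sum_prod_type]
      push_cast
      exact A.forms_zero hd hm φ hφ p v hv) ((cross z).mapDomain unc) (cross_fil z hz)
  have hcard : Fintype.card (Σ j, NP N m j) = m * d := by
    have h2 : Fintype.card (Σ j, NP N m j) = Fintype.card ((Σ j, N j) × Fin m) :=
      Fintype.card_congr ⟨fun q => (⟨q.1, q.2.1⟩, q.2.2), fun q => ⟨q.1.1, (q.1.2, q.2)⟩,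
        fun _ => rfl, fun _ => rfl⟩
    rw [h2, Fintype.card_prod, Fintype.card_fin, ← Nat.card_eq_fintype_card, hd, mul_comm]
  rw [fil_large (by omega), Fintype.sum_prod_type] at h1
  simp only [← Finset.smul_sum, A.blk_cross] at h1
  exact h1

end NAct

end Pool.Agent.Q145.NC
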