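import Pool.Agent.Q145.NC.VoiQ

/-!
# The dimension of the space of invariant forms
-/

set_option autoImplicit false
set_option linter.unusedSectionVars false

namespace Pool.Agent.Q145.NC

open Finset FF Pool.Agent.Q70.CH

lemma finrank_lt_gen {k V T : Type} [Field k] [AddCommGroup V] [Module k V] [FiniteDimensional k V]
    (ev : V →ₗ[k] (T → k)) (hev : ∀ f, ev f = 0 → f = 0) {n : ℕ}
    (h : ∀ φ : Fin n → V, ∃ c : Fin n → k, c ≠ 0 ∧ ∀ v, ∑ i, c i * ev (φ i) v = 0) :
    Module.finrank k V < n := by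
  by_contra hc
  push Not at hc
  obtain ⟨f, hf⟩ := exists_linearIndependent_of_le_finrank (R := k) hc
  obtain ⟨c, hc0, hc1⟩ := h f
  apply hc0
  have h1 := Fintype.linearIndependent_iff.1 hf c (by
    apply hev
    rw [map_sum]
    ext v
    rw [Finset.sum_apply]
    have h2 := hc1 v
    rw [Pi.zero_apply, ← h2]
    apply Finset.sum_congr rfl
    intro i _
    rw [map_smul, Pi.smul_apply, smul_eq_mul])
  ext i
  exact h1 i

variable {k : Type} [Field k] [CharZero k] {J : Type} {K : J → Type} [∀ j, Field (K j)]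
  [∀ j, Algebra k (K j)] {N : J → Type}

/-- evaluation of the invariant forms -/
def evI {G : Type} [Group G] (A : NAct k K N G) (g : J → ℕ) (d : ℕ) :
    A.invForms g d →ₗ[k] ((Fin d → TS k g N) → k) where
  toFun f := fun t => f.1 t
  map_add' _ _ := rfl
  map_smul' _ _ := rfl

lemma NAct.finrank_lt {G : Type} [Group G] (A : NAct k K N G) [Finite J] [∀ j, Finite (N j)]
    {g : J → ℕ} {d n : ℕ}
    (h : ∀ φ : Fin n → (TS k g N [⋀^Fin d]→ₗ[k] k), (∀ i, IsForm (φ i) ∧
      ∀ σ, (φ i).compLinearMap (linN (A.F σ).f (A.F σ).s) = φ i) →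
      ∃ c : Fin n → k, c ≠ 0 ∧ ∀ v, ∑ i, c i * φ i v = 0) :
    Module.finrank k (A.invForms g d) < n := by
  have : Fintype J := Fintype.ofFinite J
  have : ∀ j, Fintype (N j) := fun j => Fintype.ofFinite _
  refine finrank_lt_gen (k := k) (V := A.invForms g d) (T := Fin d → TS k g N) (evI A g d) ?_ ?_
  · intro f hf
    apply Subtype.ext
    ext v
    exact congrFun hf v
  · intro φ
    exact h (fun i => (φ i).1) (fun i => (φ i).2)

end Pool.Agent.Q145.NC
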