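import Pool.Agent.Q145.NC.Voi

/-!
# Voisin's conjecture for quotients of products of curves: cycles on the quotient
-/

set_option autoImplicit false
set_option linter.unusedSectionVars false

namespace Pool.Agent.Q145.NC

open Finset FF Pool.Agent.Q70.CH

lemma cross_smul {X : Type} {n : ℕ} (r : ℚ) (a : Fin n → X →₀ ℚ) :
    cross (fun i => r • a i) = r ^ n • cross a := by
  ext v
  rw [Finsupp.smul_apply, cross_apply, cross_apply, smul_eq_mul]
  simp only [Finsupp.smul_apply, smul_eq_mul]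
  rw [Finset.prod_mul_distrib, Finset.prod_const, Finset.card_univ, Fintype.card_fin]

variable {k : Type} [Field k] [CharZero k] {J : Type} {K : J → Type} [∀ j, Field (K j)]
  [∀ j, Algebra k (K j)] {N : J → Type}

namespace NAct

variable {G : Type} [Group G] (A : NAct k K N G)

/-- the quotient map `X^n → (X/G)^n` -/
def quoPow (n : ℕ) (v : ∀ j, NP N n j → Place k (K j)) : Fin n → A.Orb :=
  fun b => A.quo (fun j q => v j (q, b))

lemma quo_Z [Fintype G] (z : (∀ j, N j → Place k (K j)) →₀ ℚ) :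
    (A.Z z).mapDomain A.quo = (Fintype.card G : ℚ) • z.mapDomain A.quo := by
  rw [Z_apply, Finsupp.mapDomain_finsetSum]
  have h2 : ∀ σ : G, Finsupp.mapDomain A.quo (z.mapDomain (A.F σ).map) = z.mapDomain A.quo := by
    intro σ
    rw [← Finsupp.mapDomain_comp]
    congr 1
    ext1 x
    exact (Quot.sound ⟨σ, rfl⟩).symm
  simp only [h2]
  rw [Finset.sum_const, Finset.card_univ, Nat.cast_smul_eq_nsmul]

variable [IsAlgClosed k] [∀ j, IsFF k (K j)]

/-- **Voisin's conjecture for quotients of products of curves.** -/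
theorem voisin_quo {g : J → ℕ} (hg : ∀ j, IsGenus k (K j) (g j)) [Finite J] [∀ j, Finite (N j)]
    [Fintype G] {n d : ℕ} (hd : Nat.card (Σ j, N j) = d)
    (hn : Module.finrank k (A.invForms g d) < n)
    (z : Fin n → (∀ j, N j → Place k (K j)) →₀ ℚ) (hz : ∀ i, A.Z (z i) ∈ fil k K N d) :
    ∑ τ : Equiv.Perm (Fin n), (((Equiv.Perm.sign τ : ℤ) : ℚ)) ^ (d + 1) •
      cross (fun i => (z (τ i)).mapDomain A.quo) ∈
        (ratTriv (prodC (k := k) K (NP N n))).map (Finsupp.lmapDomain ℚ ℚ (A.quoPow n)) := by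
  have h1 := A.voisin hg hd hn (fun i => A.Z (z i)) hz
  have h2 := Submodule.mem_map_of_mem (f := Finsupp.lmapDomain ℚ ℚ (A.quoPow n)) h1
  rw [map_sum] at h2
  have hcard : (Fintype.card G : ℚ) ≠ 0 := by
    have : 0 < Fintype.card G := Fintype.card_pos
    positivity
  have h3 : ∀ τ : Equiv.Perm (Fin n), (Finsupp.lmapDomain ℚ ℚ (A.quoPow n))
      ((((Equiv.Perm.sign τ : ℤ) : ℚ)) ^ (d + 1) •
        (cross (fun b => A.Z (A.Z (z (τ b))))).mapDomain unc) =
      ((Fintype.card G : ℚ) ^ 2) ^ n • ((((Equiv.Perm.sign τ : ℤ) : ℚ)) ^ (d + 1) •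
        cross (fun i => (z (τ i)).mapDomain A.quo)) := by
    intro τ
    rw [map_smul, smul_comm]
    congr 1
    rw [Finsupp.lmapDomain_apply, ← Finsupp.mapDomain_comp]
    have h4 := cross_map (fun b => A.Z (A.Z (z (τ b)))) (fun _ => A.quo)
    change (cross _).mapDomain (fun v i => A.quo (v i)) = _
    rw [h4, ← cross_smul]
    congr 1
    ext1 b
    rw [quo_Z, quo_Z, smul_smul, pow_two]
  simp only [h3] at h2
  rw [← Finset.smul_sum] at h2
  have h4 := Submodule.smul_mem _ ((((Fintype.card G : ℚ) ^ 2) ^ n)⁻¹) h2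
  rwa [smul_smul, inv_mul_cancel₀ (by positivity), one_smul] at h4

end NAct

end Pool.Agent.Q145.NC
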